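import Mathlib
import Pool.Agent.Lib.MP_209724_lc.GS.CurveB
import Pool.Agent.Lib.MP_209724_lc.MV.GenericPoint
import Pool.Agent.Lib.MP_209724_lc.MV.Idem

section

/-!
# Density of the exponential points: definitions

`esum S κ w`: the exponential sum `∑ α ∈ S, κ α exp(α · w)`; `Lam`: the set of the limits, along an
ultrafilter, of the rescaled positions of points of the sets `G ν` relative to the centers `cen ν`.
-/

namespace Pool.Agent.Lib.MP_209724_lc.GD

open Filter Topology Metric Set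
open GS (Ew)

variable {n d : ℕ}

/-- The exponential sum `∑ α ∈ S, κ α exp(α · w)`. -/
noncomputable def esum (S : Finset (Fin n → ℕ)) (κ : (Fin n → ℕ) → ℂ) (w : Fin n → ℂ) : ℂ :=
  ∑ α ∈ S, κ α * Complex.exp (∑ i, (α i : ℂ) * w i)

/-- The limits along `𝒰` of `(r ν (t_ν - t(cen ν)), u_ν - u(cen ν))` for `(t_ν, u_ν) ∈ G ν`. -/
def Lam (𝒰 : Filter ℕ) (r : ℕ → ℝ) (G : ℕ → Set (Ew d × (Fin n → ℂ)))
    (cen : ℕ → Ew d × (Fin n → ℂ)) : Set (Ew d × (Fin n → ℂ)) :=
  {v | ∃ a : ℕ → Ew d × (Fin n → ℂ), (∀ᶠ ν in 𝒰, a ν ∈ G ν) ∧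
    Tendsto (fun ν => (r ν : ℂ) • ((a ν).1 - (cen ν).1)) 𝒰 (𝓝 v.1) ∧
    Tendsto (fun ν => (a ν).2 - (cen ν).2) 𝒰 (𝓝 v.2)}

/-- Uniform openness of the maps `(t, u) ↦ x ν t - u` on the sets `G ν`: near `t₀`, at distance `R₀ / r`,
all values at distance `c₀` are taken approximately. -/
def UnifOpen (r : ℕ → ℝ) (x : ℕ → Ew d → Fin n → ℂ) (G : ℕ → Set (Ew d × (Fin n → ℂ))) (t₀ : Ew d)
    (δ : ℝ) : Prop :=
  ∀ R₀ : ℝ, 0 < R₀ → ∃ c₀ : ℝ, 0 < c₀ ∧ ∀ᶠ ν in atTop, ∀ v ∈ G ν, ‖v.1 - t₀‖ ≤ δ →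
    ∀ c : Fin n → ℂ, ‖c - (x ν v.1 - v.2)‖ ≤ c₀ → ∀ η : ℝ, 0 < η →
      ∃ v' ∈ G ν, ‖v'.1 - v.1‖ ≤ R₀ / r ν ∧ ‖(x ν v'.1 - v'.2) - c‖ ≤ η

/-- Openness of `(ζ, w) ↦ L ζ - w` on `Λ`, uniformly on `Λ`. -/
def LamOpen (L : Ew d →L[ℂ] (Fin n → ℂ)) (Λ : Set (Ew d × (Fin n → ℂ))) : Prop :=
  ∀ R₀ : ℝ, 0 < R₀ → ∃ c₀ : ℝ, 0 < c₀ ∧ ∀ v ∈ Λ, ∀ c : Fin n → ℂ, ‖c - (L v.1 - v.2)‖ ≤ c₀ →
    ∃ v' ∈ Λ, ‖v'.1 - v.1‖ ≤ R₀ ∧ L v'.1 - v'.2 = c

end Pool.Agent.Lib.MP_209724_lc.GD
end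

section

/-!
# Centres over complex cones: definitions

`V` is the variety with generic point `(ξ, υ)`, over `W` with generic point `ξ`; its points are pairs
`v = (x, y)`. `uu v = Re x - log |y|`, `nrm` the Euclidean norm of a real vector, `Adm` the points of
`V` with `y ≠ 0`, `P ≠ 0`; `Lim` the limits of `(x / r, u / r)`, `r → ∞`, with `log |P|` bounded
below by `- C r`; `NoCen`: there are no centres over the points `z` with `G(z) ≠ 0`.
-/

namespace Pool.Agent.Lib.MP_209724_lc.GE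

open MvPolynomial Filter Topology Metric Set
open GC (prj)
open GP (OnV OnW)

variable {n d k : ℕ}

/-- The Euclidean norm of a real vector. -/
noncomputable def nrm (b : Fin n → ℝ) : ℝ := Real.sqrt (∑ i, b i ^ 2)

/-- The vector `Re x - log |y|`. -/
noncomputable def uu (v : (Fin n → ℂ) × (Fin n → ℂ)) : Fin n → ℝ :=
  fun i => (v.1 i).re - Real.log ‖v.2 i‖

/-- The points of `V` with `y ≠ 0` and `P ≠ 0`. -/
def Adm {L : Type} [Field L] [Algebra ℂ L] (ξ υ : Fin n → L)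
    (P : MvPolynomial (Fin n ⊕ Fin n) ℂ) : Set ((Fin n → ℂ) × (Fin n → ℂ)) :=
  {v | OnV ξ υ v.1 v.2 ∧ (∀ i, v.2 i ≠ 0) ∧ eval (Sum.elim v.1 v.2) P ≠ 0}

/-- The limits of `(x / r, u / r)`. -/
def Lim {L : Type} [Field L] [Algebra ℂ L] (ξ υ : Fin n → L)
    (P : MvPolynomial (Fin n ⊕ Fin n) ℂ) : Set ((Fin n → ℂ) × (Fin n → ℝ)) :=
  {w | ∃ (r : ℕ → ℝ) (v : ℕ → (Fin n → ℂ) × (Fin n → ℂ)), (∀ ν, 0 < r ν) ∧
    Tendsto r atTop atTop ∧ (∀ ν, v ν ∈ Adm ξ υ P) ∧
    Tendsto (fun ν => (r ν)⁻¹ • (v ν).1) atTop (𝓝 w.1) ∧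
    Tendsto (fun ν => (r ν)⁻¹ • uu (v ν)) atTop (𝓝 w.2) ∧
    ∃ C : ℝ, ∀ ν, -(C * r ν) ≤ Real.log ‖eval (Sum.elim (v ν).1 (v ν).2) P‖}

/-- There are no centres over the points `z` with `G(z) ≠ 0`. -/
def NoCen {L : Type} [Field L] [Algebra ℂ L] (ξ υ : Fin n → L)
    (P : MvPolynomial (Fin n ⊕ Fin n) ℂ) (G : MvPolynomial (Fin n) ℂ) : Prop :=
  ∀ z : Fin n → ℂ, eval z G ≠ 0 → ∀ (r : ℕ → ℝ) (v : ℕ → (Fin n → ℂ) × (Fin n → ℂ)),
    (∀ ν, 0 < r ν) → Tendsto r atTop atTop → (∀ ν, v ν ∈ Adm ξ υ P) →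
    Tendsto (fun ν => (r ν)⁻¹ • (v ν).1) atTop (𝓝 z) →
    ¬ Tendsto (fun ν => (r ν)⁻¹ • uu (v ν)) atTop (𝓝 0)

/-- The squared Euclidean norm of the coordinates `(Z x, y_B)`. -/
noncomputable def sq (Z : Fin d → Fin n → ℂ) (B : Fin k → Fin n)
    (v : (Fin n → ℂ) × (Fin n → ℂ)) : ℝ :=
  (∑ j, ‖prj Z v.1 j‖ ^ 2) + ∑ j, ‖v.2 (B j)‖ ^ 2

/-- The function to be maximised (for `G, P ≠ 0`). -/
noncomputable def Psi (K ε₁ ε₂ : ℝ) (Q G : (Fin n → ℂ) → ℂ) (P : MvPolynomial (Fin n ⊕ Fin n) ℂ)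
    (v : (Fin n → ℂ) × (Fin n → ℂ)) : ℝ :=
  -(K * nrm (uu v)) + (Q v.1).re + ε₁ * Real.log ‖G v.1‖ +
    ε₂ * Real.log ‖eval (Sum.elim v.1 v.2) P‖

/-- `V` has holomorphic charts with the coordinates `(Z x, y_B)` at the points with `P ≠ 0`. -/
def Charts {L : Type} [Field L] [Algebra ℂ L] (ξ υ : Fin n → L) (Z : Fin d → Fin n → ℂ)
    (B : Fin k → Fin n) (P : MvPolynomial (Fin n ⊕ Fin n) ℂ) : Prop :=
  ∀ x₀ y₀ : Fin n → ℂ, OnV ξ υ x₀ y₀ → eval (Sum.elim x₀ y₀) P ≠ 0 →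
    ∃ (δ : ℝ) (Φ Ψ : (Fin d ⊕ Fin k → ℂ) → Fin n → ℂ), 0 < δ ∧
      Φ (Sum.elim (prj Z x₀) fun j => y₀ (B j)) = x₀ ∧
      Ψ (Sum.elim (prj Z x₀) fun j => y₀ (B j)) = y₀ ∧
      DifferentiableOn ℂ Φ (ball (Sum.elim (prj Z x₀) fun j => y₀ (B j)) δ) ∧
      DifferentiableOn ℂ Ψ (ball (Sum.elim (prj Z x₀) fun j => y₀ (B j)) δ) ∧
      ∀ s ∈ ball (Sum.elim (prj Z x₀) fun j => y₀ (B j)) δ, OnV ξ υ (Φ s) (Ψ s) ∧
        (∀ j, prj Z (Φ s) j = s (Sum.inl j)) ∧ ∀ j, Ψ s (B j) = s (Sum.inr j)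

/-- The values of `c` at points of `W` in the direction `z` are polynomially bounded above and
below. -/
def PolyBd {L : Type} [Field L] [Algebra ℂ L] (ξ : Fin n → L) (z : Fin n → ℂ)
    (c : MvPolynomial (Fin n) ℂ) : Prop :=
  ∀ (r : ℕ → ℝ) (x : ℕ → Fin n → ℂ), (∀ ν, 0 < r ν) → Tendsto r atTop atTop →
    (∀ ν, OnW ξ (x ν)) → Tendsto (fun ν => (r ν)⁻¹ • x ν) atTop (𝓝 z) →
    ∃ C : ℕ, ∀ᶠ ν in atTop, (r ν ^ C)⁻¹ ≤ ‖eval (x ν) c‖ ∧ ‖eval (x ν) c‖ ≤ r ν ^ C

end Pool.Agent.Lib.MP_209724_lc.GE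
end

section

namespace Pool.Agent.Lib.MP_209724_lc.GP

open MvPolynomial

variable {n d k : ℕ}

private theorem bas_mono {L : Type} [Field L] {A B : Type} [CommRing A] [CommRing B] [Algebra A L]
    [Algebra B L] (S1 : Subalgebra A L) (S2 : Subalgebra B L) (h : ∀ x, x ∈ S1 → x ∈ S2) {z : L}
    (hz : IsAlgebraic S1 z) : IsAlgebraic S2 z := by
  let f : S1 →+* S2 :=
    { toFun := fun x => ⟨x.1, h _ x.2⟩
      map_one' := rfl
      map_mul' := fun _ _ => rfl
      map_zero' := rfl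
      map_add' := fun _ _ => rfl }
  have hf : Function.Injective f := by
    intro x y hxy
    apply Subtype.ext
    exact congrArg (fun u : S2 => (u : L)) hxy
  exact hz.ringHom_of_comp_eq f (RingHom.id L) hf (by ext; rfl)

private theorem bas_K {L : Type} [Field L] [Algebra ℂ L] (ξ : Fin n → L) {x : L}
    (hx : x ∈ IntermediateField.adjoin ℂ (Set.range ξ)) :
    IsAlgebraic (Algebra.adjoin ℂ (Set.range ξ)) x := by
  induction hx using IntermediateField.adjoin_induction with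
  | mem x hx => exact isAlgebraic_algebraMap (⟨x, Algebra.subset_adjoin hx⟩ :
      Algebra.adjoin ℂ (Set.range ξ))
  | algebraMap x => exact isAlgebraic_algebraMap (⟨algebraMap ℂ L x, Subalgebra.algebraMap_mem _ x⟩ :
      Algebra.adjoin ℂ (Set.range ξ))
  | add x y _ _ hx hy => exact hx.add hy
  | inv x _ hx => exact hx.inv
  | mul x y _ _ hx hy => exact hx.mul hy

/-- **A transcendence basis among the `y`.** Proof. Let `K = IntermediateField.adjoin ℂ (range ξ)`. `L` is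
algebraic over `Algebra.adjoin K (range υ)` (`hgen`). Choose `T ⊆ Fin n` maximal such that `(υ i)_{i ∈ T}`
is algebraically independent over `K` (`SC.exists_coord_basis` in `SC/Fin2.lean` is this statement);
it is a transcendence basis of `L` over `K`, so `#T = k`; number it by `Fin k`. Finally an element
algebraic over `Algebra.adjoin K (υ ∘ B)` is algebraic over
`Algebra.adjoin ℂ (range ξ ∪ range (υ ∘ B))`, because the elements of `K` are fractions of elements of
`Algebra.adjoin ℂ (range ξ)`. -/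
theorem exists_B {L : Type} [Field L] [Algebra ℂ L] (ξ υ : Fin n → L)
    (hgen : ∀ z : L, IsAlgebraic (Algebra.adjoin ℂ (Set.range (Sum.elim ξ υ))) z)
    (htr : Algebra.trdeg (IntermediateField.adjoin ℂ (Set.range ξ)) L = k) :
    ∃ B : Fin k → Fin n, Function.Injective B ∧
      AlgebraicIndependent (IntermediateField.adjoin ℂ (Set.range ξ)) (fun j => υ (B j)) ∧
      ∀ z : L, IsAlgebraic (Algebra.adjoin ℂ (Set.range ξ ∪ Set.range fun j => υ (B j))) z := by
  classical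
  set K := IntermediateField.adjoin ℂ (Set.range ξ) with hK
  have hξK : ∀ i, ξ i ∈ K := fun i => IntermediateField.subset_adjoin _ _ ⟨i, rfl⟩
  have h1 : Algebra.adjoin ℂ (Set.range (Sum.elim ξ υ)) ≤
      (Algebra.adjoin K (Set.range υ)).restrictScalars ℂ := by
    refine Algebra.adjoin_le ?_
    rintro _ ⟨i | i, rfl⟩
    · exact Subalgebra.algebraMap_mem (Algebra.adjoin K (Set.range υ)) (⟨ξ i, hξK i⟩ : K)
    · exact Algebra.subset_adjoin ⟨i, rfl⟩
  have halg : Algebra.IsAlgebraic (Algebra.adjoin K (Set.range υ)) L :=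
    ⟨fun z => bas_mono _ _ (fun x hx => h1 hx) (hgen z)⟩
  obtain ⟨t, htυ, hbas⟩ := exists_isTranscendenceBasis_subset (R := K) (A := L) (Set.range υ)
  have hcard : Cardinal.mk t = k := by rw [hbas.cardinalMk_eq_trdeg, htr]
  obtain ⟨e⟩ : Nonempty (Fin k ≃ t) := by
    rw [← Cardinal.eq, hcard, Cardinal.mk_fin]
  have hch : ∀ j : Fin k, ∃ i, υ i = (e j : L) := fun j => htυ (e j).2
  choose B hB using hch
  have hfun : (fun j => υ (B j)) = fun j => ((e j : t) : L) := funext hB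
  have hrange : (Set.range fun j => υ (B j)) = Set.range ((↑) : t → L) := by
    rw [hfun]
    exact e.surjective.range_comp ((↑) : t → L)
  refine ⟨B, ?_, ?_, ?_⟩
  · intro i j hij
    apply e.injective
    apply Subtype.ext
    rw [← hB i, ← hB j, hij]
  · rw [hfun]
    exact hbas.1.comp e e.injective
  · intro z
    have hz : IsAlgebraic (Algebra.adjoin K (Set.range fun j => υ (B j))) z := by
      rw [hrange]
      exact hbas.isAlgebraic.1 z
    set S : Set L := Set.range fun j => υ (B j) with hS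
    have h2 : IsAlgebraic (Algebra.adjoin ℂ ((K : Set L) ∪ S)) z := by
      refine bas_mono _ _ (fun x hx => ?_) hz
      induction hx using Algebra.adjoin_induction with
      | mem x hx => exact Algebra.subset_adjoin (Or.inr hx)
      | algebraMap r => exact Algebra.subset_adjoin (Or.inl r.2)
      | add x y _ _ hx hy => exact add_mem hx hy
      | mul x y _ _ hx hy => exact mul_mem hx hy
    refine h2.adjoin_of_forall_isAlgebraic fun x hx => ?_
    rcases hx.1 with hx1 | hx1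
    · exact bas_mono _ _ (fun y hy => Algebra.adjoin_mono Set.subset_union_left hy) (bas_K ξ hx1)
    · exact absurd (Or.inr hx1) hx.2

/-- Proof. `ζ` is a family in `K = IntermediateField.adjoin ℂ (range ξ)`, algebraically independent over
`ℂ`, and `w` is algebraically independent over `K` (`AlgebraicIndependent.sumElim_iff` or
`AlgebraicIndependent.sumElim_comp`-like statements in Mathlib; for `Sum.elim ζ w` use the tower
`ℂ ⊆ Algebra.adjoin ℂ (range ζ) ⊆ K`). -/
theorem indep_sum {L : Type} [Field L] [Algebra ℂ L] (ξ : Fin n → L) (ζ : Fin d → L)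
    (hζK : ∀ j, ζ j ∈ IntermediateField.adjoin ℂ (Set.range ξ)) (hζ : AlgebraicIndependent ℂ ζ)
    (w : Fin k → L) (hw : AlgebraicIndependent (IntermediateField.adjoin ℂ (Set.range ξ)) w) :
    AlgebraicIndependent ℂ (Sum.elim ζ w) := by
  have h1 : AlgebraicIndependent ℂ (Sum.elim w ζ) := by
    refine hζ.sumElim_of_tower (S := IntermediateField.adjoin ℂ (Set.range ξ)) ?_ hw
    rintro _ ⟨j, rfl⟩
    exact ⟨⟨ζ j, hζK j⟩, rfl⟩
  have h2 := h1.comp (Equiv.sumComm (Fin d) (Fin k)) (Equiv.sumComm (Fin d) (Fin k)).injective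
  have h3 : Sum.elim w ζ ∘ (Equiv.sumComm (Fin d) (Fin k)) = Sum.elim ζ w := by
    funext i
    rcases i with i | i <;> rfl
  rwa [h3] at h2

/-- Transitivity of algebraicity: the `ξ i` and `w j` are algebraic over
`R = Algebra.adjoin ℂ (range (Sum.elim ζ w))`, so all elements of
`Algebra.adjoin ℂ (range ξ ∪ range w)` are, and `z` is algebraic over the latter. -/
theorem alg_sum {L : Type} [Field L] [Algebra ℂ L] (ξ : Fin n → L) (ζ : Fin d → L) (w : Fin k → L)
    (hξ : ∀ i, IsAlgebraic (Algebra.adjoin ℂ (Set.range ζ)) (ξ i)) (z : L)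
    (hz : IsAlgebraic (Algebra.adjoin ℂ (Set.range ξ ∪ Set.range w)) z) :
    IsAlgebraic (Algebra.adjoin ℂ (Set.range (Sum.elim ζ w))) z := by
  refine hz.adjoin_of_forall_isAlgebraic fun x hx => ?_
  rcases hx.1 with ⟨i, rfl⟩ | ⟨j, rfl⟩
  · refine bas_mono _ _ (fun y hy => Algebra.adjoin_mono ?_ hy) (hξ i)
    rintro _ ⟨l, rfl⟩
    exact ⟨Sum.inl l, rfl⟩
  · exact absurd ⟨Sum.inr j, rfl⟩ hx.2

/-- Additivity of the transcendence degree (`Algebra.trdeg_add_eq`). -/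
theorem trdeg_over {L : Type} [Field L] [Algebra ℂ L] (ξ : Fin n → L) {m : ℕ}
    (hξ : Algebra.trdeg ℂ (IntermediateField.adjoin ℂ (Set.range ξ)) = d)
    (hL : Algebra.trdeg ℂ L = m) (hm : d + k = m) :
    Algebra.trdeg (IntermediateField.adjoin ℂ (Set.range ξ)) L = k := by
  have h1 := _root_.trdeg_add_eq ℂ (IntermediateField.adjoin ℂ (Set.range ξ)) (A := L)
  rw [hξ, hL] at h1
  set c := Algebra.trdeg (IntermediateField.adjoin ℂ (Set.range ξ)) L with hc
  have h2 : c < Cardinal.aleph0 := by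
    have h3 : c ≤ (m : Cardinal) := by rw [← h1]; exact self_le_add_left _ _
    exact lt_of_le_of_lt h3 (Cardinal.natCast_lt_aleph0)
  obtain ⟨q, hq⟩ := Cardinal.lt_aleph0.1 h2
  rw [hq] at h1 ⊢
  have h4 : d + q = m := by exact_mod_cast h1
  have h5 : q = k := by omega
  rw [h5]

end Pool.Agent.Lib.MP_209724_lc.GP
end

section

namespace Pool.Agent.Lib.MP_209724_lc.GP

open MvPolynomial

variable {n k : ℕ}

/-- **Relations between `k + 1` of the `y`.** If the transcendence degree of `L` over `ℂ(ξ)` is at most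
`k`, any `k + 1` of the `υ i` satisfy a polynomial relation over `ℂ[ξ]`, all of whose coefficients are
nonzero at `ξ`.

Proof. Let `K = IntermediateField.adjoin ℂ (range ξ)`. The family `(υ i)_{i ∈ I}` is not algebraically
independent over `K` (`AlgebraicIndependent.lift_cardinalMk_le_trdeg` or similar; `#I = k + 1 > k`), so
there is a nonzero polynomial `P` over `K` in variables `i ∈ I` with `P(υ) = 0`. The elements of `K` are
quotients of elements `aeval ξ c` (`IntermediateField` adjoin: fractions of `Algebra.adjoin`); multiply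
by a common denominator so that the coefficients are `aeval ξ (c_α)`, not all `0`, and let `S` be the
set of the exponents `α : Fin n → ℕ` (extended by `0` outside of `I`) with `aeval ξ (c α) ≠ 0`. -/
theorem exists_rels {L : Type} [Field L] [Algebra ℂ L] (ξ υ : Fin n → L)
    (htr : Algebra.trdeg (IntermediateField.adjoin ℂ (Set.range ξ)) L ≤ k) (I : Finset (Fin n))
    (hI : I.card = k + 1) :
    ∃ (S : Finset (Fin n → ℕ)) (c : (Fin n → ℕ) → MvPolynomial (Fin n) ℂ), S.Nonempty ∧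
      (∀ α ∈ S, aeval ξ (c α) ≠ 0) ∧ (∀ α ∈ S, ∀ i ∉ I, α i = 0) ∧
      ∑ α ∈ S, aeval ξ (c α) * ∏ i, υ i ^ α i = 0 := by
  classical
  have hnot : ¬ AlgebraicIndependent (IntermediateField.adjoin ℂ (Set.range ξ))
      (fun i : I => υ i) := by
    intro h
    have h1 := h.cardinalMk_le_trdeg.trans htr
    rw [Cardinal.mk_fintype, Fintype.card_coe, hI] at h1
    have h2 : k + 1 ≤ k := by exact_mod_cast h1
    omega
  rw [algebraicIndependent_iff] at hnot
  push Not at hnot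
  obtain ⟨P, hP, hP0⟩ := hnot
  let cf : (I →₀ ℕ) → L := fun α =>
    algebraMap (IntermediateField.adjoin ℂ (Set.range ξ)) L (coeff α P)
  have hfrac : ∀ α : I →₀ ℕ, ∃ r s : MvPolynomial (Fin n) ℂ, aeval ξ s ≠ 0 ∧
      aeval ξ r = aeval ξ s * cf α := by
    intro α
    obtain ⟨r, s, hrs⟩ := (IntermediateField.mem_adjoin_range_iff ℂ _ (cf α)).1
      (coeff α P).2
    by_cases hs : aeval ξ s = 0
    · refine ⟨0, 1, by simp, ?_⟩
      rw [hrs, hs]
      simp
    · refine ⟨r, s, hs, ?_⟩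
      rw [hrs]
      field_simp
  choose r s hs hrs using hfrac
  have hDs : ∀ α ∈ P.support, aeval ξ (r α * ∏ β ∈ P.support.erase α, s β) =
      aeval ξ (∏ β ∈ P.support, s β) * cf α := by
    intro α hα
    rw [map_mul, hrs, ← Finset.mul_prod_erase P.support s hα, map_mul]
    ring
  have hD : aeval ξ (∏ β ∈ P.support, s β) ≠ 0 := by
    rw [map_prod]
    exact Finset.prod_ne_zero_iff.2 fun β _ => hs β
  let ext : (I →₀ ℕ) → (Fin n → ℕ) := fun α i => if h : i ∈ I then α ⟨i, h⟩ else 0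
  let res : (Fin n → ℕ) → (I →₀ ℕ) := fun γ => Finsupp.equivFunOnFinite.symm fun i => γ i
  have hres : ∀ α, res (ext α) = α := by
    intro α
    ext i
    simp [res, ext]
  have hinj : Function.Injective ext := fun α β h => by rw [← hres α, ← hres β, h]
  have hprod : ∀ α : I →₀ ℕ, ∏ i, υ i ^ ext α i = ∏ i : I, υ i ^ α i := by
    intro α
    rw [← Finset.prod_subset (Finset.subset_univ I), ← Finset.prod_coe_sort]
    · refine Finset.prod_congr rfl fun i _ => ?_
      simp [ext]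
    · intro i _ hi
      simp [ext, hi]
  refine ⟨P.support.image ext, fun γ => r (res γ) * ∏ β ∈ P.support.erase (res γ), s β, ?_, ?_, ?_,
    ?_⟩
  · rw [Finset.image_nonempty]
    exact support_nonempty.2 hP0
  · intro γ hγ
    obtain ⟨α, hα, rfl⟩ := Finset.mem_image.1 hγ
    simp only [hres]
    rw [hDs α hα]
    refine mul_ne_zero hD ?_
    have h1 := mem_support_iff.1 hα
    exact fun h => h1 (Subtype.ext h)
  · intro γ hγ i hi
    obtain ⟨α, hα, rfl⟩ := Finset.mem_image.1 hγ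
    simp [ext, hi]
  · rw [Finset.sum_image fun α _ β _ h => hinj h]
    have h1 : ∀ α ∈ P.support, aeval ξ (r (res (ext α)) *
        ∏ β ∈ P.support.erase (res (ext α)), s β) * ∏ i, υ i ^ ext α i =
        aeval ξ (∏ β ∈ P.support, s β) * (cf α * ∏ i : I, υ i ^ α i) := by
      intro α hα
      rw [hres, hDs α hα, hprod, mul_assoc]
    rw [Finset.sum_congr rfl h1, ← Finset.mul_sum]
    have h2 : ∑ α ∈ P.support, cf α * ∏ i : I, υ i ^ α i = 0 := by
      rw [← hP, aeval_def, eval₂_eq']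
    rw [h2, mul_zero]

/-- The relations hold at the points of `V`. Proof: apply `OnV` to the polynomial
`∑ α ∈ S, rename Sum.inl (c α) * ∏ i, X (Sum.inr i) ^ α i`. -/
theorem OnV.rel {L : Type} [Field L] [Algebra ℂ L] {ξ υ : Fin n → L} {S : Finset (Fin n → ℕ)}
    {c : (Fin n → ℕ) → MvPolynomial (Fin n) ℂ}
    (h : ∑ α ∈ S, aeval ξ (c α) * ∏ i, υ i ^ α i = 0) {x : Fin n → ℂ} {u : Fin n → ℂ}
    (hV : OnV ξ υ x fun i => Complex.exp (u i)) :
    ∑ α ∈ S, eval x (c α) * Complex.exp (∑ i, (α i : ℂ) * u i) = 0 := by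
  have h1 := hV (∑ α ∈ S, rename Sum.inl (c α) * ∏ i, X (Sum.inr i) ^ α i) (by
    rw [map_sum, ← h]
    refine Finset.sum_congr rfl fun α _ => ?_
    rw [map_mul, aeval_rename, Sum.elim_comp_inl, map_prod]
    congr 1
    refine Finset.prod_congr rfl fun i _ => ?_
    rw [map_pow, aeval_X, Sum.elim_inr])
  rw [map_sum] at h1
  rw [← h1]
  refine Finset.sum_congr rfl fun α _ => ?_
  rw [map_mul, eval_rename, Sum.elim_comp_inl, map_prod, Complex.exp_sum]
  congr 1
  refine Finset.prod_congr rfl fun i _ => ?_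
  rw [map_pow, eval_X, Sum.elim_inr, Complex.exp_nat_mul]

end Pool.Agent.Lib.MP_209724_lc.GP
end

section

namespace Pool.Agent.Lib.MP_209724_lc.GP

open Filter Topology Metric Set
open GS (Ew)

variable {n d : ℕ}

/-- Cauchy estimate for the derivative -/
private theorem wl_cauchy {w : ℕ} {f : Ew w → ℂ} {x : Ew w} {r M : ℝ} (hr : 0 < r)
    (hf : DifferentiableOn ℂ f (ball x r)) (hM : ∀ y ∈ ball x r, ‖f y‖ ≤ M) :
    ‖fderiv ℂ f x‖ ≤ 2 * M / r := by
  have hM0 : 0 ≤ M := (norm_nonneg _).trans (hM x (mem_ball_self hr))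
  refine ContinuousLinearMap.opNorm_le_bound _ (by positivity) fun v => ?_
  by_cases hv : v = 0
  · rw [hv, map_zero, norm_zero]
    simp
  have hv0 : 0 < ‖v‖ := norm_pos_iff.2 hv
  have hρ : 0 < r / (2 * ‖v‖) := by positivity
  have hmap : ∀ z ∈ ball (0 : ℂ) (r / ‖v‖), x + z • v ∈ ball x r := by
    intro z hz
    rw [mem_ball_zero_iff, lt_div_iff₀ hv0] at hz
    rw [mem_ball_iff_norm, add_sub_cancel_left, norm_smul]
    exact hz
  have hg : DifferentiableOn ℂ (fun z : ℂ => f (x + z • v)) (ball 0 (r / ‖v‖)) :=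
    hf.comp ((differentiable_id.smul_const v).const_add x).differentiableOn hmap
  have hsub : closedBall (0 : ℂ) (r / (2 * ‖v‖)) ⊆ ball 0 (r / ‖v‖) :=
    closedBall_subset_ball (by
      rw [div_lt_div_iff₀ (by positivity) hv0]
      nlinarith)
  have h1 := Complex.norm_deriv_le_of_forall_mem_sphere_norm_le (f := fun z : ℂ => f (x + z • v))
    hρ (hg.diffContOnCl_ball hsub) (C := M)
    (fun z hz => hM _ (hmap z (hsub (sphere_subset_closedBall hz))))
  have h2 : deriv (fun z : ℂ => f (x + z • v)) 0 = fderiv ℂ f x v := by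
    have h3 : HasFDerivAt f (fderiv ℂ f x) (x + (0 : ℂ) • v) := by
      rw [zero_smul, add_zero]
      exact (hf.differentiableAt (ball_mem_nhds x hr)).hasFDerivAt
    have h4 : HasDerivAt (fun z : ℂ => x + z • v) ((1 : ℂ) • v) 0 :=
      ((hasDerivAt_id (0 : ℂ)).smul_const v).const_add x
    have h5 := h3.comp_hasDerivAt 0 h4
    rw [one_smul] at h5
    exact h5.deriv
  rw [h2] at h1
  calc ‖fderiv ℂ f x v‖ ≤ M / (r / (2 * ‖v‖)) := h1
    _ = 2 * M / r * ‖v‖ := by field_simp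

/-- strict differentiability -/
private theorem wl_strict {w : ℕ} {f : Ew w → ℂ} {x₀ : Ew w} {ρ : ℝ}
    (hf : DifferentiableOn ℂ f (ball x₀ ρ)) {x : Ew w} (hx : x ∈ ball x₀ ρ) {ε : ℝ} (hε : 0 < ε) :
    ∃ δ : ℝ, 0 < δ ∧ ball x δ ⊆ ball x₀ ρ ∧ ∀ a ∈ ball x δ, ∀ b ∈ ball x δ,
      ‖f b - f a - fderiv ℂ f x (b - a)‖ ≤ ε * ‖b - a‖ := by
  obtain ⟨ρ₁, hρ₁, hsub⟩ : ∃ ρ₁ : ℝ, 0 < ρ₁ ∧ closedBall x (2 * ρ₁) ⊆ ball x₀ ρ := by
    obtain ⟨e, he, h⟩ := Metric.isOpen_iff.1 isOpen_ball x hx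
    exact ⟨e / 4, by positivity, (closedBall_subset_ball (by linarith)).trans h⟩
  have hu : UniformContinuousOn f (closedBall x (2 * ρ₁)) :=
    (isCompact_closedBall x _).uniformContinuousOn_of_continuous (hf.continuousOn.mono hsub)
  obtain ⟨δ₀, hδ₀, hδ⟩ := Metric.uniformContinuousOn_iff.1 hu (ε * ρ₁ / 2) (by positivity)
  have hmin : 0 < min δ₀ ρ₁ := lt_min hδ₀ hρ₁
  have hballs : ball x (min δ₀ ρ₁) ⊆ ball x₀ ρ :=
    ((ball_subset_closedBall.trans (closedBall_subset_closedBall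
      ((min_le_right _ _).trans (by linarith)))).trans hsub)
  have hder : ∀ y ∈ ball x (min δ₀ ρ₁), ‖fderiv ℂ f y - fderiv ℂ f x‖ ≤ ε := by
    intro y hy
    rw [mem_ball_iff_norm] at hy
    have hm1 : ∀ z ∈ ball x ρ₁, z ∈ closedBall x (2 * ρ₁) := fun z hz => by
      rw [mem_ball_iff_norm] at hz
      rw [mem_closedBall_iff_norm]
      linarith
    have hm2 : ∀ z ∈ ball x ρ₁, z + (y - x) ∈ closedBall x (2 * ρ₁) := fun z hz => by
      rw [mem_ball_iff_norm] at hz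
      rw [mem_closedBall_iff_norm]
      have e1 : z + (y - x) - x = (z - x) + (y - x) := by abel
      rw [e1]
      have := norm_add_le (z - x) (y - x)
      have := min_le_right δ₀ ρ₁
      linarith
    have h1 : DifferentiableOn ℂ (fun z => f (z + (y - x)) - f z) (ball x ρ₁) :=
      (hf.comp (differentiable_id.add_const _).differentiableOn fun z hz => hsub (hm2 z hz)).sub
        (hf.mono fun z hz => hsub (hm1 z hz))
    have h2 := wl_cauchy hρ₁ h1 (M := ε * ρ₁ / 2) (fun z hz => by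
      have h3 := hδ _ (hm2 z hz) _ (hm1 z hz) (by
        rw [dist_eq_norm, add_sub_cancel_left]
        exact hy.trans_le (min_le_left _ _))
      rw [dist_eq_norm] at h3
      exact h3.le)
    have h3 : fderiv ℂ (fun z => f (z + (y - x)) - f z) x = fderiv ℂ f y - fderiv ℂ f x := by
      have hyb : y ∈ ball x₀ ρ := hballs (by rw [mem_ball_iff_norm]; exact hy)
      have h4 : HasFDerivAt (fun z => f (z + (y - x))) (fderiv ℂ f y) x := by
        have h5 : HasFDerivAt f (fderiv ℂ f y) (x + (y - x)) := by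
          rw [add_sub_cancel]
          exact (hf.differentiableAt (isOpen_ball.mem_nhds hyb)).hasFDerivAt
        exact (hasFDerivAt_comp_add_right (y - x)).2 h5
      exact (h4.sub (hf.differentiableAt (isOpen_ball.mem_nhds hx)).hasFDerivAt).fderiv
    rw [h3] at h2
    calc ‖fderiv ℂ f y - fderiv ℂ f x‖ ≤ 2 * (ε * ρ₁ / 2) / ρ₁ := h2
      _ = ε := by field_simp
  refine ⟨min δ₀ ρ₁, hmin, hballs, fun a ha b hb => ?_⟩
  exact (convex_ball x _).norm_image_sub_le_of_norm_fderiv_le' (𝕜 := ℂ)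
    (fun y hy => hf.differentiableAt (isOpen_ball.mem_nhds (hballs hy))) hder ha hb

/-- Lipschitz estimate -/
private theorem wl_lip {w : ℕ} {f : Ew w → ℂ} {x : Ew w} {r M : ℝ} (hr : 0 < r)
    (hf : DifferentiableOn ℂ f (ball x (2 * r))) (hM : ∀ y ∈ ball x (2 * r), ‖f y‖ ≤ M) :
    ∀ a ∈ ball x r, ∀ b ∈ ball x r, ‖f b - f a‖ ≤ 2 * M / r * ‖b - a‖ := by
  intro a ha b hb
  have hsub : ∀ y ∈ ball x r, ball y r ⊆ ball x (2 * r) := fun y hy =>
    ball_subset_ball' (by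
      rw [mem_ball] at hy
      linarith)
  refine (convex_ball x r).norm_image_sub_le_of_norm_fderiv_le (𝕜 := ℂ)
    (fun y hy => hf.differentiableAt (isOpen_ball.mem_nhds (ball_subset_ball (by linarith) hy)))
    (fun y hy => ?_) ha hb
  exact wl_cauchy hr (hf.mono (hsub y hy)) fun z hz => hM z (hsub y hy hz)

/-- **Increments at distance `O(1/r)`.** If the holomorphic functions `X_ν` converge uniformly to `H` on
`ball t₀ ρ`, then `r (X(t + ξ/r) - X(t)) → dH(t*) ξ*` for `t → t*`, `ξ → ξ*`, `r → ∞`.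

Proof. It is enough to treat each coordinate of `X`, `H` in `ℂ` (`tendsto_pi_nhds`). The functions
`G_m = X (φ m) - H` satisfy `|G_m| ≤ ε_m → 0` on `ball t₀ ρ`; by the Cauchy estimate
(the Schwarz lemma on complex lines, as in the private `GS.comp_lip`,
`Complex.norm_deriv_le_of_forall_mem_sphere_norm_le`) they are Lipschitz with constant `4 ε_m/(ρ - δ)` on
the convex ball `ball t₀ ((ρ + δ)/2)`, so `r |G_m(t + ξ/r) - G_m(t)| ≤ 4 ε_m ‖ξ‖/(ρ - δ) → 0`. And
`r (H(t + ξ/r) - H(t)) → dH(t*) ξ*`: `H` is analytic, hence strictly differentiable at `t*`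
(`DifferentiableOn.analyticAt`? for finite dimensional domains use
`DifferentiableOn.contDiffOn`/`ContDiffAt.hasStrictFDerivAt`, see how `GS/Comp.lean`, `comp_strict` does
it): `H(t + ξ/r) - H(t) - dH(t*)(ξ/r) = o(‖ξ/r‖)`. -/
theorem increments (t₀ : Ew d) {ρ δ : ℝ} (hδ : 0 < δ) (hδρ : δ < ρ) (r : ℕ → ℝ)
    (hr0 : ∀ ν, 0 < r ν) (hr : Tendsto r atTop atTop) (X : ℕ → Ew d → Fin n → ℂ)
    (hX : ∀ ν, DifferentiableOn ℂ (X ν) (ball t₀ ρ)) (H : Ew d → Fin n → ℂ)
    (hH : DifferentiableOn ℂ H (ball t₀ ρ))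
    (hXH : ∀ ε : ℝ, 0 < ε → ∀ᶠ ν in atTop, ∀ t ∈ ball t₀ ρ, ‖X ν t - H t‖ ≤ ε)
    (φ : ℕ → ℕ) (hφ : Tendsto φ atTop atTop) (t : ℕ → Ew d) (ht : ∀ m, ‖t m - t₀‖ ≤ δ)
    {ts : Ew d} (hts : Tendsto t atTop (𝓝 ts)) (ξ : ℕ → Ew d) {ξs : Ew d}
    (hξ : Tendsto ξ atTop (𝓝 ξs)) :
    Tendsto (fun m => (r (φ m) : ℂ) •
        (X (φ m) (t m + ((r (φ m) : ℂ)⁻¹) • ξ m) - X (φ m) (t m)))
      atTop (𝓝 (fderiv ℂ H ts ξs)) := by
  have htsm : ts ∈ ball t₀ ρ := by
    have h1 : Tendsto (fun m => ‖t m - t₀‖) atTop (𝓝 ‖ts - t₀‖) := (hts.sub_const t₀).norm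
    have h2 : ‖ts - t₀‖ ≤ δ := le_of_tendsto' h1 ht
    rw [mem_ball_iff_norm]
    linarith
  obtain ⟨η, hη, hηsub⟩ : ∃ η : ℝ, 0 < η ∧ ball ts (2 * η) ⊆ ball t₀ ρ := by
    obtain ⟨e, he, h⟩ := Metric.isOpen_iff.1 isOpen_ball ts htsm
    exact ⟨e / 2, by positivity, by rwa [mul_div_cancel₀ e two_ne_zero]⟩
  have hHd : DifferentiableAt ℂ H ts := hH.differentiableAt (isOpen_ball.mem_nhds htsm)
  rw [tendsto_pi_nhds]
  intro j
  have hHj : DifferentiableOn ℂ (fun s => H s j) (ball t₀ ρ) := fun s hs =>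
    (differentiableWithinAt_pi.1 (hH s hs)) j
  have hXj : ∀ ν, DifferentiableOn ℂ (fun s => X ν s j) (ball t₀ ρ) := fun ν s hs =>
    (differentiableWithinAt_pi.1 (hX ν s hs)) j
  have hfd : fderiv ℂ H ts ξs j = fderiv ℂ (fun s => H s j) ts ξs := by
    have h1 := hasFDerivAt_pi'.1 hHd.hasFDerivAt j
    rw [h1.fderiv]
    rfl
  rw [hfd]
  set L := fderiv ℂ (fun s => H s j) ts with hL
  have hrφ : Tendsto (fun m => r (φ m)) atTop atTop := hr.comp hφ
  have hinv : Tendsto (fun m => ((r (φ m) : ℂ))⁻¹ • ξ m) atTop (𝓝 0) := by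
    have h1 : Tendsto (fun m => ((r (φ m) : ℂ))⁻¹) atTop (𝓝 0) := by
      have h2 : Tendsto (fun m => (r (φ m))⁻¹) atTop (𝓝 0) := hrφ.inv_tendsto_atTop
      have h3 := (Complex.continuous_ofReal.tendsto (0 : ℝ)).comp h2
      simp only [Complex.ofReal_zero] at h3
      refine h3.congr fun m => ?_
      simp [Function.comp]
    have h4 := h1.smul hξ
    rwa [zero_smul] at h4
  have hb : Tendsto (fun m => t m + ((r (φ m) : ℂ))⁻¹ • ξ m) atTop (𝓝 ts) := by
    have h1 := hts.add hinv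
    rwa [add_zero] at h1
  rw [Metric.tendsto_nhds]
  intro ε hε
  set B : ℝ := ‖ξs‖ + 1 with hB
  have hB0 : 0 < B := by positivity
  have hBev : ∀ᶠ m in atTop, ‖ξ m‖ < B := by
    have h1 : Tendsto (fun m => ‖ξ m‖) atTop (𝓝 ‖ξs‖) := hξ.norm
    exact h1.eventually (gt_mem_nhds (by rw [hB]; linarith))
  obtain ⟨δ', hδ', hδ'sub, hstr⟩ := wl_strict hHj htsm (ε := ε / (4 * B)) (by positivity)
  have hmin : 0 < min δ' η := lt_min hδ' hη
  have hta : ∀ᶠ m in atTop, t m ∈ ball ts (min δ' η) := hts (ball_mem_nhds ts hmin)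
  have htb : ∀ᶠ m in atTop, t m + ((r (φ m) : ℂ))⁻¹ • ξ m ∈ ball ts (min δ' η) :=
    hb (ball_mem_nhds ts hmin)
  have hG : ∀ᶠ m in atTop, ∀ s ∈ ball t₀ ρ, ‖X (φ m) s - H s‖ ≤ ε * η / (8 * B) :=
    hφ.eventually (hXH (ε * η / (8 * B)) (by positivity))
  have hLev : ∀ᶠ m in atTop, ‖L (ξ m) - L ξs‖ < ε / 4 := by
    have h1 : Tendsto (fun m => L (ξ m)) atTop (𝓝 (L ξs)) := (L.continuous.tendsto ξs).comp hξ
    rw [Metric.tendsto_nhds] at h1
    have h2 := h1 (ε / 4) (by positivity)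
    simpa only [dist_eq_norm] using h2
  filter_upwards [hBev, hta, htb, hG, hLev] with m h1 h2 h3 h4 h5
  have hrm : 0 < r (φ m) := hr0 _
  have hrc : (r (φ m) : ℂ) ≠ 0 := by exact_mod_cast hrm.ne'
  have hnr : ‖(r (φ m) : ℂ)‖ = r (φ m) := by
    rw [Complex.norm_real, Real.norm_of_nonneg hrm.le]
  set a := t m with ha
  set b := t m + ((r (φ m) : ℂ))⁻¹ • ξ m with hbb
  have hba : b - a = ((r (φ m) : ℂ))⁻¹ • ξ m := by rw [hbb, ha, add_sub_cancel_left]
  have hnba : r (φ m) * ‖b - a‖ = ‖ξ m‖ := by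
    rw [hba, norm_smul, norm_inv, hnr, ← mul_assoc, mul_inv_cancel₀ hrm.ne', one_mul]
  have hLba : (r (φ m) : ℂ) * L (b - a) = L (ξ m) := by
    rw [hba, map_smul, smul_eq_mul, ← mul_assoc, mul_inv_cancel₀ hrc, one_mul]
  have hs1 := hstr a (ball_subset_ball (min_le_left _ _) h2) b
    (ball_subset_ball (min_le_left _ _) h3)
  have hs2 := wl_lip (f := fun s => X (φ m) s j - H s j) (x := ts) (r := η)
    (M := ε * η / (8 * B)) hη (((hXj (φ m)).sub hHj).mono hηsub)
    (fun y hy => ((norm_le_pi_norm (X (φ m) y - H y) j)).trans (h4 y (hηsub hy)))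
    a (ball_subset_ball (min_le_right _ _) h2) b (ball_subset_ball (min_le_right _ _) h3)
  have e1 : (r (φ m) : ℂ) * (H b j - H a j - L (b - a)) +
      (r (φ m) : ℂ) * ((X (φ m) b j - H b j) - (X (φ m) a j - H a j)) + (L (ξ m) - L ξs) =
      (r (φ m) : ℂ) * (X (φ m) b j - X (φ m) a j) - L ξs := by
    rw [← hLba]
    ring
  have n1 : ‖(r (φ m) : ℂ) * (H b j - H a j - L (b - a))‖ ≤ ε / 4 := by
    rw [norm_mul, hnr]
    calc r (φ m) * ‖H b j - H a j - L (b - a)‖ ≤ r (φ m) * (ε / (4 * B) * ‖b - a‖) :=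
          mul_le_mul_of_nonneg_left hs1 hrm.le
      _ = ε / (4 * B) * (r (φ m) * ‖b - a‖) := by ring
      _ ≤ ε / (4 * B) * B := by
          rw [hnba]
          exact mul_le_mul_of_nonneg_left h1.le (by positivity)
      _ = ε / 4 := by field_simp
  have n2 : ‖(r (φ m) : ℂ) * ((X (φ m) b j - H b j) - (X (φ m) a j - H a j))‖ ≤ ε / 4 := by
    rw [norm_mul, hnr]
    calc r (φ m) * ‖(X (φ m) b j - H b j) - (X (φ m) a j - H a j)‖
        ≤ r (φ m) * (2 * (ε * η / (8 * B)) / η * ‖b - a‖) :=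
          mul_le_mul_of_nonneg_left hs2 hrm.le
      _ = 2 * (ε * η / (8 * B)) / η * (r (φ m) * ‖b - a‖) := by ring
      _ ≤ 2 * (ε * η / (8 * B)) / η * B := by
          rw [hnba]
          exact mul_le_mul_of_nonneg_left h1.le (by positivity)
      _ = ε / 4 := by field_simp; ring
  change dist ((r (φ m) : ℂ) • (X (φ m) b j - X (φ m) a j)) (L ξs) < ε
  rw [dist_eq_norm, smul_eq_mul, ← e1]
  have t1 := norm_add_le ((r (φ m) : ℂ) * (H b j - H a j - L (b - a)) +
      (r (φ m) : ℂ) * ((X (φ m) b j - H b j) - (X (φ m) a j - H a j))) (L (ξ m) - L ξs)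
  have t2 := norm_add_le ((r (φ m) : ℂ) * (H b j - H a j - L (b - a)))
      ((r (φ m) : ℂ) * ((X (φ m) b j - H b j) - (X (φ m) a j - H a j)))
  linarith

end Pool.Agent.Lib.MP_209724_lc.GP
end

section

namespace Pool.Agent.Lib.MP_209724_lc.GP

open MvPolynomial

/-- **Extension of homomorphisms to an algebraically closed field** (a version of `MV.exists_ext` in
`MV/Ext.lean` for a homomorphism `φ` to any algebraically closed field `Ω`).

Proof. Let `S` be a finite set of generators of `A` and (`MV.ext_common_multiple`) `b ≠ 0` in `B` such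
that `b • x` is integral over `B` for all `x ∈ S`. Let `φ b ≠ 0`. Let `𝔭` be the kernel of `φ`, a prime
ideal of `B` not containing `b`. There is a valuation subring `V` of `L` with `B ⊆ V` and
`𝔭 = B ∩ (nonunits of V)` (`LocalSubring.exists_le_valuationSubring` or
`Ideal.image_subset_nonunits_valuationSubring` applied to the localization of `B` at `𝔭`, as in the
proof of `MV.exists_ext`). `b` is a unit of `V`, so `S ⊆ V` (`V` is integrally closed), `A ⊆ V`. The
residues of the elements of `A` are algebraic over the subfield `F` of the residue field `κ` generated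
by the residues of `B`, and `F` is the fraction field of `B / 𝔭`, which embeds in `Ω` by `φ`. Extend
`F → Ω` to the algebraic extension generated by the residues of `A` (`IsAlgClosed.lift`), and compose
`A → V → κ`. (Alternatively: localize, `B_b ⊆ A_b` is integral, lying over for `𝔭 B_b`, and
`IsAlgClosed.lift` for the integral domain extension `B_b / 𝔭 ⊆ A_b / 𝔓`.) The last claim: `A` is generated
by `S`, and for `x ∈ S` the element `ψ(b x) = φ(b) ψ(x)` is integral over `φ(B)`, `φ(b) ≠ 0`; the elements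
algebraic over the domain `φ(B)` are closed under sums and products. -/
theorem exists_ext_field {L : Type} [Field L] [Algebra ℂ L] (B A : Subalgebra ℂ L) (hBA : B ≤ A)
    (hA : A.FG) (halg : ∀ x ∈ A, IsAlgebraic B x) :
    ∃ b : B, b ≠ 0 ∧ ∀ (Ω : Type) [Field Ω] [Algebra ℂ Ω] [IsAlgClosed Ω] (φ : B →ₐ[ℂ] Ω), φ b ≠ 0 →
      ∃ ψ : A →ₐ[ℂ] Ω, (∀ x : B, ψ (Subalgebra.inclusion hBA x) = φ x) ∧
        ∀ x : A, IsAlgebraic φ.range (ψ x) := by
  classical
  obtain ⟨S, hS⟩ := hA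
  have hSA : ∀ x ∈ S, x ∈ A := fun x hx => by rw [← hS]; exact Algebra.subset_adjoin hx
  obtain ⟨b, hb, Hb⟩ := MV.ext_common_multiple B S fun x hx => halg x (hSA x hx)
  refine ⟨b, hb, fun Ω _ _ _ φ hφ => ?_⟩
  -- the valuation subring
  let 𝔭 : Ideal B := RingHom.ker (φ : B →+* Ω)
  have h𝔭 : 𝔭.IsPrime := RingHom.ker_isPrime _
  have hmem𝔭 : ∀ x : B, x ∈ 𝔭 ↔ φ x = 0 := fun x => RingHom.mem_ker
  have hunit : ∀ y : 𝔭.primeCompl, IsUnit ((B.val : B →+* L) y) := fun y => by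
    refine IsUnit.mk0 _ fun h0 => y.2 ?_
    have : (y : B) = 0 := Subtype.ext h0
    rw [this]
    exact 𝔭.zero_mem
  let f : Localization.AtPrime 𝔭 →+* L := IsLocalization.lift (M := 𝔭.primeCompl) hunit
  have hf : ∀ x : B, f (algebraMap B _ x) = x := fun x => IsLocalization.lift_eq hunit x
  obtain ⟨V, hV, hloc⟩ := IsLocalRing.exists_factor_valuationRing f
  have hBV : ∀ x : B, (x : L) ∈ V := fun x => by rw [← hf x]; exact hV _
  let κ := IsLocalRing.ResidueField V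
  let res : V →+* κ := IsLocalRing.residue V
  let jB : B →+* V := (B.val : B →+* L).codRestrict V.toSubring hBV
  have hres : ∀ x : V, res x = 0 ↔ x ∈ IsLocalRing.maximalIdeal V := fun x =>
    IsLocalRing.residue_eq_zero_iff x
  have hker : ∀ x : B, res (jB x) = 0 ↔ φ x = 0 := by
    intro x
    rw [hres, IsLocalRing.mem_maximalIdeal, mem_nonunits_iff, ← hmem𝔭]
    have e : jB x = (f.codRestrict V.toSubring hV) (algebraMap B _ x) :=
      Subtype.ext (hf x).symm
    rw [e]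
    constructor
    · intro h
      by_contra hx
      exact h ((IsLocalization.map_units (M := 𝔭.primeCompl) (Localization.AtPrime 𝔭) ⟨x, hx⟩).map _)
    · intro h hu
      have hu2 : IsUnit (algebraMap B (Localization.AtPrime 𝔭) x) := isUnit_of_map_unit _ _ hu
      rw [IsLocalization.AtPrime.isUnit_to_map_iff (Localization.AtPrime 𝔭) 𝔭] at hu2
      exact hu2 h
  -- the map of the range of `φ` to the residue field
  have hsurj : Function.Surjective (φ.rangeRestrict : B →+* φ.range) :=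
    φ.rangeRestrict_surjective
  let η : φ.range →+* κ := RingHom.liftOfSurjective (φ.rangeRestrict : B →+* φ.range) hsurj
    ⟨res.comp jB, fun x hx => by
      rw [RingHom.mem_ker] at hx ⊢
      refine (hker x).2 ?_
      exact congrArg Subtype.val hx⟩
  have hη : ∀ x : B, η (φ.rangeRestrict x) = res (jB x) := fun x =>
    RingHom.liftOfRightInverse_comp_apply _ _ _ _ x
  have hηinj : Function.Injective η := by
    rw [injective_iff_map_eq_zero]
    intro y hy
    obtain ⟨x, rfl⟩ := φ.rangeRestrict_surjective y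
    rw [hη, hker] at hy
    exact Subtype.ext hy
  let _ : Algebra φ.range κ := η.toAlgebra
  have halgη : ∀ y, algebraMap φ.range κ y = η y := fun _ => rfl
  have : Module.IsTorsionFree φ.range κ :=
    Module.isTorsionFree_iff_algebraMap_injective.mpr hηinj
  -- residues
  have hrb : res (jB b) ≠ 0 := fun h => hφ ((hker b).1 h)
  have hvb : V.valuation (b : L) = 1 := by
    refine le_antisymm ((V.valuation_le_one_iff _).2 (hBV b)) ?_
    by_contra hlt
    apply hrb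
    rw [hres, IsLocalRing.mem_maximalIdeal, mem_nonunits_iff]
    intro hu
    have h1 : V.valuation (b : L) = 1 := (V.valuation_eq_one_iff (jB b)).1 hu
    exact hlt h1.ge
  have hgen : ∀ x ∈ S, ∃ hx : x ∈ V, IsAlgebraic φ.range (res ⟨x, hx⟩) := by
    intro x hx
    obtain ⟨p, hp, hpx⟩ := Hb x hx
    have hint : IsIntegral V ((b : L) * x) := by
      refine ⟨p.map jB, hp.map _, ?_⟩
      rw [Polynomial.eval₂_map]
      exact hpx
    have hmem : (b : L) * x ∈ V := by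
      obtain ⟨y, hy⟩ := IsIntegrallyClosed.isIntegral_iff.1 hint
      rw [← hy]
      exact y.2
    have hxV : x ∈ V := by
      rw [← V.valuation_le_one_iff] at hmem ⊢
      rwa [map_mul, hvb, one_mul] at hmem
    refine ⟨hxV, ?_⟩
    have hev : (p.map jB).eval (⟨(b : L) * x, hmem⟩ : V) = 0 := by
      apply Subtype.ext
      rw [Polynomial.eval_map, ZeroMemClass.coe_zero]
      have e : ((Polynomial.eval₂ jB (⟨(b : L) * x, hmem⟩ : V) p : V) : L) =
          V.subtype (Polynomial.eval₂ jB (⟨(b : L) * x, hmem⟩ : V) p) := rfl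
      rw [e, Polynomial.hom_eval₂]
      exact hpx
    have hint2 : IsIntegral φ.range (res ⟨(b : L) * x, hmem⟩) := by
      refine ⟨p.map (φ.rangeRestrict : B →+* φ.range), hp.map _, ?_⟩
      rw [Polynomial.eval₂_map]
      have e1 : (algebraMap φ.range κ).comp (φ.rangeRestrict : B →+* φ.range) = res.comp jB :=
        RingHom.ext fun y => hη y
      rw [e1, ← Polynomial.hom_eval₂, ← Polynomial.eval_map, hev, map_zero]
    have hmul : res ⟨(b : L) * x, hmem⟩ = φ.rangeRestrict b • res ⟨x, hxV⟩ := by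
      rw [Algebra.smul_def, halgη, hη, ← map_mul]
      rfl
    rw [hmul] at hint2
    have hb0 : φ.rangeRestrict b ∈ nonZeroDivisors φ.range := by
      rw [mem_nonZeroDivisors_iff_ne_zero]
      intro h
      exact hφ (congrArg Subtype.val h)
    exact IsAlgebraic.of_smul hb0 hint2.isAlgebraic
  have hall : ∀ x ∈ A, ∃ hx : x ∈ V, IsAlgebraic φ.range (res ⟨x, hx⟩) := by
    intro x hx
    rw [← hS] at hx
    induction hx using Algebra.adjoin_induction with
    | mem x hx => exact hgen x hx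
    | algebraMap c =>
      refine ⟨hBV (algebraMap ℂ B c), ?_⟩
      have e : res ⟨algebraMap ℂ L c, hBV (algebraMap ℂ B c)⟩ =
          algebraMap φ.range κ (φ.rangeRestrict (algebraMap ℂ B c)) := by
        rw [halgη, hη]
        rfl
      rw [e]
      exact isAlgebraic_algebraMap _
    | add x y _ _ hx hy =>
      obtain ⟨hx, hx'⟩ := hx
      obtain ⟨hy, hy'⟩ := hy
      refine ⟨V.add_mem _ _ hx hy, ?_⟩
      have e : res ⟨x + y, V.add_mem _ _ hx hy⟩ = res ⟨x, hx⟩ + res ⟨y, hy⟩ := by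
        rw [← map_add]
        rfl
      rw [e]
      exact hx'.add hy'
    | mul x y _ _ hx hy =>
      obtain ⟨hx, hx'⟩ := hx
      obtain ⟨hy, hy'⟩ := hy
      refine ⟨V.mul_mem _ _ hx hy, ?_⟩
      have e : res ⟨x * y, V.mul_mem _ _ hx hy⟩ = res ⟨x, hx⟩ * res ⟨y, hy⟩ := by
        rw [← map_mul]
        rfl
      rw [e]
      exact hx'.mul hy'
  -- the homomorphism
  let jA : A →+* V := (A.val : A →+* L).codRestrict V.toSubring fun x => (hall x x.2).1
  let ρ : A →+* Subalgebra.algebraicClosure φ.range κ :=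
    (res.comp jA).codRestrict (Subalgebra.algebraicClosure φ.range κ) fun x => (hall x x.2).2
  let Λ : Subalgebra.algebraicClosure φ.range κ →ₐ[φ.range] Ω := IsAlgClosed.lift
  have key : ∀ x : B, Λ (ρ (Subalgebra.inclusion hBA x)) = φ x := by
    intro x
    have e : ρ (Subalgebra.inclusion hBA x) =
        algebraMap φ.range (Subalgebra.algebraicClosure φ.range κ) (φ.rangeRestrict x) := by
      apply Subtype.ext
      exact (hη x).symm
    rw [e, AlgHom.commutes]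
    rfl
  let ψ : A →ₐ[ℂ] Ω := { (Λ : _ →+* Ω).comp ρ with
    commutes' := fun c => by
      have h1 := key (algebraMap ℂ B c)
      rw [AlgHom.commutes] at h1
      exact h1.trans (φ.commutes c) }
  refine ⟨ψ, key, fun x => ?_⟩
  have h1 : IsAlgebraic φ.range (ρ x) := Algebra.IsAlgebraic.isAlgebraic _
  exact h1.algHom Λ

end Pool.Agent.Lib.MP_209724_lc.GP
end

section

namespace Pool.Agent.Lib.MP_209724_lc.GP

open MvPolynomial Filter Topology Metric Set
open GC (prj)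
open MV (lead)

variable {n d : ℕ}

/-- A nonzero element of a domain which is algebraic over `ℂ[ζ]` divides a nonzero element of `ℂ[ζ]`. -/
private theorem low_beta {d : ℕ} {L : Type} [Field L] [Algebra ℂ L] (ζ : Fin d → L)
    (B : Subalgebra ℂ L) (hζB : ∀ j, ζ j ∈ B)
    (halg : ∀ y ∈ B, IsAlgebraic (Algebra.adjoin ℂ (Set.range ζ)) y) (b : B) (hb : b ≠ 0) :
    ∃ β : MvPolynomial (Fin d) ℂ, β ≠ 0 ∧ b ∣ aeval (fun j => (⟨ζ j, hζB j⟩ : B)) β := by
  set R := Algebra.adjoin ℂ (Set.range ζ) with hR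
  have hRB : R ≤ B := by
    apply Algebra.adjoin_le
    rintro _ ⟨j, rfl⟩
    exact hζB j
  let algB : Algebra R B := (Subalgebra.inclusion hRB).toRingHom.toAlgebra
  have hbalg : IsAlgebraic R b := by
    refine (halg b b.2).of_ringHom_of_comp_eq (RingHom.id R) (B.val : B →+* L)
      Function.surjective_id Subtype.val_injective ?_
    ext r
    rfl
  obtain ⟨r, hr, hdvd⟩ := hbalg.exists_nonzero_dvd (mem_nonZeroDivisors_of_ne_zero hb)
  have h1 : (r : L) ∈ (aeval ζ : MvPolynomial (Fin d) ℂ →ₐ[ℂ] L).range := by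
    rw [← Algebra.adjoin_range_eq_range_aeval]
    exact r.2
  obtain ⟨β', hβ'⟩ := h1
  have h2 : aeval (fun j => (⟨ζ j, hζB j⟩ : B)) β' = algebraMap R B r := by
    apply Subtype.val_injective
    have h3 := MvPolynomial.comp_aeval_apply (fun j => (⟨ζ j, hζB j⟩ : B)) B.val β'
    simp only [Subalgebra.coe_val] at h3
    exact h3.trans hβ'
  refine ⟨β', ?_, by rw [h2]; exact hdvd⟩
  intro h0
  rw [h0, map_zero] at h2
  apply hr
  apply Subalgebra.inclusion_injective hRB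
  rw [map_zero]
  exact h2.symm

/-- lower bound for a polynomial at `r v`, `v ∈ D`, real parameter -/
private theorem low_lower {τ : Type} [Fintype τ] (c : MvPolynomial τ ℂ) {D : Set (τ → ℂ)}
    (hD : IsCompact D) (hc : ∀ w ∈ D, eval w (lead c) ≠ 0) :
    ∃ δ : ℝ, 0 < δ ∧ ∀ᶠ r : ℝ in atTop, ∀ v ∈ D, δ ≤ ‖eval (fun j => (r : ℂ) * v j) c‖ := by
  set d := c.totalDegree with hd
  have hcont := MV.continuous_asymResc c d
  have hopen : IsOpen {p : ℂ × (τ → ℂ) | MV.asymResc c d p.1 p.2 ≠ 0} :=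
    isOpen_ne.preimage hcont
  obtain ⟨u, v, hu, hv, h0u, hDv, huv⟩ := generalized_tube_lemma (s := ({0} : Set ℂ))
    isCompact_singleton hD hopen (by
      rintro ⟨z, w⟩ ⟨hz, hw⟩
      rw [Set.mem_singleton_iff] at hz
      simp only at hz hw
      subst hz
      show MV.asymResc c d 0 w ≠ 0
      rw [MV.asymResc_zero]
      exact hc w hw)
  obtain ⟨r, hr, hru⟩ := Metric.nhds_basis_closedBall.mem_iff.1
    (hu.mem_nhds (h0u (Set.mem_singleton (0 : ℂ))))
  have hK : IsCompact (closedBall (0 : ℂ) r ×ˢ D) := (isCompact_closedBall 0 r).prod hD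
  obtain ⟨δ, hδ, hδ2⟩ : ∃ δ : ℝ, 0 < δ ∧ ∀ p ∈ closedBall (0 : ℂ) r ×ˢ D,
      δ ≤ ‖MV.asymResc c d p.1 p.2‖ := by
    rcases (closedBall (0 : ℂ) r ×ˢ D).eq_empty_or_nonempty with h | h
    · exact ⟨1, one_pos, fun p hp => by rw [h] at hp; exact absurd hp (Set.notMem_empty p)⟩
    · obtain ⟨p, hp, hp2⟩ := hK.exists_isMinOn h hcont.norm.continuousOn
      exact ⟨_, norm_pos_iff.2 (huv ⟨hru hp.1, hDv hp.2⟩), fun x hx => hp2 hx⟩
  refine ⟨δ, hδ, ?_⟩
  filter_upwards [eventually_ge_atTop 1, eventually_ge_atTop r⁻¹] with N hN1 hN2 w hw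
  have hN0' : (0 : ℝ) < N := by linarith
  have hN0 : (N : ℂ) ≠ 0 := by
    rw [Ne, Complex.ofReal_eq_zero]; exact hN0'.ne'
  rw [MV.eval_eq_asymResc c hd.symm hN0, norm_mul, norm_pow, Complex.norm_real, Real.norm_eq_abs,
    abs_of_pos hN0']
  have h1 : δ ≤ ‖MV.asymResc c d (N : ℂ)⁻¹ w‖ := by
    refine hδ2 ((N : ℂ)⁻¹, w) ⟨?_, hw⟩
    rw [mem_closedBall_zero_iff, norm_inv, Complex.norm_real, Real.norm_eq_abs, abs_of_pos hN0']
    exact inv_le_of_inv_le₀ hr hN2
  calc δ = 1 * δ := (one_mul δ).symm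
    _ ≤ N ^ d * ‖MV.asymResc c d (N : ℂ)⁻¹ w‖ :=
      mul_le_mul (one_le_pow₀ hN1) h1 hδ.le (by positivity)

/-- polynomial growth of polynomials -/
private theorem low_upper {τ : Type} [Fintype τ] (f : MvPolynomial τ ℂ) (R : ℝ) :
    ∃ C : ℕ, ∀ᶠ r : ℝ in atTop, ∀ x : τ → ℂ, ‖x‖ ≤ R * r → ‖eval x f‖ ≤ r ^ C := by
  induction f using MvPolynomial.induction_on with
  | C a =>
    refine ⟨1, ?_⟩
    filter_upwards [eventually_ge_atTop ‖a‖] with r hr x _
    rw [eval_C, pow_one]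
    exact hr
  | add p q hp hq =>
    obtain ⟨C₁, h₁⟩ := hp
    obtain ⟨C₂, h₂⟩ := hq
    refine ⟨max C₁ C₂ + 1, ?_⟩
    filter_upwards [h₁, h₂, eventually_ge_atTop 2] with r h1 h2 hr x hx
    have e1 : r ^ C₁ ≤ r ^ max C₁ C₂ := pow_le_pow_right₀ (by linarith) (le_max_left _ _)
    have e2 : r ^ C₂ ≤ r ^ max C₁ C₂ := pow_le_pow_right₀ (by linarith) (le_max_right _ _)
    have e3 : 0 ≤ r ^ max C₁ C₂ := by
      have : 0 ≤ r := by linarith
      positivity
    rw [map_add]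
    calc ‖eval x p + eval x q‖ ≤ ‖eval x p‖ + ‖eval x q‖ := norm_add_le _ _
      _ ≤ r ^ max C₁ C₂ + r ^ max C₁ C₂ := add_le_add ((h1 x hx).trans e1) ((h2 x hx).trans e2)
      _ ≤ r ^ (max C₁ C₂ + 1) := by rw [pow_succ]; nlinarith
  | mul_X p i hp =>
    obtain ⟨C₁, h₁⟩ := hp
    refine ⟨C₁ + 2, ?_⟩
    filter_upwards [h₁, eventually_ge_atTop 0, eventually_ge_atTop R] with r h1 hr0 hrR x hx
    rw [map_mul, eval_X, norm_mul, pow_add]
    have h2 : ‖x i‖ ≤ r ^ 2 := by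
      calc ‖x i‖ ≤ ‖x‖ := norm_le_pi_norm x i
        _ ≤ R * r := hx
        _ ≤ r * r := mul_le_mul_of_nonneg_right hrR hr0
        _ = r ^ 2 := by ring
    exact mul_le_mul (h1 x hx) h2 (norm_nonneg _) (by positivity)

/-- **Polynomial bounds for a coefficient near a generic direction.** `c` is a polynomial which does not
vanish identically on the variety `W` with generic point `ξ`, `Z x` are coordinates over which `W` is
algebraic.

Proof. Let `A = Algebra.adjoin ℂ (range ξ)`. As in the private lemmas `GS.sheet_beta` (`GS/Sheet.lean`)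
there are `N ≠ 0` in `ℂ[T_1, …, T_d]` and `a : MvPolynomial (Fin n) ℂ` with `N(ζ) = c(ξ) a(ξ)` (a nonzero
element of a domain algebraic over a subring divides a nonzero element of the subring:
`IsAlgebraic.exists_nonzero_dvd`; elements of `A` are `aeval ξ a`). So for `x` on `W`
`eval (Z x) N = eval x c * eval x a` (the polynomial
`aeval (fun j => ∑ i, C (Z j i) * X i) N - c * a` vanishes at `ξ`). Let `D` be compact, `lead N ≠ 0` on
`D`, `‖x‖ ≤ R r`, `Z x = r t`, `t ∈ D`. Then `‖eval (r t) N‖ ≥ c₁ r ^ (deg N) ≥ c₁` for large `r`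
(`MV.exists_lower_bound` in `MV/Asym.lean`, or the private `GS.sheet_lower` and its proof, or
`GC.as_lower`), and `‖eval x a‖, ‖eval x c‖ ≤ C₂ r ^ C₂'` (polynomial growth: e.g.
`‖eval x f‖ ≤ (∑ |coeff|) (1 + ‖x‖) ^ totalDegree`). For `C` large and `r` large the claim follows. -/
theorem coeff_bounds {L : Type} [Field L] [Algebra ℂ L] (ξ : Fin n → L) (Z : Fin d → Fin n → ℂ)
    (hind : AlgebraicIndependent ℂ fun j => ∑ i, algebraMap ℂ L (Z j i) * ξ i)
    (halg : ∀ i, IsAlgebraic (Algebra.adjoin ℂ (Set.range fun j => ∑ i, algebraMap ℂ L (Z j i) * ξ i))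
      (ξ i)) (c : MvPolynomial (Fin n) ℂ) (hc : aeval ξ c ≠ 0) :
    ∃ N : MvPolynomial (Fin d) ℂ, N ≠ 0 ∧ ∀ D : Set (Fin d → ℂ), IsCompact D →
      (∀ t ∈ D, eval t (lead N) ≠ 0) → ∀ R : ℝ, ∃ C : ℕ, ∀ᶠ r : ℝ in atTop,
        ∀ x : Fin n → ℂ, OnW ξ x → ‖x‖ ≤ R * r → ∀ t ∈ D, (∀ j, prj Z x j = r * t j) →
          (r ^ C)⁻¹ ≤ ‖eval x c‖ ∧ ‖eval x c‖ ≤ r ^ C := by
  classical
  set ζ : Fin d → L := fun j => ∑ i, algebraMap ℂ L (Z j i) * ξ i with hζ
  have hξ : ∀ i, ξ i ∈ Algebra.adjoin ℂ (Set.range ξ) := fun i =>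
    Algebra.subset_adjoin ⟨i, rfl⟩
  have hζA : ∀ j, ζ j ∈ Algebra.adjoin ℂ (Set.range ξ) := by
    intro j
    exact Subalgebra.sum_mem _ fun i _ => Subalgebra.mul_mem _ (Subalgebra.algebraMap_mem _ _) (hξ i)
  have halgA : ∀ y ∈ Algebra.adjoin ℂ (Set.range ξ),
      IsAlgebraic (Algebra.adjoin ℂ (Set.range ζ)) y := by
    intro y hy
    induction hy using Algebra.adjoin_induction with
    | mem y hy => obtain ⟨i, rfl⟩ := hy; exact halg i
    | algebraMap c =>
      have : algebraMap ℂ L c = algebraMap (Algebra.adjoin ℂ (Set.range ζ)) L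
          (algebraMap ℂ _ c) := rfl
      rw [this]
      exact isAlgebraic_algebraMap _
    | add a b _ _ ha hb => exact ha.add hb
    | mul a b _ _ ha hb => exact ha.mul hb
  have hcA : aeval ξ c ∈ Algebra.adjoin ℂ (Set.range ξ) := by
    rw [Algebra.adjoin_range_eq_range_aeval]
    exact ⟨c, rfl⟩
  obtain ⟨N, hN0, q, hq⟩ := low_beta ζ (Algebra.adjoin ℂ (Set.range ξ)) hζA halgA
    ⟨aeval ξ c, hcA⟩ (by
      intro h0
      exact hc (congrArg Subtype.val h0))
  -- the cofactor as a polynomial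
  obtain ⟨a, ha⟩ : ∃ a : MvPolynomial (Fin n) ℂ, aeval ξ a = (q : L) := by
    have h1 : (q : L) ∈ (aeval ξ : MvPolynomial (Fin n) ℂ →ₐ[ℂ] L).range := by
      rw [← Algebra.adjoin_range_eq_range_aeval]
      exact q.2
    obtain ⟨a, ha⟩ := h1
    exact ⟨a, ha⟩
  have hNζ : aeval ζ N = aeval ξ c * aeval ξ a := by
    have h3 := MvPolynomial.comp_aeval_apply
      (fun j => (⟨ζ j, hζA j⟩ : Algebra.adjoin ℂ (Set.range ξ)))
      (Algebra.adjoin ℂ (Set.range ξ)).val N
    simp only [Subalgebra.coe_val] at h3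
    rw [ha]
    rw [← h3, hq]
    rfl
  -- the identity on `W`
  have hW : ∀ x : Fin n → ℂ, OnW ξ x → eval (prj Z x) N = eval x c * eval x a := by
    intro x hx
    have h1 := hx (aeval (fun j => ∑ i, C (Z j i) * X i) N - c * a) (by
      rw [map_sub, map_mul, sub_eq_zero, ← hNζ]
      have h4 := MvPolynomial.comp_aeval_apply (fun j => ∑ i, C (Z j i) * X i)
        (aeval ξ : MvPolynomial (Fin n) ℂ →ₐ[ℂ] L) N
      rw [h4]
      congr 1
      congr 1
      funext j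
      rw [map_sum]
      refine Finset.sum_congr rfl fun i _ => ?_
      rw [map_mul, aeval_C, aeval_X])
    rw [map_sub, map_mul, sub_eq_zero] at h1
    rw [← h1]
    have h5 := MvPolynomial.comp_aeval_apply (fun j => ∑ i, C (Z j i) * X i)
      (aeval x : MvPolynomial (Fin n) ℂ →ₐ[ℂ] ℂ) N
    rw [MvPolynomial.aeval_eq_eval] at h5
    rw [h5, MvPolynomial.aeval_eq_eval]
    congr 2
    funext j
    unfold prj
    rw [map_sum]
    refine Finset.sum_congr rfl fun i _ => ?_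
    rw [map_mul, eval_C, eval_X]
  refine ⟨N, hN0, ?_⟩
  intro D hD hlead R
  obtain ⟨δ, hδ, hlow⟩ := low_lower N hD hlead
  obtain ⟨C₁, h₁⟩ := low_upper c R
  obtain ⟨C₂, h₂⟩ := low_upper a R
  refine ⟨max C₁ (C₂ + 1), ?_⟩
  filter_upwards [hlow, h₁, h₂, eventually_ge_atTop 1, eventually_ge_atTop δ⁻¹] with r hl h1 h2 hr1
    hrδ x hx hxR t ht hxt
  have hr0 : 0 < r := by linarith
  have hup := h1 x hxR
  have hua := h2 x hxR
  have hev : eval (prj Z x) N = eval (fun j => (r : ℂ) * t j) N := by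
    congr 2
    funext j
    exact hxt j
  have hl' := hl t ht
  rw [← hev, hW x hx, norm_mul] at hl'
  constructor
  · -- `δ ≤ ‖c‖ ‖a‖ ≤ ‖c‖ r ^ C₂`
    have h3 : δ ≤ ‖eval x c‖ * r ^ C₂ :=
      hl'.trans (mul_le_mul_of_nonneg_left hua (norm_nonneg _))
    have h4 : r⁻¹ ≤ δ := inv_le_of_inv_le₀ hδ hrδ
    have h5 : (r ^ (C₂ + 1))⁻¹ ≤ ‖eval x c‖ := by
      rw [inv_le_iff_one_le_mul₀ (by positivity)]
      calc (1 : ℝ) = r⁻¹ * r := (inv_mul_cancel₀ hr0.ne').symm
        _ ≤ δ * r := mul_le_mul_of_nonneg_right h4 hr0.le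
        _ ≤ (‖eval x c‖ * r ^ C₂) * r := mul_le_mul_of_nonneg_right h3 hr0.le
        _ = ‖eval x c‖ * r ^ (C₂ + 1) := by ring
    refine le_trans ?_ h5
    apply inv_anti₀ (by positivity)
    exact pow_le_pow_right₀ hr1 (le_max_right _ _)
  · exact hup.trans (pow_le_pow_right₀ hr1 (le_max_left _ _))

end Pool.Agent.Lib.MP_209724_lc.GP
end
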