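import Mathlib
import Pool.Agent.Lib.MP_209724_lc.GS.CurveB
import Pool.Agent.Lib.MP_209724_lc.GS.Comp
import Pool.Agent.Lib.MP_209724_lc.MV.CoreA
import Pool.Agent.Lib.MP_209724_lc.GS.QLin
import Pool.Agent.Lib.MP_209724_lc.GP.Low

section

namespace Pool.Agent.Lib.MP_209724_lc.GP

open MvPolynomial Filter Topology Metric Set
open GC (prj)
open GS (Ew)

variable {n d k : ℕ}

/-- **Compact pieces of the family.** Proof. The set is closed in
`{t | t ∈ K} ×ˢ univ`, on which `x` is continuous: it is the intersection of `K ×ˢ univ` with the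
preimages of closed sets under maps continuous on `K ×ˢ univ` (for each `f` in the kernel of `aeval`,
`(t, u) ↦ eval (Sum.elim (x t) (exp ∘ u)) f`, and `(t, u) ↦ ‖x t - u - c‖`); and it is bounded because
`‖u‖ ≤ ‖x t‖ + ‖c‖ + C` and `x` is bounded on `K`. So it is a closed subset of the compact set
`K ×ˢ closedBall 0 B`. -/
theorem fam_compact {L : Type} [Field L] [Algebra ℂ L] (ξ υ : Fin n → L) (x : Ew d → Fin n → ℂ)
    {t₀ : Ew d} {ρ : ℝ} (hx : ContinuousOn x (ball t₀ ρ)) {K : Set (Ew d)} (hK : IsCompact K)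
    (hKb : K ⊆ ball t₀ ρ) (c : Fin n → ℂ) (C : ℝ) :
    IsCompact {v | v ∈ Fam ξ υ x (ball t₀ ρ) ∧ v.1 ∈ K ∧ ‖x v.1 - v.2 - c‖ ≤ C} := by
  have hxK : ContinuousOn x K := hx.mono hKb
  obtain ⟨M, hM⟩ := hK.exists_bound_of_continuousOn hxK
  set T : Set (Ew d × (Fin n → ℂ)) := K ×ˢ (univ : Set (Fin n → ℂ)) with hT
  have hTc : IsClosed T := hK.isClosed.prod isClosed_univ
  have hx1 : ContinuousOn (fun v : Ew d × (Fin n → ℂ) => x v.1) T :=
    hxK.comp continuous_fst.continuousOn fun v hv => hv.1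
  have hel : ContinuousOn (fun v : Ew d × (Fin n → ℂ) =>
      (Sum.elim (x v.1) (fun i => Complex.exp (v.2 i)) : Fin n ⊕ Fin n → ℂ)) T := by
    rw [continuousOn_pi]
    rintro (i | i)
    · simp only [Sum.elim_inl]
      exact (continuous_apply i).comp_continuousOn hx1
    · simp only [Sum.elim_inr]
      exact (Complex.continuous_exp.comp ((continuous_apply i).comp continuous_snd)).continuousOn
  let G : MvPolynomial (Fin n ⊕ Fin n) ℂ → Set (Ew d × (Fin n → ℂ)) := fun f =>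
    T ∩ (fun v : Ew d × (Fin n → ℂ) =>
      eval (Sum.elim (x v.1) (fun i => Complex.exp (v.2 i))) f) ⁻¹' {0}
  have h1 : ∀ f : MvPolynomial (Fin n ⊕ Fin n) ℂ, IsClosed (G f) := by
    intro f
    refine ContinuousOn.preimage_isClosed_of_isClosed ?_ hTc isClosed_singleton
    exact (MvPolynomial.continuous_eval f).comp_continuousOn hel
  have h2 : IsClosed (T ∩ (fun v : Ew d × (Fin n → ℂ) => ‖x v.1 - v.2 - c‖) ⁻¹' Iic C) := by
    refine ContinuousOn.preimage_isClosed_of_isClosed ?_ hTc isClosed_Iic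
    exact ((hx1.sub continuous_snd.continuousOn).sub continuousOn_const).norm
  have h3 : IsClosed (⋂ (f : MvPolynomial (Fin n ⊕ Fin n) ℂ)
      (_ : aeval (Sum.elim ξ υ) f = 0), G f) := by
    apply isClosed_iInter
    intro f
    apply isClosed_iInter
    intro _
    exact h1 f
  have heq : {v | v ∈ Fam ξ υ x (ball t₀ ρ) ∧ v.1 ∈ K ∧ ‖x v.1 - v.2 - c‖ ≤ C} =
      (⋂ (f : MvPolynomial (Fin n ⊕ Fin n) ℂ) (_ : aeval (Sum.elim ξ υ) f = 0), G f) ∩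
      (T ∩ (fun v : Ew d × (Fin n → ℂ) => ‖x v.1 - v.2 - c‖) ⁻¹' Iic C) := by
    ext v
    rw [mem_inter_iff, mem_iInter₂]
    constructor
    · rintro ⟨hv, hvK, hvC⟩
      have hvT : v ∈ T := ⟨hvK, mem_univ _⟩
      exact ⟨fun f hf => ⟨hvT, hv.2 f hf⟩, hvT, hvC⟩
    · rintro ⟨hf, hvT, hvC⟩
      exact ⟨⟨hKb hvT.1, fun f hf0 => (hf f hf0).2⟩, hvT.1, hvC⟩
  have hclosed : IsClosed {v | v ∈ Fam ξ υ x (ball t₀ ρ) ∧ v.1 ∈ K ∧ ‖x v.1 - v.2 - c‖ ≤ C} := by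
    rw [heq]
    exact h3.inter h2
  have hcb : IsCompact (closedBall (0 : Fin n → ℂ) (M + C + ‖c‖)) := isCompact_closedBall _ _
  have hprod : IsCompact (K ×ˢ closedBall (0 : Fin n → ℂ) (M + C + ‖c‖)) := hK.prod hcb
  refine hprod.of_isClosed_subset hclosed ?_
  rintro v ⟨hv, hvK, hvC⟩
  refine ⟨hvK, ?_⟩
  rw [mem_closedBall_zero_iff]
  have e : v.2 = x v.1 - (x v.1 - v.2 - c) - c := by abel
  calc ‖v.2‖ = ‖x v.1 - (x v.1 - v.2 - c) - c‖ := by rw [← e]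
    _ ≤ ‖x v.1 - (x v.1 - v.2 - c)‖ + ‖c‖ := norm_sub_le _ _
    _ ≤ ‖x v.1‖ + ‖x v.1 - v.2 - c‖ + ‖c‖ := by
        gcongr
        exact norm_sub_le _ _
    _ ≤ M + C + ‖c‖ := by
        gcongr
        exact hM v.1 hvK

end Pool.Agent.Lib.MP_209724_lc.GP
end

section

namespace Pool.Agent.Lib.MP_209724_lc.GP

open Filter Topology Metric Set
open GS (Ew)

variable {n d : ℕ}

/-- the Euclidean norm of the vector of `m`-th powers -/
private noncomputable def Nm (m : ℕ) (w : Fin n → ℂ) : ℝ :=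
  ‖(WithLp.toLp 2 (fun i => w i ^ m) : Ew n)‖

private lemma le_Nm (hn : 0 < n) (m : ℕ) (w : Fin n → ℂ) : ‖w‖ ^ m ≤ Nm m w := by
  have hne : Nonempty (Fin n) := ⟨⟨0, hn⟩⟩
  obtain ⟨i, hi⟩ := Finite.exists_max fun j => ‖w j‖
  have h1 : ‖w‖ ≤ ‖w i‖ := (pi_norm_le_iff_of_nonneg (norm_nonneg _)).2 hi
  have h2 : ‖(WithLp.toLp 2 (fun i => w i ^ m) : Ew n) i‖ ≤ Nm m w :=
    PiLp.norm_apply_le (WithLp.toLp 2 (fun i => w i ^ m) : Ew n) i
  calc ‖w‖ ^ m ≤ ‖w i‖ ^ m := pow_le_pow_left₀ (norm_nonneg _) h1 m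
    _ = ‖w i ^ m‖ := (norm_pow _ _).symm
    _ ≤ Nm m w := h2

private lemma Nm_le (m : ℕ) (w : Fin n → ℂ) : Nm m w ≤ √n * ‖w‖ ^ m := by
  unfold Nm
  rw [EuclideanSpace.norm_eq]
  have h1 : ∑ i : Fin n, ‖(WithLp.toLp 2 (fun i => w i ^ m) : Ew n) i‖ ^ 2 ≤
      (n : ℝ) * (‖w‖ ^ m) ^ 2 := by
    calc ∑ i : Fin n, ‖(WithLp.toLp 2 (fun i => w i ^ m) : Ew n) i‖ ^ 2
        ≤ ∑ _i : Fin n, (‖w‖ ^ m) ^ 2 := by
          refine Finset.sum_le_sum fun i _ => ?_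
          refine pow_le_pow_left₀ (norm_nonneg _) ?_ 2
          change ‖w i ^ m‖ ≤ ‖w‖ ^ m
          rw [norm_pow]
          exact pow_le_pow_left₀ (norm_nonneg _) (norm_le_pi_norm w i) m
      _ = (n : ℝ) * (‖w‖ ^ m) ^ 2 := by simp
  calc √(∑ i : Fin n, ‖(WithLp.toLp 2 (fun i => w i ^ m) : Ew n) i‖ ^ 2)
      ≤ √((n : ℝ) * (‖w‖ ^ m) ^ 2) := Real.sqrt_le_sqrt h1
    _ = √n * ‖w‖ ^ m := by
        rw [Real.sqrt_mul (Nat.cast_nonneg n), Real.sqrt_sq (by positivity)]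

/-- **Approximate openness of `F` at `v`.** `K` is the set of `v' ∈ M` with `‖v'.1 - v.1‖ ≤ ρ`,
`‖F v' - F v‖ ≤ 2 c₁`; over the sphere `‖v'.1 - v.1‖ = ρ` one has `‖F v' - F v‖ > 2 c₁`, and at the points
of `M` over the open ball where `p ≠ 0` there are local parametrizations. Then every `c` at distance
`≤ c₁/2` from `F v` is approximated by the values of `F` on `K ∩ {p ≠ 0}`.

Proof. If `n = 0` or `‖F v - c‖ ≤ η` take `v' = v`. Otherwise let `K' = {v' ∈ K | η ≤ ‖F v' - c‖}`,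
compact, `v ∈ K'`. For `w : Fin n → ℂ` and a positive integer `m` let
`N_m(w) = ‖toLp 2 (fun i => w i ^ m)‖` (Euclidean norm), so `‖w‖ ^ m ≤ N_m(w) ≤ √n * ‖w‖ ^ m` (sup norm
on the left and right). Choose `m` so large that
`|p(v)| / (√n (c₁/2)^m) > 2 P / c₁ ^ m`, where `P ≥ |p|` on `K` (i.e. `2 ^ m > 2 √n P / |p(v)|`), and
`ε > 0` so small that `exp(ε ‖ζ‖²) ≤ 2` on `K`. Let `v* ∈ K'` be a maximum of
`Ψ(v') = |p v'| exp(ε ‖ζ v'‖²) / N_m(F v' - c)` on `K'`. `Ψ(v*) ≥ Ψ(v) > 0` so `p v* ≠ 0`. If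
`‖F v* - c‖ = η` we are done with `v' = v*`. Otherwise `‖F v* - c‖ > η`. Moreover
`‖F v* - F v‖ < 2 c₁`: otherwise `‖F v* - c‖ ≥ 2 c₁ - c₁/2 ≥ c₁` and
`Ψ(v*) ≤ 2 P / c₁ ^ m < |p v| / (√n (c₁/2)^m) ≤ Ψ(v)`. And `‖v*.1 - v.1‖ < ρ` by `hsph`. So a
neighbourhood of `ζ v*` in the chart `τ` at `v*` is mapped into `K'` (continuity of `τ`,
`s ↦ F(τ s)`), `ζ (τ s) = s`, and `|p(τ s)| exp(ε ‖s‖²) / N_m(F(τ s) - c)` has a local maximum at
`s = ζ v*`, in contradiction to `GS.no_local_max` for the holomorphic maps `s ↦ p(τ s)` and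
`s ↦ toLp 2 (fun i => (F(τ s) i - c i) ^ m)`, the second being nonzero at `ζ v*`. -/
theorem max_step {M : Set (Ew d × (Fin n → ℂ))} {F : Ew d × (Fin n → ℂ) → Fin n → ℂ}
    {p : Ew d × (Fin n → ℂ) → ℂ} {ζ : Ew d × (Fin n → ℂ) → Ew n} {v : Ew d × (Fin n → ℂ)}
    (hv : v ∈ M) (hp : p v ≠ 0) {ρ c₁ : ℝ} (hρ : 0 < ρ) (hc₁ : 0 < c₁)
    (hK : IsCompact {v' | v' ∈ M ∧ ‖v'.1 - v.1‖ ≤ ρ ∧ ‖F v' - F v‖ ≤ 2 * c₁})
    (hF : ContinuousOn F {v' | v' ∈ M ∧ ‖v'.1 - v.1‖ ≤ ρ ∧ ‖F v' - F v‖ ≤ 2 * c₁})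
    (hpc : ContinuousOn p {v' | v' ∈ M ∧ ‖v'.1 - v.1‖ ≤ ρ ∧ ‖F v' - F v‖ ≤ 2 * c₁})
    (hζ : ContinuousOn ζ {v' | v' ∈ M ∧ ‖v'.1 - v.1‖ ≤ ρ ∧ ‖F v' - F v‖ ≤ 2 * c₁})
    (hsph : ∀ v' ∈ M, ‖v'.1 - v.1‖ = ρ → 2 * c₁ < ‖F v' - F v‖)
    (hchart : ∀ v' ∈ M, ‖v'.1 - v.1‖ < ρ → p v' ≠ 0 → HasChart M F p ζ v')
    {c : Fin n → ℂ} (hc : ‖c - F v‖ ≤ c₁ / 2) {η : ℝ} (hη : 0 < η) :
    ∃ v' ∈ M, ‖v'.1 - v.1‖ ≤ ρ ∧ ‖F v' - c‖ ≤ η ∧ p v' ≠ 0 := by
  classical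
  set K : Set (Ew d × (Fin n → ℂ)) :=
    {v' | v' ∈ M ∧ ‖v'.1 - v.1‖ ≤ ρ ∧ ‖F v' - F v‖ ≤ 2 * c₁} with hKdef
  have hvK : v ∈ K := ⟨hv, by rw [sub_self, norm_zero]; exact hρ.le, by
    rw [sub_self, norm_zero]; positivity⟩
  by_cases hsmall : ‖F v - c‖ ≤ η
  · exact ⟨v, hv, hvK.2.1, hsmall, hp⟩
  push Not at hsmall
  have hn : 0 < n := by
    rcases Nat.eq_zero_or_pos n with h0 | h0
    · exfalso
      subst h0
      have : F v - c = 0 := Subsingleton.elim _ _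
      rw [this, norm_zero] at hsmall
      linarith
    · exact h0
  have hsn : 0 < √(n : ℝ) := Real.sqrt_pos.2 (by exact_mod_cast hn)
  obtain ⟨P, hP⟩ := hK.exists_bound_of_continuousOn hpc
  obtain ⟨R, hR⟩ := hK.exists_bound_of_continuousOn hζ
  have hpv : 0 < ‖p v‖ := norm_pos_iff.2 hp
  have hP0 : 0 < P := hpv.trans_le (hP v hvK)
  -- the exponent
  obtain ⟨m, hm⟩ : ∃ m : ℕ, 2 * √(n : ℝ) * P / ‖p v‖ < 2 ^ m :=
    pow_unbounded_of_one_lt _ one_lt_two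
  rw [div_lt_iff₀ hpv] at hm
  -- the weight
  have hR0 : 0 < R ^ 2 + 1 := by positivity
  set ε : ℝ := Real.log 2 / (R ^ 2 + 1) with hεdef
  have hε : 0 < ε := div_pos (Real.log_pos one_lt_two) hR0
  have hexp : ∀ v' ∈ K, Real.exp (ε * ‖ζ v'‖ ^ 2) ≤ 2 := by
    intro v' hv'
    have h1 : ‖ζ v'‖ ^ 2 ≤ R ^ 2 + 1 := by
      have := pow_le_pow_left₀ (norm_nonneg _) (hR v' hv') 2
      linarith
    have h2 : ε * ‖ζ v'‖ ^ 2 ≤ Real.log 2 := by
      calc ε * ‖ζ v'‖ ^ 2 ≤ ε * (R ^ 2 + 1) := mul_le_mul_of_nonneg_left h1 hε.le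
        _ = Real.log 2 := by rw [hεdef]; field_simp
    calc Real.exp (ε * ‖ζ v'‖ ^ 2) ≤ Real.exp (Real.log 2) := Real.exp_le_exp.2 h2
      _ = 2 := Real.exp_log two_pos
  -- the compact set
  have hg : ContinuousOn (fun v' => ‖F v' - c‖) K := (hF.sub continuousOn_const).norm
  set K' : Set (Ew d × (Fin n → ℂ)) := K ∩ (fun v' => ‖F v' - c‖) ⁻¹' Ici η with hK'def
  have hK'K : K' ⊆ K := inter_subset_left
  have hK'c : IsCompact K' :=
    hK.of_isClosed_subset (hg.preimage_isClosed_of_isClosed hK.isClosed isClosed_Ici) hK'K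
  have hvK' : v ∈ K' := ⟨hvK, hsmall.le⟩
  have hNpos : ∀ v' ∈ K', 0 < Nm m (F v' - c) := by
    intro v' hv'
    have h1 : 0 < ‖F v' - c‖ := hη.trans_le hv'.2
    exact (pow_pos h1 m).trans_le (le_Nm hn m _)
  have hNcont : ContinuousOn (fun v' => Nm m (F v' - c)) K' := by
    have h1 : Continuous (fun w : Fin n → ℂ => Nm m w) := by
      unfold Nm
      refine Continuous.norm ?_
      refine (PiLp.continuous_toLp 2 (fun _ : Fin n => ℂ)).comp ?_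
      fun_prop
    exact h1.comp_continuousOn ((hF.mono hK'K).sub continuousOn_const)
  have hΨ : ContinuousOn (fun v' => ‖p v'‖ * Real.exp (ε * ‖ζ v'‖ ^ 2) / Nm m (F v' - c)) K' := by
    refine ((hpc.mono hK'K).norm.mul ?_).div hNcont fun x hx => (hNpos x hx).ne'
    exact Real.continuous_exp.comp_continuousOn
      (continuousOn_const.mul ((hζ.mono hK'K).norm.pow 2))
  obtain ⟨w, hw, hmax⟩ := hK'c.exists_isMaxOn ⟨v, hvK'⟩ hΨ
  have hmul : ∀ y ∈ K', ‖p y‖ * Real.exp (ε * ‖ζ y‖ ^ 2) * Nm m (F w - c) ≤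
      ‖p w‖ * Real.exp (ε * ‖ζ w‖ ^ 2) * Nm m (F y - c) := by
    intro y hy
    have h1 := hmax hy
    simp only [Set.mem_ofPred_eq] at h1
    rwa [div_le_div_iff₀ (hNpos y hy) (hNpos w hw)] at h1
  have hpw : p w ≠ 0 := by
    intro h0
    have h1 := hmul v hvK'
    rw [h0, norm_zero, zero_mul, zero_mul] at h1
    have h2 : 0 < ‖p v‖ * Real.exp (ε * ‖ζ v‖ ^ 2) * Nm m (F w - c) := by
      have := hNpos w hw
      positivity
    linarith
  by_cases hwη : ‖F w - c‖ ≤ η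
  · exact ⟨w, hw.1.1, hw.1.2.1, hwη, hpw⟩
  push Not at hwη
  exfalso
  have hw2 : ‖F w - F v‖ < 2 * c₁ := by
    by_contra hcon
    push Not at hcon
    have h1 : c₁ ≤ ‖F w - c‖ := by
      have h2 : ‖F w - F v‖ ≤ ‖F w - c‖ + ‖c - F v‖ := by
        have := norm_add_le (F w - c) (c - F v)
        rwa [sub_add_sub_cancel] at this
      linarith
    have h3 := hmul v hvK'
    have h4 : c₁ ^ m ≤ Nm m (F w - c) :=
      (pow_le_pow_left₀ hc₁.le h1 m).trans (le_Nm hn m _)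
    have h5 : Nm m (F v - c) ≤ √n * (c₁ / 2) ^ m := by
      refine (Nm_le m _).trans (mul_le_mul_of_nonneg_left ?_ hsn.le)
      refine pow_le_pow_left₀ (norm_nonneg _) ?_ m
      rw [norm_sub_rev]
      exact hc
    have h6 : ‖p v‖ * c₁ ^ m ≤ ‖p v‖ * Real.exp (ε * ‖ζ v‖ ^ 2) * Nm m (F w - c) := by
      have h7 : 1 ≤ Real.exp (ε * ‖ζ v‖ ^ 2) := Real.one_le_exp (by positivity)
      have h8 : ‖p v‖ ≤ ‖p v‖ * Real.exp (ε * ‖ζ v‖ ^ 2) := le_mul_of_one_le_right hpv.le h7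
      exact mul_le_mul h8 h4 (by positivity) (by positivity)
    have h9 : ‖p w‖ * Real.exp (ε * ‖ζ w‖ ^ 2) * Nm m (F v - c) ≤
        P * 2 * (√n * (c₁ / 2) ^ m) := by
      have h10 : ‖p w‖ * Real.exp (ε * ‖ζ w‖ ^ 2) ≤ P * 2 :=
        mul_le_mul (hP w hw.1) (hexp w hw.1) (Real.exp_pos _).le hP0.le
      exact mul_le_mul h10 h5 (hNpos v hvK').le (by positivity)
    have h11 : ‖p v‖ * c₁ ^ m ≤ P * 2 * (√n * (c₁ / 2) ^ m) := h6.trans (h3.trans h9)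
    have h12 : c₁ ^ m = 2 ^ m * (c₁ / 2) ^ m := by
      rw [← mul_pow]
      congr 1
      ring
    rw [h12] at h11
    have h13 : 0 < (c₁ / 2) ^ m := by positivity
    have h14 : (‖p v‖ * 2 ^ m) * (c₁ / 2) ^ m ≤ (2 * √(n : ℝ) * P) * (c₁ / 2) ^ m := by
      calc (‖p v‖ * 2 ^ m) * (c₁ / 2) ^ m = ‖p v‖ * (2 ^ m * (c₁ / 2) ^ m) := by ring
        _ ≤ _ := h11
        _ = _ := by ring
    have h15 := le_of_mul_le_mul_right h14 h13
    linarith [mul_comm ‖p v‖ ((2 : ℝ) ^ m)]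
  have hw1 : ‖w.1 - v.1‖ < ρ := by
    refine lt_of_le_of_ne hw.1.2.1 fun h0 => ?_
    exact absurd (hsph w hw.1.1 h0) (not_lt.2 hw2.le)
  obtain ⟨O, τ, hO, hwO, hτw, hτc, hτM, hFτ, hpτ⟩ := hchart w hw.1.1 hw1 hpw
  have hG : DifferentiableOn ℂ
      (fun s => (WithLp.toLp 2 (fun i => (F (τ s) - c) i ^ m) : Ew n)) O := by
    rw [differentiableOn_euclidean]
    intro i
    have h1 : DifferentiableOn ℂ (fun s => F (τ s) i) O := by
      have := differentiableOn_pi.1 hFτ i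
      exact this
    exact (h1.sub_const (c i)).pow m
  have hτat : ContinuousAt τ (ζ w) := hτc.continuousAt (hO.mem_nhds hwO)
  have hFat : ContinuousAt (fun s => F (τ s)) (ζ w) :=
    hFτ.continuousOn.continuousAt (hO.mem_nhds hwO)
  refine GS.no_local_max hO hG hpτ hwO ?_ ?_ hε ?_
  · have h1 : 0 < ‖(WithLp.toLp 2 (fun i => (F (τ (ζ w)) - c) i ^ m) : Ew n)‖ := by
      rw [hτw]
      exact hNpos w hw
    exact norm_pos_iff.1 h1
  · rw [hτw]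
    exact hpw
  · have e1 : ∀ᶠ s in 𝓝 (ζ w), ‖(τ s).1 - v.1‖ < ρ := by
      have h1 : ContinuousAt (fun s => ‖(τ s).1 - v.1‖) (ζ w) :=
        ((continuousAt_fst.comp hτat).sub continuousAt_const).norm
      refine h1.eventually (gt_mem_nhds ?_)
      beta_reduce
      rw [hτw]
      exact hw1
    have e2 : ∀ᶠ s in 𝓝 (ζ w), ‖F (τ s) - F v‖ < 2 * c₁ := by
      have h1 : ContinuousAt (fun s => ‖F (τ s) - F v‖) (ζ w) :=
        (hFat.sub continuousAt_const).norm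
      refine h1.eventually (gt_mem_nhds ?_)
      beta_reduce
      rw [hτw]
      exact hw2
    have e3 : ∀ᶠ s in 𝓝 (ζ w), η < ‖F (τ s) - c‖ := by
      have h1 : ContinuousAt (fun s => ‖F (τ s) - c‖) (ζ w) :=
        (hFat.sub continuousAt_const).norm
      refine h1.eventually (lt_mem_nhds ?_)
      beta_reduce
      rw [hτw]
      exact hwη
    filter_upwards [e1, e2, e3, hO.mem_nhds hwO] with s s1 s2 s3 s4
    have hsK : τ s ∈ K' := ⟨⟨(hτM s s4).1, s1.le, s2.le⟩, s3.le⟩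
    have h1 := hmul (τ s) hsK
    rw [(hτM s s4).2] at h1
    rw [hτw]
    exact h1

end Pool.Agent.Lib.MP_209724_lc.GP
end

section

namespace Pool.Agent.Lib.MP_209724_lc.GP

open Filter Topology Metric Set
open GS (Ew)

variable {d : ℕ}

/-- A holomorphic function without zeros on a disc, with `exp(-m) ≤ |f| ≤ exp m`, is almost constant
near the center.

Proof. `f' / f` has a primitive `g` on the disc (`DifferentiableOn.isExactOn_ball`), `g 0 = 0`, so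
`f = f 0 * exp g` (the derivative of `f * exp(-g)` vanishes on the disc). Then
`Re g = log |f| - log |f 0| ≤ 2 m < 4 m`. By `Complex.borelCaratheodory_zero`
`‖g z‖ ≤ 2 (4 m) ‖z‖ / (s - ‖z‖) ≤ 16 m ‖z‖ / s ≤ 1`, and `‖exp w - 1‖ ≤ 2 ‖w‖` for `‖w‖ ≤ 1`
(`Complex.norm_exp_sub_one_le`). -/
theorem ratio_disc {f : ℂ → ℂ} {s : ℝ} (hs : 0 < s) (hf : DifferentiableOn ℂ f (ball 0 s))
    (h0 : ∀ z ∈ ball (0 : ℂ) s, f z ≠ 0) {m : ℝ} (hm : 0 < m)
    (hb : ∀ z ∈ ball (0 : ℂ) s, Real.exp (-m) ≤ ‖f z‖ ∧ ‖f z‖ ≤ Real.exp m) {z : ℂ}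
    (hz : ‖z‖ ≤ s / 2) (hz' : 16 * m * ‖z‖ ≤ s) : ‖f z / f 0 - 1‖ ≤ 32 * m * ‖z‖ / s := by
  have h0s : (0 : ℂ) ∈ ball (0 : ℂ) s := mem_ball_self hs
  have hzs : z ∈ ball (0 : ℂ) s := by rw [mem_ball_zero_iff]; linarith
  have hdf : DifferentiableOn ℂ (deriv f) (ball 0 s) := hf.deriv isOpen_ball
  have hq : DifferentiableOn ℂ (fun w => deriv f w / f w) (ball 0 s) := hdf.div hf h0
  obtain ⟨g, hg0, hg⟩ := (hq.isExactOn_ball).with_val_at 0 0
  have hgd : DifferentiableOn ℂ g (ball 0 s) := fun w hw =>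
    (hg w hw).differentiableAt.differentiableWithinAt
  -- f * exp(-g) is constant
  have hconst : ∀ w ∈ ball (0 : ℂ) s, f w * Complex.exp (-g w) = f 0 := by
    have hF : DifferentiableOn ℂ (fun w => f w * Complex.exp (-g w)) (ball 0 s) :=
      hf.mul (hgd.neg.cexp)
    have hF' : EqOn (deriv fun w => f w * Complex.exp (-g w)) 0 (ball 0 s) := by
      intro w hw
      have h1 : HasDerivAt f (deriv f w) w :=
        ((hf w hw).differentiableAt (isOpen_ball.mem_nhds hw)).hasDerivAt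
      have h2 := h1.mul ((hg w hw).neg.cexp)
      rw [Pi.zero_apply]
      have h3 := h2.deriv
      have h4 : deriv (fun w => f w * Complex.exp (-g w)) w =
          deriv f w * Complex.exp (-g w) +
            f w * (Complex.exp (-g w) * -(deriv f w / f w)) := by
        exact h3
      rw [h4]
      have := h0 w hw
      field_simp
      ring
    intro w hw
    have h := IsOpen.is_const_of_deriv_eq_zero isOpen_ball
      ((convex_ball (0 : ℂ) s).isPreconnected) hF hF' hw h0s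
    simpa [hg0] using h
  have hfw : ∀ w ∈ ball (0 : ℂ) s, f w = f 0 * Complex.exp (g w) := by
    intro w hw
    rw [← hconst w hw, mul_assoc, ← Complex.exp_add]
    simp
  have hre : ∀ w ∈ ball (0 : ℂ) s, (g w).re ≤ 2 * m := by
    intro w hw
    have h1 := (hb w hw).2
    have h2 := (hb 0 h0s).1
    rw [hfw w hw, norm_mul, Complex.norm_exp] at h1
    have h3 : Real.exp (-m) * Real.exp (g w).re ≤ Real.exp m :=
      le_trans (mul_le_mul_of_nonneg_right h2 (Real.exp_pos _).le) h1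
    rw [← Real.exp_add, Real.exp_le_exp] at h3
    linarith
  have hbc := Complex.borelCaratheodory_zero (M := 2 * m) (by linarith) hgd
    (fun w hw => hre w hw) hs hzs hg0
  have hz0 : 0 ≤ ‖z‖ := norm_nonneg z
  have hgz : ‖g z‖ ≤ 16 * m * ‖z‖ / s := by
    refine le_trans hbc ?_
    rw [div_le_div_iff₀ (by linarith) hs]
    have hmz : 0 ≤ m * ‖z‖ := by positivity
    nlinarith
  have hgz1 : ‖g z‖ ≤ 1 := le_trans hgz ((div_le_one hs).2 hz')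
  have hE := Complex.norm_exp_sub_one_le hgz1
  have h5 : f z / f 0 = Complex.exp (g z) := by
    rw [hfw z hzs]
    have := h0 0 h0s
    field_simp
  rw [h5]
  calc ‖Complex.exp (g z) - 1‖ ≤ 2 * ‖g z‖ := hE
    _ ≤ 2 * (16 * m * ‖z‖ / s) := by linarith
    _ = 32 * m * ‖z‖ / s := by ring

end Pool.Agent.Lib.MP_209724_lc.GP
end

section

namespace Pool.Agent.Lib.MP_209724_lc.GP

open Filter Topology Metric Set
open GS (Ew)

variable {d : ℕ}

/-- **Coefficients are almost constant at distance `R / r`.** Holomorphic functions `h_ν` on a ball with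
`r_ν ^ (-C) ≤ |h_ν| ≤ r_ν ^ C`.

Proof. For `t ≠ t'` apply `ratio_disc` to `f(z) = h_ν(t + (z / ‖t' - t‖) • (t' - t))` on the disc of
radius `s = ρ - δ` (its points are in `ball t₀ ρ`), `m = C log r_ν + 1`, `z = ‖t' - t‖ ≤ R / r_ν`; the
bound `32 m (R / r_ν) / s` tends to `0` because `log r / r → 0`. -/
theorem ratio_near (t₀ : Ew d) {ρ δ : ℝ} (hδρ : δ < ρ) (r : ℕ → ℝ) (hr : Tendsto r atTop atTop)
    (h : ℕ → Ew d → ℂ) (hd : ∀ ν, DifferentiableOn ℂ (h ν) (ball t₀ ρ)) (C : ℕ)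
    (hb : ∀ᶠ ν in atTop, ∀ t ∈ ball t₀ ρ, (r ν ^ C)⁻¹ ≤ ‖h ν t‖ ∧ ‖h ν t‖ ≤ r ν ^ C) (R : ℝ)
    {ε : ℝ} (hε : 0 < ε) :
    ∀ᶠ ν in atTop, ∀ t, ‖t - t₀‖ ≤ δ → ∀ t', ‖t' - t‖ ≤ R / r ν → ‖h ν t' / h ν t - 1‖ ≤ ε := by
  set s : ℝ := ρ - δ with hs
  have hs0 : 0 < s := by rw [hs]; linarith
  set R' : ℝ := max R 0 with hR'
  have hR'0 : 0 ≤ R' := le_max_right _ _
  have hRR' : R ≤ R' := le_max_left _ _
  -- limits
  have hinv : Tendsto (fun x : ℝ => R' / x) atTop (𝓝 0) :=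
    tendsto_const_nhds.div_atTop tendsto_id
  have hlog : Tendsto (fun x : ℝ => Real.log x / x) atTop (𝓝 0) := by
    have := Real.isLittleO_log_id_atTop.tendsto_div_nhds_zero
    simpa using this
  have hL : Tendsto (fun x : ℝ => ((C : ℝ) * Real.log x + 1) * (R' / x)) atTop (𝓝 0) := by
    have h1 : Tendsto (fun x : ℝ => (C : ℝ) * R' * (Real.log x / x) + R' / x) atTop (𝓝 0) := by
      have := (hlog.const_mul ((C : ℝ) * R')).add hinv
      simpa using this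
    refine h1.congr' ?_
    filter_upwards with x
    ring
  have hL' := hL.comp hr
  have hinv' := hinv.comp hr
  have e1 : ∀ᶠ ν in atTop, ((C : ℝ) * Real.log (r ν) + 1) * (R' / r ν) < s / 16 :=
    hL'.eventually (gt_mem_nhds (by positivity))
  have e2 : ∀ᶠ ν in atTop, ((C : ℝ) * Real.log (r ν) + 1) * (R' / r ν) < ε * s / 32 :=
    hL'.eventually (gt_mem_nhds (by positivity))
  have e3 : ∀ᶠ ν in atTop, R' / r ν < s / 2 :=
    hinv'.eventually (gt_mem_nhds (by positivity))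
  have e4 : ∀ᶠ ν in atTop, 1 ≤ r ν := hr.eventually_ge_atTop 1
  filter_upwards [e1, e2, e3, e4, hb] with ν h1 h2 h3 h4 hbν
  intro t ht t' htt'
  have hr0 : 0 < r ν := by linarith
  have hlog0 : 0 ≤ Real.log (r ν) := Real.log_nonneg h4
  set m : ℝ := (C : ℝ) * Real.log (r ν) + 1 with hm
  have hm0 : 0 < m := by rw [hm]; positivity
  have htball : t ∈ ball t₀ ρ := by
    rw [mem_ball, dist_eq_norm]; linarith
  have hht : h ν t ≠ 0 := by
    intro h0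
    have := (hbν t htball).1
    rw [h0, norm_zero] at this
    have hp : 0 < (r ν ^ C)⁻¹ := by positivity
    linarith
  have htt'R : ‖t' - t‖ ≤ R' / r ν := by
    refine htt'.trans ?_
    gcongr
  by_cases hne : t' = t
  · rw [hne, div_self hht, sub_self, norm_zero]; exact hε.le
  have hn0 : 0 < ‖t' - t‖ := norm_pos_iff.2 (sub_ne_zero.2 hne)
  set n : ℝ := ‖t' - t‖ with hn
  set f : ℂ → ℂ := fun z => h ν (t + (z / (n : ℂ)) • (t' - t)) with hf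
  have hmem : ∀ z ∈ ball (0 : ℂ) s, t + (z / (n : ℂ)) • (t' - t) ∈ ball t₀ ρ := by
    intro z hz
    rw [mem_ball, dist_zero_right] at hz
    rw [mem_ball, dist_eq_norm]
    have : ‖(z / (n : ℂ)) • (t' - t)‖ = ‖z‖ := by
      rw [norm_smul, norm_div, Complex.norm_real, Real.norm_eq_abs, abs_of_pos hn0, ← hn]
      field_simp
    calc ‖t + (z / (n : ℂ)) • (t' - t) - t₀‖ = ‖(t - t₀) + (z / (n : ℂ)) • (t' - t)‖ := by
          congr 1; abel
      _ ≤ ‖t - t₀‖ + ‖(z / (n : ℂ)) • (t' - t)‖ := norm_add_le _ _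
      _ < δ + s := by rw [this]; linarith
      _ = ρ := by rw [hs]; ring
  have hfd : DifferentiableOn ℂ f (ball 0 s) := by
    have hg : DifferentiableOn ℂ (fun z : ℂ => t + (z / (n : ℂ)) • (t' - t)) (ball 0 s) := by
      apply Differentiable.differentiableOn
      exact (differentiable_const t).add ((differentiable_id.div_const (n : ℂ)).smul_const (t' - t))
    exact (hd ν).comp hg hmem
  have hexp : Real.exp m = r ν ^ C * Real.exp 1 := by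
    rw [hm, Real.exp_add, ← Real.log_pow, Real.exp_log (by positivity)]
  have hfb : ∀ z ∈ ball (0 : ℂ) s, Real.exp (-m) ≤ ‖f z‖ ∧ ‖f z‖ ≤ Real.exp m := by
    intro z hz
    obtain ⟨hb1, hb2⟩ := hbν _ (hmem z hz)
    have he1 : 1 ≤ Real.exp 1 := Real.one_le_exp (by norm_num)
    have hle : r ν ^ C ≤ Real.exp m := by
      rw [hexp]; exact le_mul_of_one_le_right (by positivity) he1
    refine ⟨?_, hb2.trans hle⟩
    rw [Real.exp_neg]
    refine le_trans ?_ hb1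
    exact inv_anti₀ (by positivity) hle
  have hf0 : ∀ z ∈ ball (0 : ℂ) s, f z ≠ 0 := by
    intro z hz h0
    have := (hfb z hz).1
    rw [h0, norm_zero] at this
    have hp := Real.exp_pos (-m)
    linarith
  have hzn : ‖((n : ℝ) : ℂ)‖ = n := by
    rw [Complex.norm_real, Real.norm_eq_abs, abs_of_pos hn0]
  have hmn : m * n ≤ m * (R' / r ν) := by gcongr
  have key := ratio_disc (z := ((n : ℝ) : ℂ)) hs0 hfd hf0 hm0 hfb (by rw [hzn]; linarith)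
    (by rw [hzn]; nlinarith)
  have hfn : f ((n : ℝ) : ℂ) = h ν t' := by
    rw [hf]; dsimp only
    rw [div_self (by exact_mod_cast hn0.ne'), one_smul]
    congr 1; abel
  have hf00 : f 0 = h ν t := by
    rw [hf]; dsimp only
    rw [zero_div, zero_smul, add_zero]
  rw [hfn, hf00, hzn] at key
  refine key.trans ?_
  rw [div_le_iff₀ hs0]
  nlinarith

end Pool.Agent.Lib.MP_209724_lc.GP
end

section

namespace Pool.Agent.Lib.MP_209724_lc.GF

open Filter Topology Metric Set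

variable {n : ℕ}

/-- The faces are nonempty. Proof. `Finset.exists_max_image`. -/
theorem fac_nonempty {S : Finset (Fin n → ℕ)} (hS : S.Nonempty) (η : Fin n → ℝ) :
    (fac S η).Nonempty := by
  obtain ⟨α, hα, hmax⟩ := Finset.exists_max_image S (fun β => ∑ i, (β i : ℝ) * η i) hS
  exact ⟨α, mem_fac.2 ⟨hα, hmax⟩⟩

/-- All elements of the face have the same value at `η`. -/
theorem fac_value {S : Finset (Fin n → ℕ)} {η : Fin n → ℝ} {α β : Fin n → ℕ} (hα : α ∈ fac S η)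
    (hβ : β ∈ fac S η) : ∑ i, ((α i : ℝ) - β i) * η i = 0 := by
  have h1 := (mem_fac.1 hα).2 β (mem_fac.1 hβ).1
  have h2 := (mem_fac.1 hβ).2 α (mem_fac.1 hα).1
  simp only [sub_mul, Finset.sum_sub_distrib]
  linarith

/-- **Semicontinuity of faces.** Proof. For `α ∈ S` not in `fac S η₀` there is `β ∈ S` with
`β · η₀ > α · η₀`, and this remains true near `η₀`; there are finitely many `α`. -/
theorem fac_near (S : Finset (Fin n → ℕ)) (η₀ : Fin n → ℝ) :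
    ∃ ε : ℝ, 0 < ε ∧ ∀ η : Fin n → ℝ, ‖η - η₀‖ ≤ ε → fac S η ⊆ fac S η₀ := by
  have hcont : ∀ α : Fin n → ℕ, Continuous fun η : Fin n → ℝ => ∑ i, (α i : ℝ) * η i := by
    intro α
    fun_prop
  have h1 : ∀ α ∈ S, ∀ᶠ η in 𝓝 η₀, α ∈ fac S η → α ∈ fac S η₀ := by
    intro α hα
    by_cases h0 : α ∈ fac S η₀
    · exact Filter.Eventually.of_forall fun _ _ => h0
    · rw [mem_fac] at h0
      push Not at h0
      obtain ⟨β, hβ, hlt⟩ := h0 hα
      have h2 : ∀ᶠ η in 𝓝 η₀, ∑ i, (α i : ℝ) * η i < ∑ i, (β i : ℝ) * η i :=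
        (hcont α).continuousAt.eventually_lt (hcont β).continuousAt hlt
      filter_upwards [h2] with η hη hmem
      exact absurd ((mem_fac.1 hmem).2 β hβ) (not_le.2 hη)
  have h2 : ∀ᶠ η in 𝓝 η₀, ∀ α ∈ S, α ∈ fac S η → α ∈ fac S η₀ :=
    (Filter.eventually_all_finset S).2 h1
  obtain ⟨ε, hε, h3⟩ := Metric.eventually_nhds_iff.1 h2
  refine ⟨ε / 2, half_pos hε, fun η hη α hα => ?_⟩
  apply h3 _ α (mem_fac.1 hα).1 hα
  rw [dist_eq_norm]
  linarith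

/-- Proof. `fac S η` contains some `γ`, which is in `fac S η₀`; every `α ∈ fac S η₀` has the same value at
`η` as `γ` by `h2`, so it is maximal. -/
theorem fac_eq {S : Finset (Fin n → ℕ)} (hS : S.Nonempty) {η₀ η : Fin n → ℝ}
    (h : fac S η ⊆ fac S η₀)
    (h2 : ∀ α ∈ fac S η₀, ∀ β ∈ fac S η₀, ∑ i, ((α i : ℝ) - β i) * η i = 0) :
    fac S η = fac S η₀ := by
  apply Finset.Subset.antisymm h
  intro α hα
  obtain ⟨γ, hγ⟩ := fac_nonempty hS η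
  have h3 := h2 α hα γ (h hγ)
  simp only [sub_mul, Finset.sum_sub_distrib] at h3
  rw [mem_fac]
  refine ⟨(mem_fac.1 hα).1, fun β hβ => ?_⟩
  have h4 := (mem_fac.1 hγ).2 β hβ
  linarith

/-- **Ties.** In a relation `∑ α ∈ S, c_α y ^ α = 0` with coefficients of polynomial size the maximal
exponential growth is attained at least twice.

Proof. Let `α₀ ∈ fac S η` (`fac_nonempty`) and suppose that `fac S η = {α₀}`. Then there is `δ > 0` with
`β · η ≤ α₀ · η - 2 δ` for `β ∈ S`, `β ≠ α₀`. As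
`(1 / r ν) log ‖c ν β * ∏ i, y ν i ^ β i‖ = (1 / r ν) log ‖c ν β‖ + ∑ i, β i * ((r ν)⁻¹ * log ‖y ν i‖)` and
`(1 / r ν) |log ‖c ν β‖| ≤ C log (r ν) / r ν → 0`, for large `ν` the terms with `β ≠ α₀` have norm at most
`exp(r ν (α₀ · η - 3 δ / 2))` and the term of `α₀` at least `exp(r ν (α₀ · η - δ / 2))`, so the sum is
nonzero as soon as `|S| exp(- δ r ν) < 1`. Contradiction with `hrel`. -/
theorem ties (S : Finset (Fin n → ℕ)) (hS : S.Nonempty) (c : ℕ → (Fin n → ℕ) → ℂ) (C : ℕ)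
    (r : ℕ → ℝ) (hr : Tendsto r atTop atTop)
    (hc : ∀ α ∈ S, ∀ᶠ ν in atTop, (r ν ^ C)⁻¹ ≤ ‖c ν α‖ ∧ ‖c ν α‖ ≤ r ν ^ C)
    (y : ℕ → Fin n → ℂ) (hy : ∀ ν i, y ν i ≠ 0)
    (hrel : ∀ᶠ ν in atTop, ∑ α ∈ S, c ν α * ∏ i, y ν i ^ α i = 0) (η : Fin n → ℝ)
    (hη : ∀ i, Tendsto (fun ν => (r ν)⁻¹ * Real.log ‖y ν i‖) atTop (𝓝 (η i))) :
    ∃ α ∈ fac S η, ∃ β ∈ fac S η, α ≠ β := by
  classical
  by_contra hcon
  push Not at hcon
  obtain ⟨α₀, hα₀⟩ := fac_nonempty hS η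
  have hα₀S : α₀ ∈ S := (mem_fac.1 hα₀).1
  set f : ℕ → (Fin n → ℕ) → ℂ := fun ν β => c ν β * ∏ i, y ν i ^ β i with hf
  have hrpos : ∀ᶠ ν in atTop, 0 < r ν := hr.eventually_gt_atTop 0
  have hc0 : ∀ β ∈ S, ∀ᶠ ν in atTop, 0 < ‖c ν β‖ := by
    intro β hβ
    filter_upwards [hc β hβ, hrpos] with ν h1 h2
    exact lt_of_lt_of_le (inv_pos.2 (pow_pos h2 C)) h1.1
  have hprod : ∀ ν (β : Fin n → ℕ), 0 < ‖∏ i, y ν i ^ β i‖ := by
    intro ν β
    rw [norm_pos_iff, Finset.prod_ne_zero_iff]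
    exact fun i _ => pow_ne_zero _ (hy ν i)
  have hf0 : ∀ β ∈ S, ∀ᶠ ν in atTop, 0 < ‖f ν β‖ := by
    intro β hβ
    filter_upwards [hc0 β hβ] with ν h1
    rw [hf]
    simp only [norm_mul]
    exact mul_pos h1 (hprod ν β)
  -- the coefficients do not matter
  have hlogr : Tendsto (fun ν => (C : ℝ) * (Real.log (r ν) / r ν)) atTop (𝓝 0) := by
    have h1 : Tendsto (fun x : ℝ => Real.log x / x) atTop (𝓝 0) :=
      Real.isLittleO_log_id_atTop.tendsto_div_nhds_zero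
    have h2 := (h1.comp hr).const_mul (C : ℝ)
    rw [mul_zero] at h2
    exact h2
  have hclog : ∀ β ∈ S, Tendsto (fun ν => (r ν)⁻¹ * Real.log ‖c ν β‖) atTop (𝓝 0) := by
    intro β hβ
    apply squeeze_zero_norm' _ hlogr
    filter_upwards [hc β hβ, hrpos, hc0 β hβ] with ν h1 h2 h3
    rw [Real.norm_eq_abs, abs_mul, abs_of_pos (inv_pos.2 h2)]
    have h4 : |Real.log ‖c ν β‖| ≤ C * Real.log (r ν) := by
      rw [abs_le]
      constructor
      · have h5 := Real.log_le_log (inv_pos.2 (pow_pos h2 C)) h1.1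
        rw [Real.log_inv, Real.log_pow] at h5
        exact h5
      · have h5 := Real.log_le_log h3 h1.2
        rw [Real.log_pow] at h5
        exact h5
    calc (r ν)⁻¹ * |Real.log ‖c ν β‖| ≤ (r ν)⁻¹ * (C * Real.log (r ν)) :=
          mul_le_mul_of_nonneg_left h4 (inv_pos.2 h2).le
      _ = (C : ℝ) * (Real.log (r ν) / r ν) := by rw [div_eq_mul_inv]; ring
  have hlim : ∀ β ∈ S, Tendsto (fun ν => (r ν)⁻¹ * Real.log ‖f ν β‖) atTop
      (𝓝 (∑ i, (β i : ℝ) * η i)) := by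
    intro β hβ
    have h1 : Tendsto (fun ν => (r ν)⁻¹ * Real.log ‖c ν β‖ +
        ∑ i, (β i : ℝ) * ((r ν)⁻¹ * Real.log ‖y ν i‖)) atTop
        (𝓝 (0 + ∑ i, (β i : ℝ) * η i)) :=
      (hclog β hβ).add (tendsto_finsetSum _ fun i _ => (hη i).const_mul (β i : ℝ))
    rw [zero_add] at h1
    refine h1.congr' ?_
    filter_upwards [hc0 β hβ] with ν h2
    have h3 : Real.log ‖f ν β‖ = Real.log ‖c ν β‖ + ∑ i, (β i : ℝ) * Real.log ‖y ν i‖ := by
      rw [hf]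
      simp only [norm_mul]
      rw [Real.log_mul h2.ne' (hprod ν β).ne', norm_prod, Real.log_prod]
      · congr 1
        refine Finset.sum_congr rfl fun i _ => ?_
        rw [norm_pow, Real.log_pow]
      · intro i _
        rw [norm_pow]
        exact pow_ne_zero _ (norm_ne_zero_iff.2 (hy ν i))
    rw [h3, mul_add, Finset.mul_sum]
    congr 1
    refine Finset.sum_congr rfl fun i _ => ?_
    ring
  -- the other terms are small
  have hsmall : ∀ β ∈ S.erase α₀, Tendsto (fun ν => Real.exp (Real.log ‖f ν β‖ -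
      Real.log ‖f ν α₀‖)) atTop (𝓝 0) := by
    intro β hβ
    rw [Finset.mem_erase] at hβ
    obtain ⟨hne, hβS⟩ := hβ
    have hlt : ∑ i, (β i : ℝ) * η i - ∑ i, (α₀ i : ℝ) * η i < 0 := by
      have h1 : β ∉ fac S η := fun h => hne (hcon β h α₀ hα₀)
      rw [mem_fac] at h1
      push Not at h1
      obtain ⟨γ, hγ, h2⟩ := h1 hβS
      have h3 := (mem_fac.1 hα₀).2 γ hγ
      linarith
    have h1 := (hlim β hβS).sub (hlim α₀ hα₀S)
    have h2 := hr.atTop_mul_neg hlt h1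
    have h3 : Tendsto (fun ν => Real.log ‖f ν β‖ - Real.log ‖f ν α₀‖) atTop atBot := by
      refine h2.congr' ?_
      filter_upwards [hrpos] with ν h4
      rw [← mul_sub, mul_inv_cancel_left₀ h4.ne']
    exact Real.tendsto_exp_atBot.comp h3
  have hsum : Tendsto (fun ν => ∑ β ∈ S.erase α₀, Real.exp (Real.log ‖f ν β‖ -
      Real.log ‖f ν α₀‖)) atTop (𝓝 0) := by
    have h1 := tendsto_finsetSum (S.erase α₀) hsmall
    rw [Finset.sum_const_zero] at h1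
    exact h1
  have hall : ∀ᶠ ν in atTop, ∀ β ∈ S, 0 < ‖f ν β‖ := (Filter.eventually_all_finset S).2 hf0
  obtain ⟨ν, h1, h2, h3⟩ := ((hsum.eventually_lt_const zero_lt_one).and
    (hall.and hrel)).exists
  have hfα := h2 α₀ hα₀S
  have h4 : ∀ β ∈ S.erase α₀, Real.exp (Real.log ‖f ν β‖ - Real.log ‖f ν α₀‖) =
      ‖f ν β‖ / ‖f ν α₀‖ := by
    intro β hβ
    rw [Real.exp_sub, Real.exp_log (h2 β (Finset.mem_of_mem_erase hβ)), Real.exp_log hfα]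
  rw [Finset.sum_congr rfl h4, ← Finset.sum_div, div_lt_one hfα] at h1
  have h5 : f ν α₀ + ∑ β ∈ S.erase α₀, f ν β = 0 := by
    rw [Finset.add_sum_erase S (fun β => f ν β) hα₀S]
    exact h3
  have h6 : ‖f ν α₀‖ = ‖∑ β ∈ S.erase α₀, f ν β‖ := by
    rw [eq_neg_of_add_eq_zero_left h5, norm_neg]
  have h7 := norm_sum_le (S.erase α₀) fun β => f ν β
  rw [← h6] at h7
  exact absurd h1 (not_lt.2 h7)

end Pool.Agent.Lib.MP_209724_lc.GF
end

section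

namespace Pool.Agent.Lib.MP_209724_lc.GP

open MvPolynomial Filter Topology Metric Set
open GC (prj)

variable {n d : ℕ}

/-- **Local uniqueness.** The map `x ↦ (Z x, (F_i(x))_i)` is injective near a point where its derivative
is injective.

Proof. The map `Φ` is polynomial, so it has the strict derivative
`D b = (Z b, (∑ b_k ∂_k F_i(x₀))_i)` at `x₀` (compare `GC.chartPhi`, `GC.chartD`, `GS.hasFDerivAt_aeval`,
`ContDiffAt.hasStrictFDerivAt`), injective by `hinj`; so `‖D b‖ ≥ c ‖b‖` for some `c > 0`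
(`LinearMap.exists_antilipschitzWith`), and by strict differentiability
`‖Φ x - Φ x' - D (x - x')‖ ≤ (c/2) ‖x - x'‖` near `x₀`. If `Φ x = Φ x'` then `c ‖x - x'‖ ≤ (c/2) ‖x - x'‖`. -/
theorem locally_unique (Z : Fin d → Fin n → ℂ) (F : Fin n → MvPolynomial (Fin n) ℂ)
    (x₀ : Fin n → ℂ)
    (hinj : ∀ b : Fin n → ℂ, prj Z b = 0 → (∀ i, ∑ k, b k * eval x₀ (pderiv k (F i)) = 0) → b = 0) :
    ∃ δ : ℝ, 0 < δ ∧ ∀ x ∈ ball x₀ δ, ∀ x' ∈ ball x₀ δ, prj Z x = prj Z x' →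
      (∀ i, eval x (F i) = eval x' (F i)) → x = x' := by
  classical
  have hker : LinearMap.ker
      (GC.chartD Z F x₀ : (Fin n → ℂ) →ₗ[ℂ] (Fin d → ℂ) × (Fin n → ℂ)) = ⊥ := by
    rw [LinearMap.ker_eq_bot']
    intro b hb
    have hb' : GC.chartD Z F x₀ b = 0 := hb
    rw [GC.chartD_apply] at hb'
    have h1 : prj Z b = 0 := congrArg Prod.fst hb'
    have h2 : (fun l => ∑ i, b i * eval x₀ (pderiv i (F l))) = 0 := congrArg Prod.snd hb'
    exact hinj b h1 fun l => congrFun h2 l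
  obtain ⟨K, hK, hanti⟩ := LinearMap.exists_antilipschitzWith _ hker
  have hs : HasStrictFDerivAt (GC.chartPhi Z F) (GC.chartD Z F x₀) x₀ :=
    (GC.chartPhi_contDiff Z F).contDiffAt.hasStrictFDerivAt' (GC.chartPhi_hasFDerivAt Z F x₀)
      one_ne_zero
  have hK' : (0 : ℝ) < (2 * (K : ℝ))⁻¹ := by
    have : (0 : ℝ) < K := NNReal.coe_pos.2 hK
    positivity
  have hev := hs.isLittleO.def hK'
  rw [nhds_prod_eq] at hev
  obtain ⟨δ, hδ, hb⟩ := (Metric.nhds_basis_ball.prod_self).eventually_iff.1 hev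
  refine ⟨δ, hδ, fun x hx x' hx' hZ hF => ?_⟩
  have h1 := hb (show (x, x') ∈ ball x₀ δ ×ˢ ball x₀ δ from ⟨hx, hx'⟩)
  have h2 : GC.chartPhi Z F x = GC.chartPhi Z F x' := by
    refine Prod.ext hZ ?_
    funext l
    exact hF l
  have h3 := hanti.le_mul_dist x x'
  rw [dist_eq_norm, dist_eq_norm] at h3
  have h4 : (GC.chartD Z F x₀ : (Fin n → ℂ) →ₗ[ℂ] (Fin d → ℂ) × (Fin n → ℂ)) x -
      (GC.chartD Z F x₀ : (Fin n → ℂ) →ₗ[ℂ] (Fin d → ℂ) × (Fin n → ℂ)) x' =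
      GC.chartD Z F x₀ (x - x') := by
    rw [map_sub]
    rfl
  rw [h4] at h3
  simp only [h2, sub_self, zero_sub, norm_neg] at h1
  have hKp : (0 : ℝ) < K := NNReal.coe_pos.2 hK
  have h5 : ‖x - x'‖ ≤ K * ((2 * (K : ℝ))⁻¹ * ‖x - x'‖) :=
    h3.trans (mul_le_mul_of_nonneg_left h1 hKp.le)
  have h6 : (K : ℝ) * ((2 * (K : ℝ))⁻¹ * ‖x - x'‖) = ‖x - x'‖ / 2 := by
    field_simp
  rw [h6] at h5
  have h7 : ‖x - x'‖ = 0 := le_antisymm (by linarith [norm_nonneg (x - x')]) (norm_nonneg _)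
  exact sub_eq_zero.1 (norm_eq_zero.1 h7)

end Pool.Agent.Lib.MP_209724_lc.GP
end

section

namespace Pool.Agent.Lib.MP_209724_lc.GP

open MvPolynomial Filter Topology Metric Set
open GC (prj)
open GS (Ew)

variable {n d k : ℕ}

private theorem fchart_differentiable_eval {κ : Type} [Fintype κ] (c : MvPolynomial κ ℂ) :
    Differentiable ℂ fun z : κ → ℂ => eval z c := by
  induction c using MvPolynomial.induction_on with
  | C a => simp
  | add p q hp hq =>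
    simp only [map_add]
    exact hp.add hq
  | mul_X p i hp =>
    simp only [map_mul, eval_X]
    exact hp.mul (by fun_prop)

/-- **Charts of the family** over a sheet `x(t)`, `Z x(t) = r t`, of the projection. `hV` is the
conclusion of `exists_vchart` for `β`.

Proof. Let `v = (t*, u*)`, `x* = x t*`, `y* = exp u*`, `s₀ = Sum.elim (prj Z x*) (y* ∘ B)`. Take
`δ, Φ, Ψ` from `hV`. Let `O₁ = {s : Ew n | fun i => s (e i) ∈ ball s₀ δ}` (open, contains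
`bas e Z B x v`), and for `s : Ew n` write `s' = fun i => s (e i) : Fin d ⊕ Fin k → ℂ`. Put
`t(s) = toLp 2 (fun j => s' (inl j) / r)`, `u(s) i = u* i + Complex.log (Ψ s' i / y* i)`,
`τ s = (t(s), u(s))`. As `Ψ s₀ = y*`, near `s₀` the quotients `Ψ s' i / y* i` are in the slit plane
(close to `1`), so `u` is holomorphic and `exp (u(s) i) = Ψ s' i`. `t(s₀) = t*` because `Z x* = r t*`, so
`t(s) ∈ ball t₀ ρ` near `s₀`. By `locally_unique` at `x*` (its hypothesis follows from `hFD` and `hD`: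
`b i * eval x* (D i) = 0`), for `s` near `s₀` the points `Φ s'` and `x (t(s))` are equal: both are close to
`x*` (continuity), have `Z`-projection `s' ∘ inl` (`hxZ`), and are zeros of the `F i` (`hF` with
`OnV.onW`, and `hxW`). So `τ s ∈ Fam` and `bas (τ s) = s` for `s` in a small open `O ∋ bas v`;
`F(τ s) = x (t(s)) - u(s)` and `pf (τ s) = eval s' β` are holomorphic. -/
theorem fam_chart {L : Type} [Field L] [Algebra ℂ L] (ξ υ : Fin n → L) (Z : Fin d → Fin n → ℂ)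
    (B : Fin k → Fin n) (e : Fin d ⊕ Fin k ≃ Fin n) (β : MvPolynomial (Fin d ⊕ Fin k) ℂ)
    (hV : ∀ x₀ y₀ : Fin n → ℂ, OnV ξ υ x₀ y₀ →
      eval (Sum.elim (prj Z x₀) fun j => y₀ (B j)) β ≠ 0 →
      ∃ (δ : ℝ) (Φ Ψ : (Fin d ⊕ Fin k → ℂ) → Fin n → ℂ), 0 < δ ∧
        Φ (Sum.elim (prj Z x₀) fun j => y₀ (B j)) = x₀ ∧
        Ψ (Sum.elim (prj Z x₀) fun j => y₀ (B j)) = y₀ ∧
        DifferentiableOn ℂ Φ (ball (Sum.elim (prj Z x₀) fun j => y₀ (B j)) δ) ∧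
        DifferentiableOn ℂ Ψ (ball (Sum.elim (prj Z x₀) fun j => y₀ (B j)) δ) ∧
        ∀ s ∈ ball (Sum.elim (prj Z x₀) fun j => y₀ (B j)) δ, OnV ξ υ (Φ s) (Ψ s) ∧
          (∀ j, prj Z (Φ s) j = s (Sum.inl j)) ∧ ∀ j, Ψ s (B j) = s (Sum.inr j))
    (x : Ew d → Fin n → ℂ) {t₀ : Ew d} {ρ : ℝ} (hx : DifferentiableOn ℂ x (ball t₀ ρ)) {r : ℝ}
    (hr : 0 < r) (hxW : ∀ t ∈ ball t₀ ρ, OnW ξ (x t))
    (hxZ : ∀ t ∈ ball t₀ ρ, ∀ j, prj Z (x t) j = r * t j)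
    (F D : Fin n → MvPolynomial (Fin n) ℂ) (hF : ∀ i, aeval ξ (F i) = 0)
    (hFD : ∀ i, ∀ z b : Fin n → ℂ, prj Z b = 0 →
      ∑ k, b k * eval z (pderiv k (F i)) = b i * eval z (D i))
    (hD : ∀ t ∈ ball t₀ ρ, ∀ i, eval (x t) (D i) ≠ 0)
    {v : Ew d × (Fin n → ℂ)} (hv : v ∈ Fam ξ υ x (ball t₀ ρ)) (hp : pf Z B β x v ≠ 0) :
    HasChart (Fam ξ υ x (ball t₀ ρ)) (fun v => x v.1 - v.2) (pf Z B β x) (bas e Z B x) v := by
  obtain ⟨hv1, hv2⟩ := hv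
  set x₀ : Fin n → ℂ := x v.1 with hx₀
  set y₀ : Fin n → ℂ := fun i => Complex.exp (v.2 i) with hy₀
  have hy₀ne : ∀ i, y₀ i ≠ 0 := fun i => Complex.exp_ne_zero _
  obtain ⟨δ, Φ, Ψ, hδ, hΦ₀, hΨ₀, hΦd, hΨd, hΦΨ⟩ := hV x₀ y₀ hv2 hp
  set s₀ : Fin d ⊕ Fin k → ℂ := Sum.elim (prj Z x₀) fun j => y₀ (B j) with hs₀
  -- local uniqueness
  obtain ⟨δ₁, hδ₁, huniq⟩ := locally_unique Z F x₀ (by
    intro b hb hb2
    funext i
    have h1 := hb2 i
    rw [hFD i x₀ b hb] at h1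
    exact (mul_eq_zero.1 h1).resolve_right (hD v.1 hv1 i))
  have hrc : (r : ℂ) ≠ 0 := by exact_mod_cast hr.ne'
  -- the coordinates
  set σ : Ew n → (Fin d ⊕ Fin k → ℂ) := fun s i => s (e i) with hσ
  have hσd : Differentiable ℂ σ := by
    rw [differentiable_pi]
    intro i
    exact (EuclideanSpace.proj (𝕜 := ℂ) (e i)).differentiable
  set tf : Ew n → Ew d := fun s => WithLp.toLp 2 fun j => σ s (Sum.inl j) / r with htf
  have htfd : Differentiable ℂ tf := by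
    have h1 : Differentiable ℂ fun s : Ew n => fun j : Fin d => σ s (Sum.inl j) / (r : ℂ) := by
      rw [differentiable_pi]
      intro j
      have h2 : Differentiable ℂ fun s : Ew n => σ s (Sum.inl j) :=
        (differentiable_pi.1 hσd) (Sum.inl j)
      simp only [div_eq_mul_inv]
      exact h2.mul_const _
    exact (PiLp.continuousLinearEquiv 2 ℂ fun _ : Fin d => ℂ).symm.differentiable.comp h1
  have hσbas : σ (bas e Z B x v) = s₀ := by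
    funext i
    change Sum.elim (prj Z (x v.1)) (fun j => Complex.exp (v.2 (B j))) (e.symm (e i)) = s₀ i
    rw [e.symm_apply_apply]
  have htf₀ : tf (bas e Z B x v) = v.1 := by
    ext j
    change σ (bas e Z B x v) (Sum.inl j) / r = v.1 j
    rw [hσbas]
    change prj Z (x v.1) j / r = v.1 j
    rw [hxZ v.1 hv1 j, mul_div_cancel_left₀ _ hrc]
  set uf : Ew n → Fin n → ℂ := fun s i => v.2 i + Complex.log (Ψ (σ s) i / y₀ i) with huf
  have huf₀ : uf (bas e Z B x v) = v.2 := by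
    funext i
    change v.2 i + Complex.log (Ψ (σ (bas e Z B x v)) i / y₀ i) = v.2 i
    rw [hσbas, hΨ₀, div_self (hy₀ne i), Complex.log_one, add_zero]
  -- continuity at the base point
  have hσc : ContinuousAt σ (bas e Z B x v) := hσd.continuous.continuousAt
  have htc : ContinuousAt tf (bas e Z B x v) := htfd.continuous.continuousAt
  have hΦc : ContinuousAt (fun s => Φ (σ s)) (bas e Z B x v) := by
    refine ContinuousAt.comp ?_ hσc
    rw [hσbas]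
    exact (hΦd.continuousOn).continuousAt (ball_mem_nhds _ hδ)
  have hΨc : ContinuousAt (fun s => Ψ (σ s)) (bas e Z B x v) := by
    refine ContinuousAt.comp ?_ hσc
    rw [hσbas]
    exact (hΨd.continuousOn).continuousAt (ball_mem_nhds _ hδ)
  have hxc : ContinuousAt (fun s => x (tf s)) (bas e Z B x v) := by
    refine ContinuousAt.comp ?_ htc
    rw [htf₀]
    exact (hx.continuousOn).continuousAt (isOpen_ball.mem_nhds hv1)
  have ev1 : ∀ᶠ s in 𝓝 (bas e Z B x v), σ s ∈ ball s₀ δ :=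
    hσc.eventually (by rw [hσbas]; exact ball_mem_nhds _ hδ)
  have ev2 : ∀ᶠ s in 𝓝 (bas e Z B x v), tf s ∈ ball t₀ ρ :=
    htc.eventually (by rw [htf₀]; exact isOpen_ball.mem_nhds hv1)
  have ev3 : ∀ᶠ s in 𝓝 (bas e Z B x v), ∀ i, Ψ (σ s) i / y₀ i ∈ Complex.slitPlane := by
    rw [eventually_all]
    intro i
    have h1 : ContinuousAt (fun s => Ψ (σ s) i / y₀ i) (bas e Z B x v) :=
      (((continuous_apply i).continuousAt).comp hΨc).div_const _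
    refine h1.eventually (Complex.isOpen_slitPlane.mem_nhds ?_)
    change Ψ (σ (bas e Z B x v)) i / y₀ i ∈ Complex.slitPlane
    rw [hσbas, hΨ₀, div_self (hy₀ne i)]
    exact Complex.one_mem_slitPlane
  have ev4 : ∀ᶠ s in 𝓝 (bas e Z B x v), Φ (σ s) ∈ ball x₀ δ₁ :=
    hΦc.eventually (by
      change ∀ᶠ y in 𝓝 (Φ (σ (bas e Z B x v))), y ∈ ball x₀ δ₁
      rw [hσbas, hΦ₀]; exact ball_mem_nhds _ hδ₁)
  have ev5 : ∀ᶠ s in 𝓝 (bas e Z B x v), x (tf s) ∈ ball x₀ δ₁ :=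
    hxc.eventually (by
      change ∀ᶠ y in 𝓝 (x (tf (bas e Z B x v))), y ∈ ball x₀ δ₁
      rw [htf₀]; exact ball_mem_nhds _ hδ₁)
  obtain ⟨η, hη, hO⟩ := Metric.eventually_nhds_iff_ball.1
    (ev1.and (ev2.and (ev3.and (ev4.and ev5))))
  -- facts on the ball
  have hxΦ : ∀ s ∈ ball (bas e Z B x v) η, Φ (σ s) = x (tf s) := by
    intro s hs
    obtain ⟨h1, h2, h3, h4, h5⟩ := hO s hs
    refine huniq _ h4 _ h5 ?_ ?_
    · funext j
      rw [(hΦΨ (σ s) h1).2.1 j, hxZ (tf s) h2 j]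
      change σ s (Sum.inl j) = r * (σ s (Sum.inl j) / r)
      rw [mul_div_cancel₀ _ hrc]
    · intro i
      rw [(hΦΨ (σ s) h1).1.onW (F i) (hF i), hxW (tf s) h2 (F i) (hF i)]
  have hexp : ∀ s ∈ ball (bas e Z B x v) η, ∀ i, Complex.exp (uf s i) = Ψ (σ s) i := by
    intro s hs i
    obtain ⟨h1, h2, h3, h4, h5⟩ := hO s hs
    change Complex.exp (v.2 i + Complex.log (Ψ (σ s) i / y₀ i)) = Ψ (σ s) i
    rw [Complex.exp_add, Complex.exp_log (Complex.slitPlane_ne_zero (h3 i))]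
    exact mul_div_cancel₀ _ (hy₀ne i)
  have hZx : ∀ s ∈ ball (bas e Z B x v) η, ∀ j, prj Z (x (tf s)) j = σ s (Sum.inl j) := by
    intro s hs j
    obtain ⟨h1, h2, h3, h4, h5⟩ := hO s hs
    rw [← hxΦ s hs, (hΦΨ (σ s) h1).2.1 j]
  have hsum : ∀ s ∈ ball (bas e Z B x v) η,
      Sum.elim (prj Z (x (tf s))) (fun j => Complex.exp (uf s (B j))) = σ s := by
    intro s hs
    funext i
    rcases i with j | j
    · exact hZx s hs j
    · change Complex.exp (uf s (B j)) = σ s (Sum.inr j)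
      rw [hexp s hs, (hΦΨ (σ s) (hO s hs).1).2.2 j]
  have hσdo : DifferentiableOn ℂ σ (ball (bas e Z B x v) η) := hσd.differentiableOn
  have hufd : DifferentiableOn ℂ uf (ball (bas e Z B x v) η) := by
    rw [differentiableOn_pi]
    intro i
    have h1 : DifferentiableOn ℂ (fun s => Ψ (σ s)) (ball (bas e Z B x v) η) :=
      hΨd.comp hσdo fun s hs => (hO s hs).1
    have h3 : DifferentiableOn ℂ (fun s => Ψ (σ s) i) (ball (bas e Z B x v) η) :=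
      (differentiableOn_pi.1 h1) i
    have h2 : DifferentiableOn ℂ (fun s => Ψ (σ s) i / y₀ i) (ball (bas e Z B x v) η) := by
      simp only [div_eq_mul_inv]
      exact h3.mul_const _
    exact (h2.clog fun s hs => (hO s hs).2.2.1 i).const_add _
  have hxtd : DifferentiableOn ℂ (fun s => x (tf s)) (ball (bas e Z B x v) η) :=
    hx.comp htfd.differentiableOn fun s hs => (hO s hs).2.1
  refine ⟨ball (bas e Z B x v) η, fun s => (tf s, uf s), isOpen_ball, mem_ball_self hη, ?_, ?_, ?_,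
    ?_, ?_⟩
  · exact Prod.ext htf₀ huf₀
  · exact htfd.continuous.continuousOn.prodMk hufd.continuousOn
  · intro s hs
    refine ⟨⟨(hO s hs).2.1, ?_⟩, ?_⟩
    · have h1 := (hΦΨ (σ s) (hO s hs).1).1
      rw [hxΦ s hs] at h1
      have h2 : (fun i => Complex.exp (uf s i)) = Ψ (σ s) := funext fun i => hexp s hs i
      change OnV ξ υ (x (tf s)) fun i => Complex.exp (uf s i)
      rw [h2]
      exact h1
    · ext i
      change Sum.elim (prj Z (x (tf s))) (fun j => Complex.exp (uf s (B j))) (e.symm i) = s i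
      rw [hsum s hs]
      change s (e (e.symm i)) = s i
      rw [e.apply_symm_apply]
  · exact hxtd.sub hufd
  · have h1 : DifferentiableOn ℂ (fun s => eval (σ s) β) (ball (bas e Z B x v) η) := by
      have h2 : Differentiable ℂ fun s : Ew n => eval (σ s) β := by
        exact (fchart_differentiable_eval β).comp hσd
      exact h2.differentiableOn
    refine h1.congr fun s hs => ?_
    change eval (Sum.elim (prj Z (x (tf s))) fun j => Complex.exp (uf s (B j))) β = eval (σ s) β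
    rw [hsum s hs]

end Pool.Agent.Lib.MP_209724_lc.GP
end

section

namespace Pool.Agent.Lib.MP_209724_lc.GP

open Filter Topology Metric Set
open GS (Ew)

variable {n d : ℕ}

/-- **Uniform spheres.** For large `ν` around every point `v` of the family `M ν` over
`closedBall t₀ δ` there is a sphere in the `t`-space, of radius `s / r_ν`, `s < R₀`, such that
`F(t, u) = r_ν X_ν(t) - u` differs from `F(v)` by more than `2 c₁` at all the points of `M ν` over the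
sphere.

Proof. Suppose not. Then for every `m` there are infinitely many `ν` such that the claim with
`c₁ = 1/(m+1)` fails for `ν`; choose `ν_m` strictly increasing in `m` and `v_m = (t_m, u_m) ∈ M ν_m`,
`‖t_m - t₀‖ ≤ δ`, such that for every `s ∈ (0, R₀)` there is `v' ∈ M ν_m` with
`‖v'.1 - t_m‖ = s / r(ν_m)` and `‖F v' - F v_m‖ ≤ 2/(m+1)`.
Let `μ_{m,j} = max_{α ∈ S j} |a ν_m j α (t_m) exp(α·u_m)| > 0` and
`q_{m,j,α} = a ν_m j α (t_m) exp(α·u_m) / μ_{m,j}`, so `|q| ≤ 1`, `max_α |q_{m,j,α}| = 1`,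
`∑_α q_{m,j,α} = 0` (`hM`). By compactness (`closedBall t₀ δ` in `Ew d`, finitely many closed unit discs)
a subsequence has `t_m → t*`, `q_{m,j,α} → q_{j,α}`; then `‖t* - t₀‖ ≤ δ`, for every `j` some
`|q_{j,α}| = 1`, `∑_α q_{j,α} = 0`. By `sphere_of_sel` for `ℓ = fderiv ℂ H t*` (hypothesis `hsel` at
`t*`), `a = q`, `r₀ = R₀` there is `s ∈ (0, R₀)` such that for all `ξ` with `‖ξ‖ = s` the sums
`∑_α q_{j,α} exp(α·ℓ ξ)` are not all zero. For this `s` choose `v'_m = (t'_m, u'_m)`, put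
`ξ_m = r (t'_m - t_m)`, `‖ξ_m‖ = s`; on a further subsequence `ξ_m → ξ`, `‖ξ‖ = s`. By `increments`
`r (X(t'_m) - X(t_m)) → ℓ ξ`, so `u'_m - u_m = r (X(t'_m) - X(t_m)) - (F v'_m - F v_m) → ℓ ξ`. Dividing
`hM` for `v'_m` by `μ_{m,j}`:
`0 = ∑_α q_{m,j,α} (a(t'_m)/a(t_m)) exp(α·(u'_m - u_m)) → ∑_α q_{j,α} exp(α·ℓ ξ)` by `ha` (with
`R = R₀`). So all these sums vanish: a contradiction. -/
theorem exists_spheres {J : Type} [Fintype J] (t₀ : Ew d) {ρ δ : ℝ} (hδ : 0 < δ) (hδρ : δ < ρ)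
    (r : ℕ → ℝ) (hr0 : ∀ ν, 0 < r ν) (hr : Tendsto r atTop atTop)
    (X : ℕ → Ew d → Fin n → ℂ) (hX : ∀ ν, DifferentiableOn ℂ (X ν) (ball t₀ ρ))
    (H : Ew d → Fin n → ℂ) (hH : DifferentiableOn ℂ H (ball t₀ ρ))
    (hXH : ∀ ε : ℝ, 0 < ε → ∀ᶠ ν in atTop, ∀ t ∈ ball t₀ ρ, ‖X ν t - H t‖ ≤ ε)
    (S : J → Finset (Fin n → ℕ)) (hS : ∀ j, (S j).Nonempty)
    (a : ℕ → J → (Fin n → ℕ) → Ew d → ℂ)
    (ha0 : ∀ ν j, ∀ α ∈ S j, ∀ t, ‖t - t₀‖ ≤ δ → a ν j α t ≠ 0)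
    (ha : ∀ j, ∀ α ∈ S j, ∀ R ε : ℝ, 0 < ε → ∀ᶠ ν in atTop, ∀ t, ‖t - t₀‖ ≤ δ →
      ∀ t', ‖t' - t‖ ≤ R / r ν → ‖a ν j α t' / a ν j α t - 1‖ ≤ ε)
    (hsel : ∀ t, ‖t - t₀‖ ≤ δ → ∀ b : Ew d, ∀ α β : J → Fin n → ℕ,
      (∀ j, α j ∈ S j ∧ β j ∈ S j ∧ α j ≠ β j) →
      (∀ j, ∑ i, ((α j i : ℂ) - β j i) * fderiv ℂ H t b i = 0) → b = 0)
    (M : ℕ → Set (Ew d × (Fin n → ℂ)))
    (hM : ∀ ν, ∀ v ∈ M ν, ∀ j,
      ∑ α ∈ S j, a ν j α v.1 * Complex.exp (∑ i, (α i : ℂ) * v.2 i) = 0)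
    {R₀ : ℝ} (hR₀ : 0 < R₀) :
    ∃ c₁ : ℝ, 0 < c₁ ∧ ∀ᶠ ν in atTop, ∀ v ∈ M ν, ‖v.1 - t₀‖ ≤ δ → ∃ s : ℝ, 0 < s ∧ s < R₀ ∧
      ∀ v' ∈ M ν, ‖v'.1 - v.1‖ = s / r ν →
        2 * c₁ < ‖((r ν : ℂ) • X ν v'.1 - v'.2) - ((r ν : ℂ) • X ν v.1 - v.2)‖ := by
  classical
  by_contra hcon
  have hfreq : ∀ m : ℕ, ∃ᶠ ν in atTop, ∃ v ∈ M ν, ‖v.1 - t₀‖ ≤ δ ∧
      ∀ s : ℝ, 0 < s → s < R₀ → ∃ v' ∈ M ν, ‖v'.1 - v.1‖ = s / r ν ∧
        ‖((r ν : ℂ) • X ν v'.1 - v'.2) - ((r ν : ℂ) • X ν v.1 - v.2)‖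
          ≤ 2 * (1 / ((m : ℝ) + 1)) := by
    intro m hev
    apply hcon
    refine ⟨1 / ((m : ℝ) + 1), by positivity, ?_⟩
    filter_upwards [hev] with ν hν v hv hvt
    by_contra hno
    apply hν
    refine ⟨v, hv, hvt, fun s hs hsR => ?_⟩
    by_contra hno2
    apply hno
    refine ⟨s, hs, hsR, fun v' hv' hv's => ?_⟩
    by_contra hlt
    exact hno2 ⟨v', hv', hv's, not_lt.mp hlt⟩
  obtain ⟨φ, hφ, hP⟩ := Filter.extraction_forall_of_frequently hfreq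
  choose v hvM hvt hv using hP
  -- the terms of the exponential sums
  let E : ℕ → J → (Fin n → ℕ) → ℂ := fun m j α =>
    a (φ m) j α (v m).1 * Complex.exp (∑ i, (α i : ℂ) * (v m).2 i)
  have hE0 : ∀ m j, ∀ α ∈ S j, E m j α ≠ 0 := fun m j α hα =>
    mul_ne_zero (ha0 _ _ _ hα _ (hvt m)) (Complex.exp_ne_zero _)
  let μ : ℕ → J → ℝ := fun m j => (S j).sup' (hS j) fun α => ‖E m j α‖
  have hμle : ∀ m j, ∀ α ∈ S j, ‖E m j α‖ ≤ μ m j := fun m j α hα =>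
    Finset.le_sup' (fun α => ‖E m j α‖) hα
  have hμ : ∀ m j, 0 < μ m j := by
    intro m j
    obtain ⟨α, hα⟩ := hS j
    exact lt_of_lt_of_le (norm_pos_iff.mpr (hE0 m j α hα)) (hμle m j α hα)
  have hμc : ∀ m j, (μ m j : ℂ) ≠ 0 := fun m j => by
    exact_mod_cast (hμ m j).ne'
  let q : ℕ → J → (Fin n → ℕ) → ℂ := fun m j α => if α ∈ S j then E m j α / μ m j else 0
  have hqS : ∀ m j, ∀ α ∈ S j, q m j α = E m j α / μ m j := fun m j α hα => if_pos hα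
  have hq1 : ∀ m j α, ‖q m j α‖ ≤ 1 := by
    intro m j α
    by_cases hα : α ∈ S j
    · rw [hqS m j α hα, norm_div, Complex.norm_real, Real.norm_of_nonneg (hμ m j).le,
        div_le_one (hμ m j)]
      exact hμle m j α hα
    · have : q m j α = 0 := if_neg hα
      rw [this, norm_zero]
      exact zero_le_one
  have hqmax : ∀ m j, ∃ α ∈ S j, ‖q m j α‖ = 1 := by
    intro m j
    obtain ⟨α, hα, hαe⟩ := Finset.exists_mem_eq_sup' (hS j) fun α => ‖E m j α‖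
    refine ⟨α, hα, ?_⟩
    rw [hqS m j α hα, norm_div, Complex.norm_real, Real.norm_of_nonneg (hμ m j).le,
      div_eq_one_iff_eq (hμ m j).ne']
    exact hαe.symm
  have hqsum : ∀ m j, ∑ α ∈ S j, q m j α = 0 := by
    intro m j
    have h1 : ∑ α ∈ S j, q m j α = (∑ α ∈ S j, E m j α) / μ m j := by
      rw [Finset.sum_div]
      exact Finset.sum_congr rfl fun α hα => hqS m j α hα
    rw [h1, hM (φ m) (v m) (hvM m) j, zero_div]
  -- compactness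
  have hK : IsCompact ((closedBall t₀ δ : Set (Ew d)) ×ˢ
      (Set.pi univ fun _ : J => Set.pi univ fun _ : Fin n → ℕ => closedBall (0 : ℂ) 1)) :=
    (isCompact_closedBall t₀ δ).prod
      (isCompact_univ_pi fun _ => isCompact_univ_pi fun _ => isCompact_closedBall 0 1)
  obtain ⟨⟨ts, qs⟩, hlim, ψ₁, hψ₁, hlimψ₁⟩ := hK.tendsto_subseq
    (x := fun m => ((v m).1, q m)) (fun m => by
      refine ⟨?_, ?_⟩
      · simpa [mem_closedBall, dist_eq_norm] using hvt m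
      · intro j _ α _
        simpa [mem_closedBall, dist_eq_norm] using hq1 m j α)
  have htsδ : ‖ts - t₀‖ ≤ δ := by
    have := hlim.1
    simpa [mem_closedBall, dist_eq_norm] using this
  have hts1 : Tendsto (fun m => (v (ψ₁ m)).1) atTop (𝓝 ts) := by
    have := (continuous_fst.tendsto _).comp hlimψ₁
    exact this
  have hqs1 : Tendsto (fun m => q (ψ₁ m)) atTop (𝓝 qs) := by
    have := (continuous_snd.tendsto _).comp hlimψ₁
    exact this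
  have hqs2 : ∀ j α, Tendsto (fun m => q (ψ₁ m) j α) atTop (𝓝 (qs j α)) := by
    intro j α
    exact (tendsto_pi_nhds.mp ((tendsto_pi_nhds.mp hqs1) j)) α
  have hqs0 : ∀ j, ∃ α ∈ S j, qs j α ≠ 0 := by
    intro j
    by_contra hno
    push Not at hno
    have hev : ∀ α ∈ S j, ∀ᶠ m in atTop, ‖q (ψ₁ m) j α‖ < 1 := by
      intro α hα
      have h1 := (hqs2 j α).norm
      rw [hno α hα, norm_zero] at h1
      exact h1.eventually (gt_mem_nhds zero_lt_one)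
    have hev2 : ∀ᶠ m in atTop, ∀ α ∈ S j, ‖q (ψ₁ m) j α‖ < 1 :=
      (Finset.eventually_all (S j)).mpr hev
    obtain ⟨m, hm⟩ := hev2.exists
    obtain ⟨α, hα, hα1⟩ := hqmax (ψ₁ m) j
    exact (hm α hα).ne hα1
  have hqssum : ∀ j, ∑ α ∈ S j, qs j α = 0 := by
    intro j
    have h1 : Tendsto (fun m => ∑ α ∈ S j, q (ψ₁ m) j α) atTop (𝓝 (∑ α ∈ S j, qs j α)) :=
      tendsto_finsetSum _ fun α _ => hqs2 j α
    have h2 : (fun m => ∑ α ∈ S j, q (ψ₁ m) j α) = fun _ => 0 := by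
      funext m; exact hqsum _ _
    rw [h2] at h1
    exact tendsto_nhds_unique h1 tendsto_const_nhds
  -- the sphere
  obtain ⟨s, hs0, hsR, hs⟩ := sphere_of_sel S (fderiv ℂ H ts)
    (fun b α β hαβ hb => hsel ts htsδ b α β hαβ hb) qs hqs0 hqssum hR₀
  have hv' := fun m => hv m s hs0 hsR
  choose v' hv'M hv't hv'F using hv'
  let ξ : ℕ → Ew d := fun m => (r (φ m) : ℂ) • ((v' m).1 - (v m).1)
  have hrc : ∀ ν, (r ν : ℂ) ≠ 0 := fun ν => by exact_mod_cast (hr0 ν).ne'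
  have hξn : ∀ m, ‖ξ m‖ = s := by
    intro m
    change ‖(r (φ m) : ℂ) • ((v' m).1 - (v m).1)‖ = s
    rw [norm_smul, Complex.norm_real, Real.norm_of_nonneg (hr0 _).le, hv't m,
      mul_div_cancel₀ _ (hr0 _).ne']
  have hξt : ∀ m, (v m).1 + ((r (φ m) : ℂ)⁻¹) • ξ m = (v' m).1 := by
    intro m
    change (v m).1 + ((r (φ m) : ℂ)⁻¹) • ((r (φ m) : ℂ) • ((v' m).1 - (v m).1)) = (v' m).1
    rw [smul_smul, inv_mul_cancel₀ (hrc _), one_smul, add_sub_cancel]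
  obtain ⟨ξs, hξs, ψ₂, hψ₂, hlimψ₂⟩ := (isCompact_sphere (0 : Ew d) s).tendsto_subseq
    (x := fun m => ξ (ψ₁ m)) (fun m => by
      simp [mem_sphere_iff_norm, hξn])
  have hξsn : ‖ξs‖ = s := by simpa using hξs
  let ψ : ℕ → ℕ := fun m => ψ₁ (ψ₂ m)
  have hψ : StrictMono ψ := hψ₁.comp hψ₂
  have hψt : Tendsto ψ atTop atTop := hψ.tendsto_atTop
  have hφt : Tendsto (fun m => φ (ψ m)) atTop atTop := hφ.tendsto_atTop.comp hψt
  have hts2 : Tendsto (fun m => (v (ψ m)).1) atTop (𝓝 ts) := hts1.comp hψ₂.tendsto_atTop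
  have hqs3 : ∀ j α, Tendsto (fun m => q (ψ m) j α) atTop (𝓝 (qs j α)) := fun j α =>
    (hqs2 j α).comp hψ₂.tendsto_atTop
  have hξ2 : Tendsto (fun m => ξ (ψ m)) atTop (𝓝 ξs) := hlimψ₂
  have hinc := increments t₀ hδ hδρ r hr0 hr X hX H hH hXH (fun m => φ (ψ m)) hφt
    (fun m => (v (ψ m)).1) (fun m => hvt (ψ m)) hts2 (fun m => ξ (ψ m)) hξ2
  have hinc2 : Tendsto (fun m => (r (φ (ψ m)) : ℂ) •
      (X (φ (ψ m)) (v' (ψ m)).1 - X (φ (ψ m)) (v (ψ m)).1)) atTop (𝓝 (fderiv ℂ H ts ξs)) := by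
    refine hinc.congr fun m => ?_
    rw [hξt]
  have hF0 : Tendsto (fun m => ((r (φ (ψ m)) : ℂ) • X (φ (ψ m)) (v' (ψ m)).1 - (v' (ψ m)).2) -
      ((r (φ (ψ m)) : ℂ) • X (φ (ψ m)) (v (ψ m)).1 - (v (ψ m)).2)) atTop (𝓝 0) := by
    rw [tendsto_zero_iff_norm_tendsto_zero]
    have hb : Tendsto (fun m => 2 * (1 / (((ψ m : ℕ) : ℝ) + 1))) atTop (𝓝 0) := by
      have h1 : Tendsto (fun m : ℕ => 2 * (1 / ((m : ℝ) + 1))) atTop (𝓝 (2 * 0)) :=
        tendsto_one_div_add_atTop_nhds_zero_nat.const_mul 2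
      rw [mul_zero] at h1
      exact h1.comp hψt
    exact squeeze_zero (fun m => norm_nonneg _) (fun m => hv'F (ψ m)) hb
  have hu : Tendsto (fun m => (v' (ψ m)).2 - (v (ψ m)).2) atTop (𝓝 (fderiv ℂ H ts ξs)) := by
    have h1 := hinc2.sub hF0
    rw [sub_zero] at h1
    refine h1.congr fun m => ?_
    rw [smul_sub]
    abel
  -- the sums of the limit vanish
  obtain ⟨j, hj⟩ := hs ξs hξsn
  apply hj
  have hexp : ∀ α : Fin n → ℕ, Tendsto (fun m => Complex.exp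
      (∑ i, (α i : ℂ) * ((v' (ψ m)).2 i - (v (ψ m)).2 i))) atTop
      (𝓝 (Complex.exp (∑ i, (α i : ℂ) * fderiv ℂ H ts ξs i))) := by
    intro α
    refine (Complex.continuous_exp.tendsto _).comp ?_
    refine tendsto_finsetSum _ fun i _ => ?_
    exact ((tendsto_pi_nhds.mp hu) i).const_mul _
  have hrat : ∀ α ∈ S j, Tendsto (fun m => a (φ (ψ m)) j α (v' (ψ m)).1 /
      a (φ (ψ m)) j α (v (ψ m)).1) atTop (𝓝 1) := by
    intro α hα
    rw [tendsto_iff_norm_sub_tendsto_zero]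
    rw [Metric.tendsto_atTop]
    intro ε hε
    have h1 := hφt.eventually (ha j α hα R₀ (ε / 2) (half_pos hε))
    obtain ⟨N, hN⟩ := eventually_atTop.mp h1
    refine ⟨N, fun m hm => ?_⟩
    have h2 := hN m hm (v (ψ m)).1 (hvt _) (v' (ψ m)).1 (by
      rw [hv't]
      exact div_le_div_of_nonneg_right hsR.le (hr0 _).le)
    rw [Real.dist_0_eq_abs, abs_of_nonneg (norm_nonneg _)]
    linarith
  have hlimsum : Tendsto (fun m => ∑ α ∈ S j, q (ψ m) j α *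
      (a (φ (ψ m)) j α (v' (ψ m)).1 / a (φ (ψ m)) j α (v (ψ m)).1 *
        Complex.exp (∑ i, (α i : ℂ) * ((v' (ψ m)).2 i - (v (ψ m)).2 i)))) atTop
      (𝓝 (∑ α ∈ S j, qs j α * (1 * Complex.exp (∑ i, (α i : ℂ) * fderiv ℂ H ts ξs i)))) :=
    tendsto_finsetSum _ fun α hα => (hqs3 j α).mul ((hrat α hα).mul (hexp α))
  have hzero : ∀ m, ∑ α ∈ S j, q (ψ m) j α *
      (a (φ (ψ m)) j α (v' (ψ m)).1 / a (φ (ψ m)) j α (v (ψ m)).1 *
        Complex.exp (∑ i, (α i : ℂ) * ((v' (ψ m)).2 i - (v (ψ m)).2 i))) = 0 := by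
    intro m
    have h1 := hM (φ (ψ m)) (v' (ψ m)) (hv'M (ψ m)) j
    have h2 : ∑ α ∈ S j, q (ψ m) j α *
        (a (φ (ψ m)) j α (v' (ψ m)).1 / a (φ (ψ m)) j α (v (ψ m)).1 *
          Complex.exp (∑ i, (α i : ℂ) * ((v' (ψ m)).2 i - (v (ψ m)).2 i))) =
        (∑ α ∈ S j, a (φ (ψ m)) j α (v' (ψ m)).1 *
          Complex.exp (∑ i, (α i : ℂ) * (v' (ψ m)).2 i)) / μ (ψ m) j := by
      rw [Finset.sum_div]
      refine Finset.sum_congr rfl fun α hα => ?_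
      rw [hqS _ _ _ hα]
      change a (φ (ψ m)) j α (v (ψ m)).1 * Complex.exp (∑ i, (α i : ℂ) * (v (ψ m)).2 i) /
        μ (ψ m) j * _ = _
      have h3 : (∑ i, (α i : ℂ) * (v' (ψ m)).2 i) = (∑ i, (α i : ℂ) * (v (ψ m)).2 i) +
          ∑ i, (α i : ℂ) * ((v' (ψ m)).2 i - (v (ψ m)).2 i) := by
        rw [← Finset.sum_add_distrib]
        refine Finset.sum_congr rfl fun i _ => ?_
        ring
      rw [h3, Complex.exp_add]
      have h4 := ha0 (φ (ψ m)) j α hα (v (ψ m)).1 (hvt _)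
      have h5 := hμc (ψ m) j
      field_simp
    rw [h2, h1, zero_div]
  simp only [hzero] at hlimsum
  have h6 := tendsto_nhds_unique hlimsum tendsto_const_nhds
  simpa only [one_mul] using h6

end Pool.Agent.Lib.MP_209724_lc.GP
end

section

/-!
# Uniform openness
-/

namespace Pool.Agent.Lib.MP_209724_lc.GP

open MvPolynomial Filter Topology Metric Set
open GC (prj)
open GS (Ew)

variable {n d k : ℕ}

private theorem uo_eval (c : MvPolynomial (Fin n) ℂ) : Differentiable ℂ fun x : Fin n → ℂ =>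
    eval x c := by
  intro x
  have h := GS.hasFDerivAt_aeval (fun j (x : Fin n → ℂ) => x j)
    (fun j => (ContinuousLinearMap.proj j : (Fin n → ℂ) →L[ℂ] ℂ)) x
    (fun j => (ContinuousLinearMap.proj j : (Fin n → ℂ) →L[ℂ] ℂ).hasFDerivAt) c
  exact h.differentiableAt

/-- **Uniform openness.** -/
theorem uniform_openness {L : Type} [Field L] [Algebra ℂ L] (ξ υ : Fin n → L)
    (Z : Fin d → Fin n → ℂ) (B : Fin k → Fin n) (e : Fin d ⊕ Fin k ≃ Fin n)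
    (β : MvPolynomial (Fin d ⊕ Fin k) ℂ)
    (hV : ∀ x₀ y₀ : Fin n → ℂ, OnV ξ υ x₀ y₀ →
      eval (Sum.elim (prj Z x₀) fun j => y₀ (B j)) β ≠ 0 →
      ∃ (δ : ℝ) (Φ Ψ : (Fin d ⊕ Fin k → ℂ) → Fin n → ℂ), 0 < δ ∧
        Φ (Sum.elim (prj Z x₀) fun j => y₀ (B j)) = x₀ ∧
        Ψ (Sum.elim (prj Z x₀) fun j => y₀ (B j)) = y₀ ∧
        DifferentiableOn ℂ Φ (ball (Sum.elim (prj Z x₀) fun j => y₀ (B j)) δ) ∧
        DifferentiableOn ℂ Ψ (ball (Sum.elim (prj Z x₀) fun j => y₀ (B j)) δ) ∧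
        ∀ s ∈ ball (Sum.elim (prj Z x₀) fun j => y₀ (B j)) δ, OnV ξ υ (Φ s) (Ψ s) ∧
          (∀ j, prj Z (Φ s) j = s (Sum.inl j)) ∧ ∀ j, Ψ s (B j) = s (Sum.inr j))
    (t₀ : Ew d) {ρ δ : ℝ} (hδ : 0 < δ) (hδρ : δ < ρ) (r : ℕ → ℝ) (hr0 : ∀ ν, 0 < r ν)
    (hr : Tendsto r atTop atTop) (X : ℕ → Ew d → Fin n → ℂ)
    (hX : ∀ ν, DifferentiableOn ℂ (X ν) (ball t₀ ρ)) (H : Ew d → Fin n → ℂ)
    (hH : DifferentiableOn ℂ H (ball t₀ ρ))
    (hXH : ∀ ε : ℝ, 0 < ε → ∀ᶠ ν in atTop, ∀ t ∈ ball t₀ ρ, ‖X ν t - H t‖ ≤ ε)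
    (hXW : ∀ ν, ∀ t ∈ ball t₀ ρ, OnW ξ ((r ν : ℂ) • X ν t))
    (hXZ : ∀ ν, ∀ t ∈ ball t₀ ρ, ∀ j, prj Z (X ν t) j = t j)
    (F D : Fin n → MvPolynomial (Fin n) ℂ) (hF : ∀ i, aeval ξ (F i) = 0)
    (hFD : ∀ i, ∀ z b : Fin n → ℂ, prj Z b = 0 →
      ∑ k, b k * eval z (pderiv k (F i)) = b i * eval z (D i))
    (hD : ∀ ν, ∀ t ∈ ball t₀ ρ, ∀ i, eval ((r ν : ℂ) • X ν t) (D i) ≠ 0)
    (S : {I : Finset (Fin n) // I.card = k + 1} → Finset (Fin n → ℕ))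
    (hS : ∀ I, (S I).Nonempty)
    (c : {I : Finset (Fin n) // I.card = k + 1} → (Fin n → ℕ) → MvPolynomial (Fin n) ℂ)
    (hrel : ∀ I, ∑ α ∈ S I, aeval ξ (c I α) * ∏ i, υ i ^ α i = 0) (C : ℕ)
    (hc : ∀ I, ∀ α ∈ S I, ∀ᶠ ν in atTop, ∀ t ∈ ball t₀ ρ,
      (r ν ^ C)⁻¹ ≤ ‖eval ((r ν : ℂ) • X ν t) (c I α)‖ ∧
        ‖eval ((r ν : ℂ) • X ν t) (c I α)‖ ≤ r ν ^ C)
    (hc0 : ∀ ν, ∀ I, ∀ α ∈ S I, ∀ t ∈ ball t₀ ρ, eval ((r ν : ℂ) • X ν t) (c I α) ≠ 0)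
    (hsel : ∀ t, ‖t - t₀‖ ≤ δ → ∀ b : Ew d,
      ∀ α β : {I : Finset (Fin n) // I.card = k + 1} → Fin n → ℕ,
      (∀ j, α j ∈ S j ∧ β j ∈ S j ∧ α j ≠ β j) →
      (∀ j, ∑ i, ((α j i : ℂ) - β j i) * fderiv ℂ H t b i = 0) → b = 0)
    {R₀ : ℝ} (hR₀ : 0 < R₀) :
    ∃ c₀ : ℝ, 0 < c₀ ∧ ∀ᶠ ν in atTop,
      ∀ v ∈ Fam ξ υ (fun t => (r ν : ℂ) • X ν t) (ball t₀ ρ), ‖v.1 - t₀‖ ≤ δ →
        pf Z B β (fun t => (r ν : ℂ) • X ν t) v ≠ 0 →
        ∀ cc : Fin n → ℂ, ‖cc - ((r ν : ℂ) • X ν v.1 - v.2)‖ ≤ c₀ → ∀ η : ℝ, 0 < η →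
        ∃ v' ∈ Fam ξ υ (fun t => (r ν : ℂ) • X ν t) (ball t₀ ρ), ‖v'.1 - v.1‖ ≤ R₀ / r ν ∧
          ‖((r ν : ℂ) • X ν v'.1 - v'.2) - cc‖ ≤ η ∧
          pf Z B β (fun t => (r ν : ℂ) • X ν t) v' ≠ 0 := by
  classical
  obtain ⟨c₁, hc₁, hsph⟩ := exists_spheres (J := {I : Finset (Fin n) // I.card = k + 1}) t₀ hδ hδρ
    r hr0 hr X hX H hH hXH S hS (fun ν I α t => eval ((r ν : ℂ) • X ν t) (c I α))
    (fun ν I α hα t ht => hc0 ν I α hα t (by
      rw [mem_ball, dist_eq_norm]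
      exact ht.trans_lt hδρ))
    (fun I α hα R ε hε => by
      refine ratio_near t₀ hδρ r hr (fun ν t => eval ((r ν : ℂ) • X ν t) (c I α)) (fun ν => ?_) C
        (hc I α hα) R hε
      exact (uo_eval (c I α)).comp_differentiableOn ((hX ν).const_smul (r ν : ℂ)))
    hsel (fun ν => Fam ξ υ (fun t => (r ν : ℂ) • X ν t) (ball t₀ ρ))
    (fun ν v hv I => OnV.rel (hrel I) hv.2) hR₀
  refine ⟨c₁ / 2, by positivity, ?_⟩
  have hsmall : ∀ᶠ ν in atTop, R₀ / r ν < ρ - δ :=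
    (hr.const_div_atTop R₀).eventually_lt_const (sub_pos.2 hδρ)
  filter_upwards [hsph, hsmall] with ν hsph hsmall
  intro v hv hvt hpv cc hcc η hη
  obtain ⟨s, hs0, hsR, hs⟩ := hsph v hv hvt
  set x : Ew d → Fin n → ℂ := fun t => (r ν : ℂ) • X ν t with hx
  have hxd : DifferentiableOn ℂ x (ball t₀ ρ) := (hX ν).const_smul (r ν : ℂ)
  have hsr : s / r ν < R₀ / r ν := div_lt_div_of_pos_right hsR (hr0 ν)
  have hKb : closedBall v.1 (s / r ν) ⊆ ball t₀ ρ := by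
    intro t ht
    rw [mem_closedBall] at ht
    rw [mem_ball]
    have h1 : dist t t₀ ≤ dist t v.1 + dist v.1 t₀ := dist_triangle _ _ _
    rw [dist_eq_norm v.1 t₀] at h1
    linarith
  have hKset : {v' | v' ∈ Fam ξ υ x (ball t₀ ρ) ∧ ‖v'.1 - v.1‖ ≤ s / r ν ∧
      ‖(x v'.1 - v'.2) - (x v.1 - v.2)‖ ≤ 2 * c₁} =
      {v' | v' ∈ Fam ξ υ x (ball t₀ ρ) ∧ v'.1 ∈ closedBall v.1 (s / r ν) ∧
        ‖x v'.1 - v'.2 - (x v.1 - v.2)‖ ≤ 2 * c₁} := by
    ext v'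
    simp only [mem_ofPred_eq, mem_closedBall, dist_eq_norm]
  have hKc : IsCompact {v' | v' ∈ Fam ξ υ x (ball t₀ ρ) ∧ ‖v'.1 - v.1‖ ≤ s / r ν ∧
      ‖(x v'.1 - v'.2) - (x v.1 - v.2)‖ ≤ 2 * c₁} := by
    rw [hKset]
    exact fam_compact ξ υ x hxd.continuousOn (isCompact_closedBall _ _) hKb _ _
  have hx1 : ContinuousOn (fun v' : Ew d × (Fin n → ℂ) => x v'.1)
      {v' | v' ∈ Fam ξ υ x (ball t₀ ρ) ∧ ‖v'.1 - v.1‖ ≤ s / r ν ∧
      ‖(x v'.1 - v'.2) - (x v.1 - v.2)‖ ≤ 2 * c₁} := by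
    refine hxd.continuousOn.comp continuous_fst.continuousOn ?_
    rintro v' ⟨h1, -, -⟩
    exact h1.1
  have hprj : ContinuousOn (fun v' : Ew d × (Fin n → ℂ) => prj Z (x v'.1))
      {v' | v' ∈ Fam ξ υ x (ball t₀ ρ) ∧ ‖v'.1 - v.1‖ ≤ s / r ν ∧
      ‖(x v'.1 - v'.2) - (x v.1 - v.2)‖ ≤ 2 * c₁} :=
    (GC.continuous_prj Z).comp_continuousOn hx1
  have hsum : ContinuousOn (fun v' : Ew d × (Fin n → ℂ) => (Sum.elim (prj Z (x v'.1))
      fun j => Complex.exp (v'.2 (B j)) : Fin d ⊕ Fin k → ℂ))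
      {v' | v' ∈ Fam ξ υ x (ball t₀ ρ) ∧ ‖v'.1 - v.1‖ ≤ s / r ν ∧
      ‖(x v'.1 - v'.2) - (x v.1 - v.2)‖ ≤ 2 * c₁} := by
    refine continuousOn_pi.2 fun i => ?_
    rcases i with j | j
    · exact (continuous_apply j).comp_continuousOn hprj
    · have : Continuous fun v' : Ew d × (Fin n → ℂ) => Complex.exp (v'.2 (B j)) := by fun_prop
      exact this.continuousOn
  obtain ⟨v', hv', h1, h2, h3⟩ := max_step (M := Fam ξ υ x (ball t₀ ρ))
    (F := fun v => x v.1 - v.2) (p := pf Z B β x) (ζ := bas e Z B x) hv hpv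
    (ρ := s / r ν) (div_pos hs0 (hr0 ν)) hc₁ hKc
    (hx1.sub continuous_snd.continuousOn)
    ((MvPolynomial.continuous_eval β).comp_continuousOn hsum)
    (by
      refine (PiLp.continuous_toLp 2 _).comp_continuousOn (continuousOn_pi.2 fun i => ?_)
      exact (continuous_apply (e.symm i)).comp_continuousOn hsum)
    (fun v' hv' h => hs v' hv' h)
    (fun v' hv' _ hp' => fam_chart ξ υ Z B e β hV x hxd (hr0 ν) (hXW ν)
      (fun t ht j => by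
        rw [← hXZ ν t ht j, hx]
        simp only [prj, Finset.mul_sum, Pi.smul_apply, smul_eq_mul]
        refine Finset.sum_congr rfl fun i _ => ?_
        ring)
      F D hF hFD (hD ν) hv' hp')
    (c := cc) hcc hη
  exact ⟨v', hv', h1.trans hsr.le, h2, h3⟩

end Pool.Agent.Lib.MP_209724_lc.GP
end

section

/-!
# Exponential points over a family of sheets in a purely imaginary direction
-/

namespace Pool.Agent.Lib.MP_209724_lc.GP

open MvPolynomial Filter Topology Metric Set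
open GC (prj)
open GS (Ew)

variable {n d k : ℕ}

/-- a logarithm with a prescribed imaginary part up to `π` -/
theorem exists_arg (w y : ℂ) (hy : y ≠ 0) :
    ∃ u : ℂ, Complex.exp u = y ∧ u.re = Real.log ‖y‖ ∧ |(w - u).im| ≤ Real.pi := by
  set m : ℤ := round ((w.im - (Complex.log y).im) / (2 * Real.pi)) with hm
  have hpi : 0 < 2 * Real.pi := by positivity
  refine ⟨Complex.log y + m * (2 * Real.pi * Complex.I), ?_, ?_, ?_⟩
  · rw [Complex.exp_add, Complex.exp_log hy, Complex.exp_int_mul_two_pi_mul_I, mul_one]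
  · rw [Complex.add_re, Complex.log_re]
    simp
  · have h1 : (w - (Complex.log y + m * (2 * Real.pi * Complex.I))).im =
        (w.im - (Complex.log y).im) - m * (2 * Real.pi) := by
      simp only [Complex.sub_im, Complex.add_im, Complex.mul_im, Complex.intCast_re,
        Complex.intCast_im, Complex.mul_re, Complex.I_re, Complex.I_im, Complex.re_ofNat,
        Complex.im_ofNat, Complex.ofReal_re, Complex.ofReal_im]
      ring
    rw [h1]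
    have h2 := abs_sub_round ((w.im - (Complex.log y).im) / (2 * Real.pi))
    rw [← hm] at h2
    have h3 : (w.im - (Complex.log y).im) - m * (2 * Real.pi) =
        ((w.im - (Complex.log y).im) / (2 * Real.pi) - m) * (2 * Real.pi) := by
      field_simp
    rw [h3, abs_mul, abs_of_pos hpi]
    nlinarith

theorem abs_log_le {y : ℂ} {A : ℝ} (h1 : ‖y‖ ≤ A) (h2 : ‖y⁻¹‖ ≤ A) (hy : y ≠ 0) :
    |Real.log ‖y‖| ≤ Real.log A := by
  have hy' : 0 < ‖y‖ := norm_pos_iff.2 hy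
  rw [abs_le]
  constructor
  · have h3 : Real.log ‖y⁻¹‖ ≤ Real.log A := Real.log_le_log (norm_pos_iff.2 (inv_ne_zero hy)) h2
    rw [norm_inv, Real.log_inv] at h3
    linarith
  · exact Real.log_le_log hy' h1

/-- **Exponential points over the sheets.** -/
theorem local_points {L : Type} [Field L] [Algebra ℂ L] (ξ υ : Fin n → L)
    (Z : Fin d → Fin n → ℂ) (B : Fin k → Fin n) (e : Fin d ⊕ Fin k ≃ Fin n)
    (β : MvPolynomial (Fin d ⊕ Fin k) ℂ)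
    (hV : ∀ x₀ y₀ : Fin n → ℂ, OnV ξ υ x₀ y₀ →
      eval (Sum.elim (prj Z x₀) fun j => y₀ (B j)) β ≠ 0 →
      ∃ (δ : ℝ) (Φ Ψ : (Fin d ⊕ Fin k → ℂ) → Fin n → ℂ), 0 < δ ∧
        Φ (Sum.elim (prj Z x₀) fun j => y₀ (B j)) = x₀ ∧
        Ψ (Sum.elim (prj Z x₀) fun j => y₀ (B j)) = y₀ ∧
        DifferentiableOn ℂ Φ (ball (Sum.elim (prj Z x₀) fun j => y₀ (B j)) δ) ∧
        DifferentiableOn ℂ Ψ (ball (Sum.elim (prj Z x₀) fun j => y₀ (B j)) δ) ∧
        ∀ s ∈ ball (Sum.elim (prj Z x₀) fun j => y₀ (B j)) δ, OnV ξ υ (Φ s) (Ψ s) ∧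
          (∀ j, prj Z (Φ s) j = s (Sum.inl j)) ∧ ∀ j, Ψ s (B j) = s (Sum.inr j))
    (t₀ : Ew d) {ρ δ : ℝ} (hδ : 0 < δ) (hδρ : δ < ρ) (r : ℕ → ℝ) (hr0 : ∀ ν, 0 < r ν)
    (hr : Tendsto r atTop atTop) (X : ℕ → Ew d → Fin n → ℂ)
    (hX : ∀ ν, DifferentiableOn ℂ (X ν) (ball t₀ ρ)) (H : Ew d → Fin n → ℂ)
    (hH : DifferentiableOn ℂ H (ball t₀ ρ))
    (hXH : ∀ ε : ℝ, 0 < ε → ∀ᶠ ν in atTop, ∀ t ∈ ball t₀ ρ, ‖X ν t - H t‖ ≤ ε)
    (hXW : ∀ ν, ∀ t ∈ ball t₀ ρ, OnW ξ ((r ν : ℂ) • X ν t))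
    (hXZ : ∀ ν, ∀ t ∈ ball t₀ ρ, ∀ j, prj Z (X ν t) j = t j)
    (F D : Fin n → MvPolynomial (Fin n) ℂ) (hF : ∀ i, aeval ξ (F i) = 0)
    (hFD : ∀ i, ∀ z b : Fin n → ℂ, prj Z b = 0 →
      ∑ k, b k * eval z (pderiv k (F i)) = b i * eval z (D i))
    (hD : ∀ ν, ∀ t ∈ ball t₀ ρ, ∀ i, eval ((r ν : ℂ) • X ν t) (D i) ≠ 0)
    (S : {I : Finset (Fin n) // I.card = k + 1} → Finset (Fin n → ℕ))
    (hS : ∀ I, (S I).Nonempty)
    (c : {I : Finset (Fin n) // I.card = k + 1} → (Fin n → ℕ) → MvPolynomial (Fin n) ℂ)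
    (hrel : ∀ I, ∑ α ∈ S I, aeval ξ (c I α) * ∏ i, υ i ^ α i = 0) (C : ℕ)
    (hc : ∀ I, ∀ α ∈ S I, ∀ᶠ ν in atTop, ∀ t ∈ ball t₀ ρ,
      (r ν ^ C)⁻¹ ≤ ‖eval ((r ν : ℂ) • X ν t) (c I α)‖ ∧
        ‖eval ((r ν : ℂ) • X ν t) (c I α)‖ ≤ r ν ^ C)
    (hc0 : ∀ ν, ∀ I, ∀ α ∈ S I, ∀ t ∈ ball t₀ ρ, eval ((r ν : ℂ) • X ν t) (c I α) ≠ 0)
    (hsel : ∀ t, ‖t - t₀‖ ≤ δ → ∀ b : Ew d,
      ∀ α β : {I : Finset (Fin n) // I.card = k + 1} → Fin n → ℕ,
      (∀ j, α j ∈ S j ∧ β j ∈ S j ∧ α j ≠ β j) →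
      (∀ j, ∑ i, ((α j i : ℂ) - β j i) * fderiv ℂ H t b i = 0) → b = 0)
    (A : ℕ → ℝ) (hA : ∀ ε : ℝ, 0 < ε → ∀ᶠ ν in atTop, Real.log (A ν) ≤ ε * r ν)
    (hcen : ∀ ν, ∃ y : Fin n → ℂ, OnV ξ υ ((r ν : ℂ) • X ν t₀) y ∧
      eval (Sum.elim (prj Z ((r ν : ℂ) • X ν t₀)) fun j => y (B j)) β ≠ 0 ∧ (∀ i, y i ≠ 0) ∧
      ∀ i, ‖y i‖ ≤ A ν ∧ ‖(y i)⁻¹‖ ≤ A ν)
    (hre : ∀ i, (H t₀ i).re = 0) :
    ∀ᶠ ν in atTop, ∃ t, ‖t - t₀‖ ≤ δ ∧
      OnV ξ υ ((r ν : ℂ) • X ν t) fun i => Complex.exp ((r ν : ℂ) * X ν t i) := by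
  have hρ : 0 < ρ := hδ.trans hδρ
  have ht₀ : t₀ ∈ ball t₀ ρ := mem_ball_self hρ
  obtain ⟨c₀, hc₀, huo⟩ := uniform_openness ξ υ Z B e β hV t₀ hδ hδρ r hr0 hr X hX H hH hXH hXW hXZ
    F D hF hFD hD S hS c hrel C hc hc0 hsel (R₀ := 1) one_pos
  choose y hyV hyβ hy0 hyA using hcen
  choose u hu1 hu2 hu3 using fun (ν : ℕ) (i : Fin n) =>
    exists_arg ((r ν : ℂ) * X ν t₀ i) (y ν i) (hy0 ν i)
  -- the values at the centers are small
  have hsmall : ∀ ε : ℝ, 0 < ε → ∀ᶠ ν in atTop,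
      ‖(r ν : ℂ) • X ν t₀ - u ν‖ ≤ ε * r ν := by
    intro ε hε
    have hπ : ∀ᶠ ν in atTop, Real.pi ≤ ε / 3 * r ν := by
      have := hr.const_mul_atTop (show 0 < ε / 3 by positivity)
      exact this.eventually_ge_atTop Real.pi
    filter_upwards [hXH (ε / 3) (by positivity), hA (ε / 3) (by positivity), hπ] with ν h1 h2 h3
    rw [pi_norm_le_iff_of_nonneg (by have := hr0 ν; positivity)]
    intro i
    have h4 : ‖((r ν : ℂ) • X ν t₀ - u ν) i‖ ≤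
        |(((r ν : ℂ) • X ν t₀ - u ν) i).re| + |(((r ν : ℂ) • X ν t₀ - u ν) i).im| :=
      Complex.norm_le_abs_re_add_abs_im _
    have h5 : |(((r ν : ℂ) • X ν t₀ - u ν) i).im| ≤ Real.pi := hu3 ν i
    have h6 : (((r ν : ℂ) • X ν t₀ - u ν) i).re = r ν * (X ν t₀ i).re - (u ν i).re := by
      simp only [Pi.sub_apply, Pi.smul_apply, smul_eq_mul, Complex.sub_re, Complex.re_ofReal_mul]
    have h7 : |(X ν t₀ i).re| ≤ ε / 3 := by
      have h8 := h1 t₀ ht₀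
      have h9 := (norm_le_pi_norm (X ν t₀ - H t₀) i).trans h8
      have h10 := (Complex.abs_re_le_norm _).trans h9
      rw [Pi.sub_apply, Complex.sub_re, hre i, sub_zero] at h10
      exact h10
    have h8 : |(u ν i).re| ≤ ε / 3 * r ν := by
      rw [hu2 ν i]
      exact (abs_log_le (hyA ν i).1 (hyA ν i).2 (hy0 ν i)).trans h2
    have h9 : |r ν * (X ν t₀ i).re - (u ν i).re| ≤ r ν * (ε / 3) + ε / 3 * r ν := by
      refine (abs_sub _ _).trans (add_le_add ?_ h8)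
      rw [abs_mul, abs_of_pos (hr0 ν)]
      exact mul_le_mul_of_nonneg_left h7 (hr0 ν).le
    rw [h6] at h4
    linarith
  -- the path
  have hr1 : ∀ᶠ ν in atTop, 1 / r ν ≤ δ / 2 :=
    (hr.const_div_atTop 1).eventually_le_const (by positivity)
  filter_upwards [huo, hsmall (c₀ * δ / 4) (by positivity), hr1] with ν huo hsm hr1
  have hrν := hr0 ν
  set x : Ew d → Fin n → ℂ := fun t => (r ν : ℂ) • X ν t with hx
  have hxd : DifferentiableOn ℂ x (ball t₀ ρ) := (hX ν).const_smul (r ν : ℂ)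
  have hv₀ : (t₀, u ν) ∈ Fam ξ υ x (ball t₀ ρ) := by
    refine ⟨ht₀, ?_⟩
    have : (fun i => Complex.exp ((t₀, u ν).2 i)) = y ν := funext fun i => hu1 ν i
    rw [this]
    exact hyV ν
  have hp₀ : pf Z B β x (t₀, u ν) ≠ 0 := by
    unfold pf
    have : (fun j => Complex.exp ((t₀, u ν).2 (B j))) = fun j => y ν (B j) :=
      funext fun j => hu1 ν (B j)
    rw [this]
    exact hyβ ν
  set N : ℕ := ⌈2 * ‖x t₀ - u ν‖ / c₀⌉₊ with hN
  have hN1 : 2 * ‖x t₀ - u ν‖ / c₀ ≤ N := Nat.le_ceil _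
  have hN2 : (N : ℝ) < 2 * ‖x t₀ - u ν‖ / c₀ + 1 := Nat.ceil_lt_add_one (by positivity)
  have happ : ∀ η : ℝ, 0 < η → ∃ v ∈ Fam ξ υ x (ball t₀ ρ), ‖v.1 - t₀‖ ≤ δ ∧
      ‖x v.1 - v.2‖ ≤ η := by
    intro η hη
    refine path (F := fun v => x v.1 - v.2) (p := pf Z B β x) hv₀ hp₀ (R := 1 / r ν) (c₀ := c₀)
      (by positivity) hc₀ N t₀ (fun v hv h1 h2 cc h3 η' hη' => huo v hv h1 h2 cc h3 η' hη') ?_ ?_ hη
    · change ‖x t₀ - u ν‖ ≤ _
      rw [div_le_iff₀ hc₀] at hN1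
      linarith
    · rw [sub_self, norm_zero, zero_add]
      have h1 : (N : ℝ) * (1 / r ν) ≤ (2 * ‖x t₀ - u ν‖ / c₀ + 1) * (1 / r ν) :=
        mul_le_mul_of_nonneg_right hN2.le (by positivity)
      have h2 : (2 * ‖x t₀ - u ν‖ / c₀ + 1) * (1 / r ν) =
          2 * ‖x t₀ - u ν‖ / c₀ * (1 / r ν) + 1 / r ν := by ring
      have h3 : 2 * ‖x t₀ - u ν‖ / c₀ * (1 / r ν) ≤ δ / 2 := by
        rw [div_mul_div_comm, mul_one, div_le_iff₀ (by positivity)]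
        have : ‖x t₀ - u ν‖ ≤ c₀ * δ / 4 * r ν := hsm
        nlinarith
      linarith
  have hKb : closedBall t₀ δ ⊆ ball t₀ ρ := closedBall_subset_ball hδρ
  have hKset : {v | v ∈ Fam ξ υ x (ball t₀ ρ) ∧ ‖v.1 - t₀‖ ≤ δ ∧ ‖x v.1 - v.2‖ ≤ 1} =
      {v' | v' ∈ Fam ξ υ x (ball t₀ ρ) ∧ v'.1 ∈ closedBall t₀ δ ∧ ‖x v'.1 - v'.2 - 0‖ ≤ 1} := by
    ext v'
    simp only [mem_ofPred_eq, mem_closedBall, dist_eq_norm, sub_zero]
  have hKc : IsCompact {v | v ∈ Fam ξ υ x (ball t₀ ρ) ∧ ‖v.1 - t₀‖ ≤ δ ∧ ‖x v.1 - v.2‖ ≤ 1} := by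
    rw [hKset]
    exact fam_compact ξ υ x hxd.continuousOn (isCompact_closedBall _ _) hKb _ _
  obtain ⟨v, hv, h1, h2⟩ := exists_exact (F := fun v => x v.1 - v.2) hKc (by
    refine ContinuousOn.sub ?_ continuous_snd.continuousOn
    refine hxd.continuousOn.comp continuous_fst.continuousOn ?_
    rintro v' ⟨h1, -, -⟩
    exact h1.1) happ
  refine ⟨v.1, h1, ?_⟩
  have h3 : x v.1 = v.2 := sub_eq_zero.1 h2
  have h4 : (fun i => Complex.exp (v.2 i)) = fun i => Complex.exp ((r ν : ℂ) * X ν v.1 i) := by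
    funext i
    rw [← h3]
    rfl
  rw [← h4]
  exact hv.2

end Pool.Agent.Lib.MP_209724_lc.GP
end
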