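import Mathlib

namespace Pool.Agent.Lib.MP_209724_lc.GP

variable {n d k : ℕ}

/-- **Rank of forms supported on all sets of `k + 1` coordinates.** Nonzero integral linear forms `a I`,
one for each set `I` of `k + 1` coordinates, supported on `I`, span a space of dimension at least
`d = n - k`, so that `d` of them are linearly independent.

Proof. Let `R` be the span of the `a I` in `ℚ^n` (or `ℂ^n`), `H = {v | a I · v = 0 for all I}` its
orthogonal space. If `dim R ≤ d - 1` then `dim H ≥ n - d + 1 = k + 1`. The rank of the coordinate
functionals on `H` is `dim H ≥ k + 1`, so there is a set `I` of `k + 1` coordinates whose restrictions to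
`H` are linearly independent functionals (extract a basis from the spanning family of the restrictions
of the coordinates to `H`, a family of vectors in the dual of `H`: `exists_linearIndependent` or
`Basis` extraction; then shrink to exactly `k + 1`). But `∑_{i ∈ I} a I i v_i = 0` for all `v ∈ H` with
`a I ≠ 0`: a contradiction. So `dim R ≥ d`, and a maximal linearly independent subfamily of the `a I` has
at least `d` elements. -/
theorem exists_rows (hdk : d + k = n)
    (a : {I : Finset (Fin n) // I.card = k + 1} → Fin n → ℤ) (ha : ∀ I, a I ≠ 0)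
    (hs : ∀ I, ∀ i, i ∉ I.1 → a I i = 0) :
    ∃ s : Fin d → {I : Finset (Fin n) // I.card = k + 1},
      LinearIndependent ℤ (fun j => a (s j)) := by
  classical
  obtain ⟨b, hb⟩ : ∃ b : {I : Finset (Fin n) // I.card = k + 1} → Fin n → ℚ,
    b = fun I i => (a I i : ℚ) := ⟨_, rfl⟩
  obtain ⟨R, hR⟩ : ∃ R : Submodule ℚ (Fin n → ℚ), R = Submodule.span ℚ (Set.range b) := ⟨_, rfl⟩
  -- the dimension of the span
  have hdim : d ≤ Module.finrank ℚ R := by
    by_contra hcon
    rw [not_le] at hcon
    obtain ⟨v, hv⟩ : ∃ v : Fin n → (Fin n → ℚ) ⧸ R,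
      v = fun i => Submodule.Quotient.mk (Pi.single i 1) := ⟨_, rfl⟩
    have hvspan : Submodule.span ℚ (Set.range v) = ⊤ := by
      rw [eq_top_iff]
      rintro x -
      obtain ⟨y, rfl⟩ := Submodule.Quotient.mk_surjective R x
      have h1 : y = ∑ i, y i • (Pi.single i 1 : Fin n → ℚ) := by
        ext j
        rw [Finset.sum_apply, Finset.sum_eq_single j]
        · simp
        · intro i _ hij
          simp [Pi.single_apply, hij.symm]
        · intro h
          exact absurd (Finset.mem_univ _) h
      have h2 : (Submodule.Quotient.mk y : (Fin n → ℚ) ⧸ R) = ∑ i, y i • v i := by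
        have h3 := congrArg (Submodule.mkQ R) h1
        rw [map_sum] at h3
        rw [Submodule.mkQ_apply] at h3
        rw [h3]
        refine Finset.sum_congr rfl fun i _ => ?_
        rw [map_smul, hv]
        rfl
      rw [h2]
      exact Submodule.sum_mem _ fun i _ => Submodule.smul_mem _ _
        (Submodule.subset_span ⟨i, rfl⟩)
    obtain ⟨κ, c, hc, hcspan, hcli⟩ := exists_linearIndependent' (K := ℚ) v
    rw [hvspan] at hcspan
    have hfin : Finite κ := Finite.of_injective c hc
    let _ : Fintype κ := Fintype.ofFinite κ
    have hcard : Fintype.card κ = Module.finrank ℚ ((Fin n → ℚ) ⧸ R) := by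
      rw [← finrank_span_eq_card hcli, hcspan, finrank_top]
    have hquot := Submodule.finrank_quotient_add_finrank R
    rw [Module.finrank_fin_fun] at hquot
    have hcardim : (Finset.univ.image c).card = Fintype.card κ := by
      rw [Finset.card_image_of_injective _ hc, Finset.card_univ]
    obtain ⟨I, hIsub, hIcard⟩ := Finset.exists_subset_card_eq
      (s := Finset.univ.image c) (n := k + 1) (by omega)
    have hli : LinearIndepOn ℚ v (I : Set (Fin n)) := by
      have h1 : LinearIndepOn ℚ v (Set.range c) := (linearIndepOn_range_iff hc v).mpr hcli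
      apply h1.mono
      intro i hi
      have := hIsub (Finset.mem_coe.mp hi)
      rw [Finset.mem_image] at this
      obtain ⟨x, -, hx⟩ := this
      exact ⟨x, hx⟩
    rw [linearIndepOn_finset_iff] at hli
    apply ha ⟨I, hIcard⟩
    have hzero := hli (fun i => (a ⟨I, hIcard⟩ i : ℚ)) (by
      have h1 : b ⟨I, hIcard⟩ = ∑ i ∈ I, (a ⟨I, hIcard⟩ i : ℚ) • (Pi.single i 1 : Fin n → ℚ) := by
        ext j
        rw [Finset.sum_apply, hb]
        by_cases hj : j ∈ I
        · rw [Finset.sum_eq_single j]
          · simp
          · intro i _ hij
            simp [Pi.single_apply, hij.symm]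
          · intro h
            exact absurd hj h
        · simp only
          rw [hs ⟨I, hIcard⟩ j hj]
          symm
          rw [Int.cast_zero]
          apply Finset.sum_eq_zero
          intro i hi
          have : j ≠ i := fun h => hj (h ▸ hi)
          simp [Pi.single_apply, this]
      have h2 : (Submodule.Quotient.mk (b ⟨I, hIcard⟩) : (Fin n → ℚ) ⧸ R) = 0 := by
        rw [Submodule.Quotient.mk_eq_zero, hR]
        exact Submodule.subset_span ⟨_, rfl⟩
      rw [← h2]
      have h3 := congrArg (Submodule.mkQ R) h1
      rw [map_sum] at h3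
      rw [Submodule.mkQ_apply] at h3
      rw [h3]
      refine Finset.sum_congr rfl fun i _ => ?_
      rw [map_smul, hv]
      rfl)
    ext i
    by_cases hi : i ∈ I
    · have := hzero i hi
      simpa using this
    · exact hs ⟨I, hIcard⟩ i hi
  -- a maximal linearly independent subfamily
  obtain ⟨κ, c, hc, hcspan, hcli⟩ := exists_linearIndependent' (K := ℚ) b
  rw [← hR] at hcspan
  have hfin : Finite κ := Finite.of_injective c hc
  let _ : Fintype κ := Fintype.ofFinite κ
  have hcard : Fintype.card κ = Module.finrank ℚ R := by
    rw [← finrank_span_eq_card hcli, hcspan]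
  obtain ⟨f⟩ : Nonempty (Fin d ↪ κ) := by
    apply Function.Embedding.nonempty_of_card_le
    rw [Fintype.card_fin, hcard]
    exact hdim
  refine ⟨fun j => c (f j), ?_⟩
  have h1 : LinearIndependent ℚ (fun j : Fin d => b (c (f j))) := hcli.comp f f.injective
  have h2 : LinearIndependent ℤ (fun j : Fin d => b (c (f j))) :=
    h1.restrict_scalars (by
      intro x y hxy
      simpa using hxy)
  let g : (Fin n → ℤ) →ₗ[ℤ] (Fin n → ℚ) :=
    { toFun := fun x i => (x i : ℚ)
      map_add' := by
        intro x y
        ext i
        simp
      map_smul' := by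
        intro m x
        ext i
        simp }
  apply LinearIndependent.of_comp g
  have h3 : (g ∘ fun j => a (c (f j))) = fun j : Fin d => b (c (f j)) := by
    funext j
    rw [hb]
    rfl
  rw [h3]
  exact h2

end Pool.Agent.Lib.MP_209724_lc.GP
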