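import Mathlib
import Pool.Agent.Lib.MP_209724_lc.GS.CurveB
import Pool.Agent.Lib.MP_209724_lc.MV.Sheets
import Pool.Agent.Lib.MP_209724_lc.GF.LocalK
import Pool.Agent.Lib.MP_209724_lc.GS.AsmD
import Pool.Agent.Lib.MP_209724_lc.GP.Rows
import Pool.Agent.Lib.MP_209724_lc.GP.Local
import Pool.Agent.Lib.MP_209724_lc.GP.Low
import Pool.Agent.Lib.MP_209724_lc.GS.Comp
import Pool.Agent.Lib.MP_209724_lc.GS.Final

section

namespace Pool.Agent.Lib.MP_209724_lc.GP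

open MvPolynomial Filter Topology Metric Set
open GC (prj)

variable {n d k : ℕ}

/-- Homomorphisms of the coordinate algebra from points (any finite index type). -/
private theorem vc_hom_of_point {σ L : Type} [Field L] [Algebra ℂ L] (ξ : σ → L)
    (x : σ → ℂ) (hx : ∀ f : MvPolynomial σ ℂ, aeval ξ f = 0 → eval x f = 0)
    (hξ : ∀ i, ξ i ∈ Algebra.adjoin ℂ (Set.range ξ)) :
    ∃ φ : Algebra.adjoin ℂ (Set.range ξ) →ₐ[ℂ] ℂ, ∀ i, φ ⟨ξ i, hξ i⟩ = x i := by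
  obtain ⟨Φ, hΦ⟩ := MV.sheets_lift (Algebra.adjoin ℂ (Set.range ξ))
    (aeval ξ : MvPolynomial σ ℂ →ₐ[ℂ] L) (aeval x : MvPolynomial σ ℂ →ₐ[ℂ] ℂ)
    (fun s hs => by rw [aeval_eq_eval]; exact hx s hs) 1 (by simp) (by
      intro y hy
      rw [Algebra.adjoin_range_eq_range_aeval] at hy
      obtain ⟨s, hs⟩ := hy
      exact ⟨0, s, by rw [pow_zero, one_mul]; exact hs.symm⟩)
  refine ⟨Φ, fun i => ?_⟩
  rw [hΦ ⟨ξ i, hξ i⟩ 0 (X i) (by simp)]
  simp

/-- Points from homomorphisms of the coordinate algebra (any index type). -/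
private theorem vc_point_of_hom {σ L : Type} [Field L] [Algebra ℂ L] (ξ : σ → L)
    (hξ : ∀ i, ξ i ∈ Algebra.adjoin ℂ (Set.range ξ))
    (φ : Algebra.adjoin ℂ (Set.range ξ) →ₐ[ℂ] ℂ) (f : MvPolynomial σ ℂ)
    (hf : aeval ξ f = 0) : eval (fun i => φ ⟨ξ i, hξ i⟩) f = 0 := by
  rw [← MvPolynomial.aeval_eq_eval, ← MvPolynomial.comp_aeval_apply]
  have : aeval (fun i => (⟨ξ i, hξ i⟩ : Algebra.adjoin ℂ (Set.range ξ))) f = 0 := by
    apply Subtype.ext
    have h1 := MvPolynomial.comp_aeval_apply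
      (fun i => (⟨ξ i, hξ i⟩ : Algebra.adjoin ℂ (Set.range ξ)))
      (Algebra.adjoin ℂ (Set.range ξ)).val f
    simp only [Subalgebra.coe_val] at h1
    rw [h1, hf]
    rfl
  rw [this, map_zero]

/-- **Charts of `V`** with the coordinates `(Z x, y_B)` at the points where `β(Z x, y_B) ≠ 0`.

Proof. Let `ζ = Sum.elim (Z ξ) (υ ∘ B) : Fin d ⊕ Fin k → L`, `A = Algebra.adjoin ℂ (range (Sum.elim ξ υ))`,
finitely generated, containing `ζ`, with all elements algebraic over `adjoin ℂ (range ζ)` (`halg` and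
closure under `+`, `*`). `MV.exists_sheets ζ hind A` gives `β = b`. Given `(x₀, y₀)` on `V`, let
`φ₀ : A →ₐ[ℂ] ℂ` be the evaluation at the point (`GC.cover_hom_of_point`, whose proof works for any
finite index type; repeat it for `Sum.elim ξ υ` and index type `Fin n ⊕ Fin n`). Since
`{s | eval s β ≠ 0}` is open there is `δ > 0` with `eval s β ≠ 0` on `ball s₀ δ`,
`s₀ = Sum.elim (prj Z x₀) (y₀ ∘ B)`. Apply the statement of `exists_sheets` to
`E = Fin d ⊕ Fin k → ℂ`, `D = ball s₀ δ`, the identity `Z s = s`, `p₀ = s₀`, `φ₀`; put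
`Φ s i = Φ_s(ξ i)`, `Ψ s i = Φ_s(υ i)` (points from homomorphisms: `GC.cover_point_of_hom`, again for
`Sum.elim ξ υ`). -/
theorem exists_vchart {L : Type} [Field L] [Algebra ℂ L] (ξ υ : Fin n → L) (Z : Fin d → Fin n → ℂ)
    (B : Fin k → Fin n)
    (hind : AlgebraicIndependent ℂ
      (Sum.elim (fun j => ∑ i, algebraMap ℂ L (Z j i) * ξ i) (fun j => υ (B j))))
    (halg : ∀ i, IsAlgebraic (Algebra.adjoin ℂ (Set.range
      (Sum.elim (fun j => ∑ i, algebraMap ℂ L (Z j i) * ξ i) (fun j => υ (B j)))))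
      (Sum.elim ξ υ i)) :
    ∃ β : MvPolynomial (Fin d ⊕ Fin k) ℂ, β ≠ 0 ∧ ∀ x₀ y₀ : Fin n → ℂ, OnV ξ υ x₀ y₀ →
      eval (Sum.elim (prj Z x₀) fun j => y₀ (B j)) β ≠ 0 →
      ∃ (δ : ℝ) (Φ Ψ : (Fin d ⊕ Fin k → ℂ) → Fin n → ℂ), 0 < δ ∧
        Φ (Sum.elim (prj Z x₀) fun j => y₀ (B j)) = x₀ ∧
        Ψ (Sum.elim (prj Z x₀) fun j => y₀ (B j)) = y₀ ∧
        DifferentiableOn ℂ Φ (ball (Sum.elim (prj Z x₀) fun j => y₀ (B j)) δ) ∧
        DifferentiableOn ℂ Ψ (ball (Sum.elim (prj Z x₀) fun j => y₀ (B j)) δ) ∧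
        ∀ s ∈ ball (Sum.elim (prj Z x₀) fun j => y₀ (B j)) δ, OnV ξ υ (Φ s) (Ψ s) ∧
          (∀ j, prj Z (Φ s) j = s (Sum.inl j)) ∧ ∀ j, Ψ s (B j) = s (Sum.inr j) := by
  classical
  set ω : Fin n ⊕ Fin n → L := Sum.elim ξ υ with hω
  set ζ : Fin d ⊕ Fin k → L :=
    Sum.elim (fun j => ∑ i, algebraMap ℂ L (Z j i) * ξ i) (fun j => υ (B j)) with hζ
  have hωA : ∀ i, ω i ∈ Algebra.adjoin ℂ (Set.range ω) := fun i =>
    Algebra.subset_adjoin ⟨i, rfl⟩
  have hζA : ∀ j, ζ j ∈ Algebra.adjoin ℂ (Set.range ω) := by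
    rintro (j | j)
    · exact Subalgebra.sum_mem _ fun i _ =>
        Subalgebra.mul_mem _ (Subalgebra.algebraMap_mem _ _) (hωA (Sum.inl i))
    · exact hωA (Sum.inr (B j))
  have hζl : ∀ j, (⟨ζ (Sum.inl j), hζA (Sum.inl j)⟩ : Algebra.adjoin ℂ (Set.range ω)) =
      ∑ i, algebraMap ℂ _ (Z j i) * ⟨ω (Sum.inl i), hωA (Sum.inl i)⟩ := by
    intro j
    apply Subtype.ext
    rw [AddSubmonoidClass.coe_finsetSum]
    rfl
  have hζr : ∀ j, (⟨ζ (Sum.inr j), hζA (Sum.inr j)⟩ : Algebra.adjoin ℂ (Set.range ω)) =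
      ⟨ω (Sum.inr (B j)), hωA (Sum.inr (B j))⟩ := by
    intro j
    apply Subtype.ext
    rfl
  have hFG : (Algebra.adjoin ℂ (Set.range ω)).FG :=
    ⟨(Set.finite_range ω).toFinset, by simp⟩
  have halgA : ∀ y ∈ Algebra.adjoin ℂ (Set.range ω),
      IsAlgebraic (Algebra.adjoin ℂ (Set.range ζ)) y := by
    intro y hy
    induction hy using Algebra.adjoin_induction with
    | mem y hy => obtain ⟨i, rfl⟩ := hy; exact halg i
    | algebraMap c =>
      have : algebraMap ℂ L c = algebraMap (Algebra.adjoin ℂ (Set.range ζ)) L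
          (algebraMap ℂ _ c) := rfl
      rw [this]
      exact isAlgebraic_algebraMap _
    | add a b _ _ ha hb => exact ha.add hb
    | mul a b _ _ ha hb => exact ha.mul hb
  obtain ⟨b, hb0, hsh⟩ := MV.exists_sheets ζ hind _ hFG hζA halgA
  refine ⟨b, hb0, fun x₀ y₀ hV hβ => ?_⟩
  set s₀ : Fin d ⊕ Fin k → ℂ := Sum.elim (prj Z x₀) fun j => y₀ (B j) with hs₀
  obtain ⟨φ₀, hφ₀⟩ := vc_hom_of_point ω (Sum.elim x₀ y₀) hV hωA
  -- coordinates of homomorphisms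
  have hcl : ∀ (φ : Algebra.adjoin ℂ (Set.range ω) →ₐ[ℂ] ℂ) (j : Fin d),
      φ ⟨ζ (Sum.inl j), hζA (Sum.inl j)⟩ =
        prj Z (fun i => φ ⟨ω (Sum.inl i), hωA (Sum.inl i)⟩) j := by
    intro φ j
    rw [hζl j, map_sum]
    unfold prj
    refine Finset.sum_congr rfl fun i _ => ?_
    rw [map_mul, AlgHom.commutes]
    rfl
  have hopen : {s : Fin d ⊕ Fin k → ℂ | eval s b ≠ 0} ∈ 𝓝 s₀ :=
    (MvPolynomial.continuous_eval _).continuousAt.eventually_ne hβ
  obtain ⟨δ, hδ, hδB⟩ := Metric.mem_nhds_iff.mp hopen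
  obtain ⟨Θ, hΘ0, hΘ1, hΘ2⟩ := hsh (Fin d ⊕ Fin k → ℂ) (ball s₀ δ) isOpen_ball
    (convex_ball s₀ δ) (fun s j => s j)
    (fun i => by
      intro p hp
      exact (ContinuousLinearMap.proj (R := ℂ) (φ := fun _ : Fin d ⊕ Fin k => ℂ) i).analyticAt p)
    (fun p hp => hδB hp) s₀ (mem_ball_self hδ) φ₀ (by
      rintro (j | j)
      · rw [hcl φ₀ j]
        simp only [hφ₀, Sum.elim_inl, hs₀]
      · rw [hζr j, hφ₀]
        simp only [Sum.elim_inr, hs₀])
  refine ⟨δ, fun s i => Θ s ⟨ω (Sum.inl i), hωA (Sum.inl i)⟩,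
    fun s i => Θ s ⟨ω (Sum.inr i), hωA (Sum.inr i)⟩, hδ, ?_, ?_, ?_, ?_, ?_⟩
  · funext i
    beta_reduce
    rw [hΘ0, hφ₀]
    rfl
  · funext i
    beta_reduce
    rw [hΘ0, hφ₀]
    rfl
  · rw [differentiableOn_pi]
    intro i
    exact hΘ2 _
  · rw [differentiableOn_pi]
    intro i
    exact hΘ2 _
  · intro s hs
    refine ⟨?_, fun j => ?_, fun j => ?_⟩
    · intro f hf
      have h1 := vc_point_of_hom ω hωA (Θ s) f hf
      have h2 : (Sum.elim (fun i => Θ s ⟨ω (Sum.inl i), hωA (Sum.inl i)⟩)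
          (fun i => Θ s ⟨ω (Sum.inr i), hωA (Sum.inr i)⟩) : Fin n ⊕ Fin n → ℂ) =
          fun i => Θ s ⟨ω i, hωA i⟩ := by
        funext i
        rcases i with i | i <;> rfl
      change eval (Sum.elim (fun i => Θ s ⟨ω (Sum.inl i), hωA (Sum.inl i)⟩)
          (fun i => Θ s ⟨ω (Sum.inr i), hωA (Sum.inr i)⟩)) f = 0
      rw [h2]
      exact h1
    · rw [← hcl (Θ s) j]
      exact hΘ1 s hs (Sum.inl j)
    · have h1 := hΘ1 s hs (Sum.inr j)
      rw [hζr j] at h1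
      exact h1

end Pool.Agent.Lib.MP_209724_lc.GP
end

section

namespace Pool.Agent.Lib.MP_209724_lc.GD

open MvPolynomial
open GC (prj)

variable {n d : ℕ}

private lemma conj_eval_map (z : Fin n → ℂ) (f : MvPolynomial (Fin n) ℂ) :
    eval z (map (starRingEnd ℂ) f) =
      (starRingEnd ℂ) (eval (fun i => (starRingEnd ℂ) (z i)) f) := by
  induction f using MvPolynomial.induction_on with
  | C a => simp
  | add f g hf hg => rw [map_add, map_add, hf, hg, map_add, map_add]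
  | mul_X f i hf =>
    rw [map_mul, map_mul, hf, map_X, eval_X, map_mul, eval_X, map_mul, Complex.conj_conj]

private lemma conj_neg_eval (z : Fin n → ℂ) (f : MvPolynomial (Fin n) ℂ) :
    eval z (aeval (fun i => -X i : Fin n → MvPolynomial (Fin n) ℂ) f) =
      eval (fun i => -z i) f := by
  induction f using MvPolynomial.induction_on with
  | C a => rw [aeval_C, algebraMap_eq, eval_C, eval_C]
  | add f g hf hg => rw [map_add, map_add, hf, hg, map_add]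
  | mul_X f i hf =>
    rw [map_mul, aeval_X, map_mul, hf, map_mul, map_neg, eval_X, eval_X]

private lemma conj_pderiv_neg (k : Fin n) (f : MvPolynomial (Fin n) ℂ) :
    pderiv k (aeval (fun i => -X i : Fin n → MvPolynomial (Fin n) ℂ) f) =
      -(aeval (fun i => -X i : Fin n → MvPolynomial (Fin n) ℂ) (pderiv k f)) := by
  induction f using MvPolynomial.induction_on with
  | C a => rw [aeval_C, algebraMap_eq, pderiv_C, map_zero, neg_zero]
  | add f g hf hg => rw [map_add, map_add, hf, hg, map_add, map_add]; ring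
  | mul_X f i hf =>
    rw [map_mul, aeval_X, pderiv_mul, pderiv_mul, hf, map_neg, map_add, map_mul, map_mul, aeval_X]
    by_cases h : i = k
    · subst h
      rw [pderiv_X_self, map_one]
      ring
    · rw [pderiv_X_of_ne h, map_zero]
      ring

private lemma conj_star_mem (q : Ideal (MvPolynomial (Fin n) ℂ))
    (hreal : ∀ f ∉ q, ∃ η : Fin n → ℝ, (∀ h ∈ q, eval (fun i => (η i : ℂ)) h = 0) ∧
      eval (fun i => (η i : ℂ)) f ≠ 0) (f : MvPolynomial (Fin n) ℂ) (hf : f ∈ q) :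
    map (starRingEnd ℂ) f ∈ q := by
  by_contra hcon
  obtain ⟨η, h1, h2⟩ := hreal _ hcon
  apply h2
  rw [conj_eval_map]
  have h3 : (fun i => (starRingEnd ℂ) ((η i : ℂ))) = fun i => (η i : ℂ) := by
    funext i; exact Complex.conj_ofReal _
  rw [h3, h1 f hf, map_zero]

/-- **The ideal of a real cone is stable under `f(x) ↦ conj f(- conj x)`.**

Proof. Let `f* = map (starRingEnd ℂ) f`, so `eval z f* = conj (eval (conj z) f)` (`MvPolynomial.map`,
`eval₂`). If `f ∈ q`, then `f* ∈ q`: otherwise `hreal` gives a real zero `η` of `q` with `f*(η) ≠ 0`, but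
`f*(η) = conj f(η) = 0`. For a zero `z` of `q`, `- z` is a zero of `q` by `GP.scale_complex` (`c = -1`), so
`f*(-z) = 0`, that is `conj f(- conj z) = 0`. -/
theorem conj_zero (p q : Ideal (MvPolynomial (Fin n) ℂ)) [q.IsPrime]
    (hq1 : ∀ z : Fin n → ℂ, (∀ f ∈ q, eval z f = 0) → z ∈ GC.cone p)
    (hq2 : ∃ G ∉ q, ∀ z ∈ GC.cone p, eval z G ≠ 0 → ∀ f ∈ q, eval z f = 0)
    (hreal : ∀ f ∉ q, ∃ η : Fin n → ℝ, (∀ h ∈ q, eval (fun i => (η i : ℂ)) h = 0) ∧
      eval (fun i => (η i : ℂ)) f ≠ 0) (z : Fin n → ℂ) (hz : ∀ f ∈ q, eval z f = 0) :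
    ∀ f ∈ q, eval (fun i => -(starRingEnd ℂ) (z i)) f = 0 := by
  intro f hf
  obtain ⟨G₀, hG₀, hq2⟩ := hq2
  have h1 := GP.scale_complex p q hq1 G₀ hG₀ hq2 z hz (-1) _ (conj_star_mem q hreal f hf)
  rw [conj_eval_map] at h1
  have h2 := (map_eq_zero (starRingEnd ℂ)).mp h1
  have h3 : (fun i => (starRingEnd ℂ) (-1 * z i)) = fun i => -(starRingEnd ℂ) (z i) := by
    funext i; rw [neg_one_mul, map_neg]
  rwa [h3] at h2

/-- **Tangent spaces at purely imaginary points are stable under conjugation.**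

Proof. For `f ∈ q` let `f* = map (starRingEnd ℂ) f` and `h = aeval (fun i => - X i) f*`, i.e.
`h(x) = f*(-x)`. By `conj_zero` `h` vanishes on the zeros of `q` (`h(z) = conj f(- conj z)`), so `h ∈ q`
(`GS.mem_of_forall_zero`), and `∑ v_k ∂_k h(z) = 0`. As `- conj z = z`,
`∂_k h(z) = - (∂_k f)*(-z) = - conj (∂_k f(- conj z)) = - conj (∂_k f(z))`. So
`∑ v_k conj (∂_k f(z)) = 0`; conjugate. -/
theorem conj_tangent (p q : Ideal (MvPolynomial (Fin n) ℂ)) [q.IsPrime]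
    (hq1 : ∀ z : Fin n → ℂ, (∀ f ∈ q, eval z f = 0) → z ∈ GC.cone p)
    (hq2 : ∃ G ∉ q, ∀ z ∈ GC.cone p, eval z G ≠ 0 → ∀ f ∈ q, eval z f = 0)
    (hreal : ∀ f ∉ q, ∃ η : Fin n → ℝ, (∀ h ∈ q, eval (fun i => (η i : ℂ)) h = 0) ∧
      eval (fun i => (η i : ℂ)) f ≠ 0) (z : Fin n → ℂ) (hzre : ∀ i, (z i).re = 0)
    (v : Fin n → ℂ) (hv : ∀ f ∈ q, ∑ k, v k * eval z (pderiv k f) = 0) :
    ∀ f ∈ q, ∑ k, (starRingEnd ℂ) (v k) * eval z (pderiv k f) = 0 := by
  intro f hf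
  have hmem : aeval (fun i => -X i : Fin n → MvPolynomial (Fin n) ℂ) (map (starRingEnd ℂ) f) ∈ q := by
    refine GS.mem_of_forall_zero q _ fun w hw => ?_
    rw [conj_neg_eval, conj_eval_map]
    have h3 : (fun i => (starRingEnd ℂ) (-w i)) = fun i => -(starRingEnd ℂ) (w i) := by
      funext i; rw [map_neg]
    rw [h3, conj_zero p q hq1 hq2 hreal w hw f hf, map_zero]
  have h1 := hv _ hmem
  have hz' : (fun i => (starRingEnd ℂ) (-z i)) = z := by
    funext i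
    apply Complex.ext
    · simp [hzre i]
    · simp
  have h2 : ∀ k, eval z (pderiv k (aeval (fun i => -X i : Fin n → MvPolynomial (Fin n) ℂ)
      (map (starRingEnd ℂ) f))) = -(starRingEnd ℂ) (eval z (pderiv k f)) := by
    intro k
    rw [conj_pderiv_neg, map_neg, conj_neg_eval, pderiv_map, conj_eval_map, hz']
  simp only [h2] at h1
  have h4 := congrArg (starRingEnd ℂ) h1
  rw [map_sum, map_zero] at h4
  have h5 : ∑ k, (starRingEnd ℂ) (v k) * eval z (pderiv k f) =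
      -∑ k, (starRingEnd ℂ) (v k * -(starRingEnd ℂ) (eval z (pderiv k f))) := by
    rw [← Finset.sum_neg_distrib]
    refine Finset.sum_congr rfl fun k _ => ?_
    rw [map_mul, map_neg, Complex.conj_conj]
    ring
  rw [h5, h4, neg_zero]

/-- **The chart maps purely imaginary points to purely imaginary points** if the projection `Z` is real.

Proof. Let `z = H t` and `z' = - conj z`, a zero of `q` by `hconj`, so `z' ∈ S`. As `z₀ = - conj z₀`,
`‖z' - z₀‖ = ‖z - z₀‖ ≤ r₀`, so `z' = H (prj Z z')` and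
`prj Z z' = - conj (prj Z z) = - conj t = t`. So `z' = H t = z`. -/
theorem chart_imag (q : Ideal (MvPolynomial (Fin n) ℂ)) (Z : Fin d → Fin n → ℂ)
    (hZ : ∀ j i, (Z j i).im = 0) (S : Set (Fin n → ℂ))
    (hqS : ∀ z : Fin n → ℂ, (∀ f ∈ q, eval z f = 0) → z ∈ S)
    (hconj : ∀ z : Fin n → ℂ, (∀ f ∈ q, eval z f = 0) →
      ∀ f ∈ q, eval (fun i => -(starRingEnd ℂ) (z i)) f = 0)
    (H : (Fin d → ℂ) → Fin n → ℂ) (z₀ : Fin n → ℂ) (hz₀ : ∀ i, (z₀ i).re = 0) {r₀ : ℝ}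
    (huniq : ∀ w' ∈ S, ‖w' - z₀‖ ≤ r₀ → w' = H (prj Z w')) {t : Fin d → ℂ}
    (ht : ∀ j, (t j).re = 0) (hHt : ∀ f ∈ q, eval (H t) f = 0) (hZH : prj Z (H t) = t)
    (hnear : ‖H t - z₀‖ ≤ r₀) : ∀ i, (H t i).re = 0 := by
  have hr₀ : 0 ≤ r₀ := (norm_nonneg _).trans hnear
  set z' : Fin n → ℂ := fun i => -(starRingEnd ℂ) (H t i) with hz'def
  have hz'q : ∀ f ∈ q, eval z' f = 0 := hconj (H t) hHt
  have hz'near : ‖z' - z₀‖ ≤ r₀ := by
    rw [pi_norm_le_iff_of_nonneg hr₀]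
    intro i
    have h1 : (z' - z₀) i = -(starRingEnd ℂ) ((H t - z₀) i) := by
      apply Complex.ext
      · simp [hz'def, hz₀ i]
      · simp [hz'def]
        ring
    rw [h1, norm_neg, Complex.norm_conj]
    exact (norm_le_pi_norm _ i).trans hnear
  have h2 := huniq z' (hqS z' hz'q) hz'near
  have h3 : prj Z z' = t := by
    have h4 : ∀ j, prj Z z' j = -(starRingEnd ℂ) (prj Z (H t) j) := by
      intro j
      simp only [prj, hz'def]
      rw [map_sum, ← Finset.sum_neg_distrib]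
      refine Finset.sum_congr rfl fun i _ => ?_
      have h5 : (starRingEnd ℂ) (Z j i) = Z j i := Complex.conj_eq_iff_im.mpr (hZ j i)
      rw [map_mul, h5]
      ring
    funext j
    rw [h4 j, hZH]
    apply Complex.ext
    · simp [ht j]
    · simp
  rw [h3] at h2
  intro i
  have h6 := congrFun h2 i
  have h7 := congrArg Complex.re h6
  simp only [hz'def, Complex.neg_re, Complex.conj_re] at h7
  linarith

end Pool.Agent.Lib.MP_209724_lc.GD
end

section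

namespace Pool.Agent.Lib.MP_209724_lc.GD

open MvPolynomial Metric Set
open GC (prj)

variable {n d : ℕ}

/-- **The derivative of a chart is onto the tangent space.**

Proof. Let `w = fderiv ℂ H t (prj Z v) - v`. It is tangent (`GS.chart_tangent` and `hv`) and
`prj Z w = 0`, because `prj Z (fderiv ℂ H t b) = b` (differentiate `hZH`, as in the proof of
`GS.chart_injective`). By `hFD` `w i * eval (H t) (D i) = ∑ k, w k * ∂_k (F i)(H t) = 0`, so `w = 0`. -/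
theorem tangent_eq (q : Ideal (MvPolynomial (Fin n) ℂ)) (Z : Fin d → Fin n → ℂ)
    (H : (Fin d → ℂ) → Fin n → ℂ) {t₀ : Fin d → ℂ} {ρ : ℝ}
    (hH : DifferentiableOn ℂ H (ball t₀ ρ))
    (hHq : ∀ t ∈ ball t₀ ρ, ∀ f ∈ q, eval (H t) f = 0)
    (hZH : ∀ t ∈ ball t₀ ρ, prj Z (H t) = t) (F D : Fin n → MvPolynomial (Fin n) ℂ)
    (hF : ∀ i, F i ∈ q)
    (hFD : ∀ i, ∀ z b : Fin n → ℂ, prj Z b = 0 →
      ∑ k, b k * eval z (pderiv k (F i)) = b i * eval z (D i))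
    {t : Fin d → ℂ} (ht : t ∈ ball t₀ ρ) (hD : ∀ i, eval (H t) (D i) ≠ 0) (v : Fin n → ℂ)
    (hv : ∀ f ∈ q, ∑ k, v k * eval (H t) (pderiv k f) = 0) :
    fderiv ℂ H t (prj Z v) = v := by
  set w : Fin n → ℂ := fderiv ℂ H t (prj Z v) - v with hw
  have h0 : HasFDerivAt H (fderiv ℂ H t) t :=
    (hH.differentiableAt (isOpen_ball.mem_nhds ht)).hasFDerivAt
  have h1 : HasFDerivAt (fun z => GC.chartPrjL Z (H z)) ((GC.chartPrjL Z).comp (fderiv ℂ H t)) t :=
    (GC.chartPrjL Z).hasFDerivAt.comp t h0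
  have h2 : HasFDerivAt (fun z => GC.chartPrjL Z (H z)) (ContinuousLinearMap.id ℂ (Fin d → ℂ)) t := by
    refine (hasFDerivAt_id t).congr_of_eventuallyEq ?_
    filter_upwards [isOpen_ball.mem_nhds ht] with z' hz'
    rw [GC.chartPrjL_apply, hZH z' hz']
    rfl
  have h3 : ∀ b, prj Z (fderiv ℂ H t b) = b := by
    intro b
    have h4 := congrArg (fun L => L b) (h1.unique h2)
    simp only [ContinuousLinearMap.comp_apply, ContinuousLinearMap.id_apply] at h4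
    rw [GC.chartPrjL_apply] at h4
    exact h4
  have hprj : prj Z w = 0 := by
    rw [hw, ← GC.chartPrjL_apply, map_sub, GC.chartPrjL_apply, GC.chartPrjL_apply, h3, sub_self]
  have htan : ∀ f ∈ q, ∑ k, w k * eval (H t) (pderiv k f) = 0 := by
    intro f hf
    have h5 := GS.chart_tangent q H hH hHq ht (prj Z v) hf
    have h6 := hv f hf
    rw [hw]
    simp only [Pi.sub_apply, sub_mul, Finset.sum_sub_distrib]
    rw [h5, h6, sub_zero]
  have hw0 : w = 0 := by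
    funext i
    have h7 := hFD i (H t) w hprj
    rw [htan (F i) (hF i)] at h7
    rcases mul_eq_zero.1 h7.symm with h8 | h8
    · exact h8
    · exact absurd h8 (hD i)
  exact sub_eq_zero.1 hw0

/-- the linear map `v ↦ ∑ v_i ξ_i` -/
private noncomputable def evL {n : ℕ} {L : Type} [Field L] [Algebra ℂ L] (ξ : Fin n → L) :
    (Fin n → ℂ) →ₗ[ℂ] L where
  toFun v := ∑ i, algebraMap ℂ L (v i) * ξ i
  map_add' u v := by
    simp only [Pi.add_apply, map_add, add_mul, Finset.sum_add_distrib]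
  map_smul' c v := by
    simp only [Pi.smul_apply, smul_eq_mul, map_mul, RingHom.id_apply, Finset.mul_sum,
      Algebra.smul_def, mul_assoc]

private theorem evL_apply {n : ℕ} {L : Type} [Field L] [Algebra ℂ L] (ξ : Fin n → L)
    (v : Fin n → ℂ) : evL ξ v = ∑ i, algebraMap ℂ L (v i) * ξ i := rfl

private theorem evL_single {n : ℕ} {L : Type} [Field L] [Algebra ℂ L] (ξ : Fin n → L)
    (l : Fin n) : evL ξ (Pi.single l 1) = ξ l := by
  rw [evL_apply, Finset.sum_eq_single l]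
  · simp
  · intro j _ hj
    simp [Pi.single_eq_of_ne hj]
  · simp

private theorem evL_mem {n : ℕ} {L : Type} [Field L] [Algebra ℂ L] (ξ : Fin n → L)
    (v : Fin n → ℂ) : evL ξ v ∈ IntermediateField.adjoin ℂ (Set.range ξ) := by
  rw [evL_apply]
  refine sum_mem fun i _ => mul_mem (IntermediateField.algebraMap_mem _ _) ?_
  exact IntermediateField.subset_adjoin _ _ ⟨i, rfl⟩

/-- a transcendental linear form -/
private theorem exists_transc {n i : ℕ} {L : Type} [Field L] [Algebra ℂ L] (ξ : Fin n → L)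
    (htr : ((i + 1 : ℕ) : Cardinal) ≤ Algebra.trdeg ℂ (IntermediateField.adjoin ℂ (Set.range ξ)))
    (Z : Fin i → Fin n → ℂ) (hZ : AlgebraicIndependent ℂ (fun j => evL ξ (Z j))) :
    ∃ l, Transcendental (Algebra.adjoin ℂ (Set.range fun j => evL ξ (Z j))) (ξ l) := by
  by_contra hcon
  push Not at hcon
  set F := IntermediateField.adjoin ℂ (Set.range fun j => evL ξ (Z j)) with hF
  set K := IntermediateField.adjoin ℂ (Set.range ξ) with hK
  have h1 : ∀ l, IsAlgebraic F (ξ l) := by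
    intro l
    have h2 := hcon l
    rw [Transcendental, not_not] at h2
    exact IntermediateField.isAlgebraic_adjoin_iff.mpr h2
  have h2 : K ≤ (algebraicClosure F L).restrictScalars ℂ := by
    rw [hK, IntermediateField.adjoin_le_iff]
    rintro _ ⟨l, rfl⟩
    exact mem_algebraicClosure_iff.mpr (h1 l)
  let ζ' : Fin i → K := fun j => ⟨evL ξ (Z j), evL_mem ξ (Z j)⟩
  have h3 : AlgebraicIndependent ℂ ζ' := by
    rw [← AlgHom.algebraicIndependent_iff K.val K.val.injective]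
    exact hZ
  have h4 : Algebra.IsAlgebraic (Algebra.adjoin ℂ (Set.range ζ')) K := by
    constructor
    intro x
    by_contra hx
    have h5 := (h3.option_iff_transcendental x).mpr hx
    rw [← AlgHom.algebraicIndependent_iff K.val K.val.injective] at h5
    have h6 : (K.val ∘ fun o : Option (Fin i) => o.elim x ζ') =
        fun o : Option (Fin i) => o.elim (x : L) (fun j => evL ξ (Z j)) := by
      funext o
      rcases o with _ | j
      · rfl
      · rfl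
    rw [h6] at h5
    have h7 := (hZ.option_iff_transcendental (x : L)).mp h5
    apply h7
    rw [← IntermediateField.isAlgebraic_adjoin_iff]
    exact mem_algebraicClosure_iff.mp (h2 x.2)
  have h5 : IsTranscendenceBasis ℂ ζ' :=
    isTranscendenceBasis_iff_algebraicIndependent_isAlgebraic.mpr ⟨h3, h4⟩
  have h6 := h5.cardinalMk_eq_trdeg
  rw [← h6, Cardinal.mk_fintype, Fintype.card_fin] at htr
  have h7 : i + 1 ≤ i := by exact_mod_cast htr
  omega

private theorem alg_sub {n i : ℕ} {L : Type} [Field L] [Algebra ℂ L] (ξ : Fin n → L)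
    (Z : Fin i → Fin n → ℂ) (u v : Fin n → ℂ)
    (huv : IsAlgebraic (Algebra.adjoin ℂ (Set.range fun j => evL ξ (Z j))) (evL ξ (u + v)))
    (hu : IsAlgebraic (Algebra.adjoin ℂ (Set.range fun j => evL ξ (Z j))) (evL ξ u)) :
    IsAlgebraic (Algebra.adjoin ℂ (Set.range fun j => evL ξ (Z j))) (evL ξ v) := by
  rw [← IntermediateField.isAlgebraic_adjoin_iff] at huv hu ⊢
  have h1 : evL ξ v = evL ξ (u + v) - evL ξ u := by
    rw [map_add]
    ring
  rw [h1]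
  exact huv.sub hu

private theorem indep_cons {n i : ℕ} {L : Type} [Field L] [Algebra ℂ L] (ξ : Fin n → L)
    (Z : Fin i → Fin n → ℂ) (hZ : AlgebraicIndependent ℂ (fun j => evL ξ (Z j)))
    (v : Fin n → ℂ)
    (hv : Transcendental (Algebra.adjoin ℂ (Set.range fun j => evL ξ (Z j))) (evL ξ v)) :
    AlgebraicIndependent ℂ (fun j => evL ξ ((Fin.cons v Z : Fin (i + 1) → Fin n → ℂ) j)) := by
  have h1 := (hZ.option_iff_transcendental (evL ξ v)).mpr hv
  have h2 := h1.comp _ (finSuccEquiv i).injective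
  have h3 : (fun o : Option (Fin i) => o.elim (evL ξ v) fun j => evL ξ (Z j)) ∘
      (finSuccEquiv i) = fun j => evL ξ ((Fin.cons v Z : Fin (i + 1) → Fin n → ℂ) j) := by
    funext j
    refine Fin.cases ?_ (fun j => ?_) j
    · simp
    · simp
  rw [h3] at h2
  exact h2

private theorem exists_proj2_real_aux {n d : ℕ} {L₁ L₂ : Type} [Field L₁] [Algebra ℂ L₁] [Field L₂]
    [Algebra ℂ L₂] (ξ₁ : Fin n → L₁) (ξ₂ : Fin n → L₂)
    (htr₁ : (d : Cardinal) ≤ Algebra.trdeg ℂ (IntermediateField.adjoin ℂ (Set.range ξ₁)))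
    (htr₂ : (d : Cardinal) ≤ Algebra.trdeg ℂ (IntermediateField.adjoin ℂ (Set.range ξ₂)))
    (i : ℕ) (hi : i ≤ d) :
    ∃ Z : Fin i → Fin n → ℂ, (∀ j k, (Z j k).im = 0) ∧
      AlgebraicIndependent ℂ (fun j => evL ξ₁ (Z j)) ∧
      AlgebraicIndependent ℂ (fun j => evL ξ₂ (Z j)) := by
  induction i with
  | zero =>
    refine ⟨Fin.elim0, fun j => j.elim0, ?_, ?_⟩
    · rw [algebraicIndependent_empty_type_iff]
      exact (algebraMap ℂ L₁).injective
    · rw [algebraicIndependent_empty_type_iff]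
      exact (algebraMap ℂ L₂).injective
  | succ i ih =>
    obtain ⟨Z, hZr, hZ₁, hZ₂⟩ := ih (by omega)
    have htr₁' : ((i + 1 : ℕ) : Cardinal) ≤
        Algebra.trdeg ℂ (IntermediateField.adjoin ℂ (Set.range ξ₁)) :=
      le_trans (by exact_mod_cast hi) htr₁
    have htr₂' : ((i + 1 : ℕ) : Cardinal) ≤
        Algebra.trdeg ℂ (IntermediateField.adjoin ℂ (Set.range ξ₂)) :=
      le_trans (by exact_mod_cast hi) htr₂
    obtain ⟨l₁, hl₁⟩ := exists_transc ξ₁ htr₁' Z hZ₁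
    obtain ⟨l₂, hl₂⟩ := exists_transc ξ₂ htr₂' Z hZ₂
    rw [← evL_single ξ₁ l₁] at hl₁
    rw [← evL_single ξ₂ l₂] at hl₂
    have hsr : ∀ l k : Fin n, ((Pi.single l 1 : Fin n → ℂ) k).im = 0 := by
      intro l k
      by_cases h : k = l
      · subst h
        simp
      · simp [Pi.single_eq_of_ne h]
    obtain ⟨v, hvr, hv₁, hv₂⟩ : ∃ v : Fin n → ℂ, (∀ k, (v k).im = 0) ∧
        Transcendental (Algebra.adjoin ℂ (Set.range fun j => evL ξ₁ (Z j))) (evL ξ₁ v) ∧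
        Transcendental (Algebra.adjoin ℂ (Set.range fun j => evL ξ₂ (Z j))) (evL ξ₂ v) := by
      by_cases h1 : IsAlgebraic (Algebra.adjoin ℂ (Set.range fun j => evL ξ₁ (Z j)))
          (evL ξ₁ (Pi.single l₂ 1))
      · by_cases h2 : IsAlgebraic (Algebra.adjoin ℂ (Set.range fun j => evL ξ₂ (Z j)))
            (evL ξ₂ (Pi.single l₁ 1))
        · refine ⟨Pi.single l₂ 1 + Pi.single l₁ 1, ?_, ?_, ?_⟩
          · intro k
            rw [Pi.add_apply, Complex.add_im, hsr, hsr, add_zero]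
          · intro h
            exact hl₁ (alg_sub ξ₁ Z _ _ h h1)
          · intro h
            rw [add_comm] at h
            exact hl₂ (alg_sub ξ₂ Z _ _ h h2)
        · exact ⟨_, hsr l₁, hl₁, h2⟩
      · exact ⟨_, hsr l₂, h1, hl₂⟩
    refine ⟨Fin.cons v Z, ?_, indep_cons ξ₁ Z hZ₁ v hv₁, indep_cons ξ₂ Z hZ₂ v hv₂⟩
    intro j k
    refine Fin.cases ?_ (fun j => ?_) j
    · rw [Fin.cons_zero]
      exact hvr k
    · rw [Fin.cons_succ]
      exact hZr j k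

/-- **Real projections.** As `GS.exists_proj2` (`GS/Proj2.lean`), with real matrices.

Proof. Copy the proof of `GS.exists_proj2`: the rows found there are sums of one or two of the unit
vectors, hence real. -/
theorem exists_proj2_real {L₁ L₂ : Type} [Field L₁] [Algebra ℂ L₁] [Field L₂] [Algebra ℂ L₂]
    (ξ₁ : Fin n → L₁) (ξ₂ : Fin n → L₂)
    (htr₁ : (d : Cardinal) ≤ Algebra.trdeg ℂ (IntermediateField.adjoin ℂ (Set.range ξ₁)))
    (htr₂ : (d : Cardinal) ≤ Algebra.trdeg ℂ (IntermediateField.adjoin ℂ (Set.range ξ₂))) :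
    ∃ Z : Fin d → Fin n → ℂ, (∀ j i, (Z j i).im = 0) ∧
      AlgebraicIndependent ℂ (fun j => ∑ i, algebraMap ℂ L₁ (Z j i) * ξ₁ i) ∧
      AlgebraicIndependent ℂ (fun j => ∑ i, algebraMap ℂ L₂ (Z j i) * ξ₂ i) := by
  exact exists_proj2_real_aux ξ₁ ξ₂ htr₁ htr₂ d le_rfl

end Pool.Agent.Lib.MP_209724_lc.GD
end

section

namespace Pool.Agent.Lib.MP_209724_lc.GP

open MvPolynomial
open GC (prj)

variable {n d k : ℕ}

/-- **The selections are nondegenerate at the generic points of `Z`.** `S I` is a finite set of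
exponents supported on `I`, for each set `I` of `k + 1` coordinates; `hgp`: any `d` linearly
independent integral forms are algebraically independent on `Z`.

Proof. For each selection `s = (α, β)`, `α I ≠ β I` in `S I`, apply `exists_rows` to `a I = α I - β I` to
get `d` linearly independent rows, and `exists_tangent_poly` (with `hgp`) to get `G_s ∉ q`. There are
finitely many selections up to the values (`α, β` restricted to the finite type of the `I`, with values in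
finite sets; e.g. the finite type `∀ I, {p : S I × S I // p.1 ≠ p.2}`); let `G` be the product of the
`G_s`; it is not in the prime ideal `q`. -/
theorem exists_sel_poly (hdk : d + k = n) (q : Ideal (MvPolynomial (Fin n) ℂ)) [q.IsPrime]
    (hqd : Algebra.trdeg ℂ (MvPolynomial (Fin n) ℂ ⧸ q) = d)
    (hgp : ∀ m : Fin d → Fin n → ℤ, LinearIndependent ℤ m →
      AlgebraicIndependent ℂ fun j => Ideal.Quotient.mk q (∑ k, C (m j k : ℂ) * X k))
    (S : {I : Finset (Fin n) // I.card = k + 1} → Finset (Fin n → ℕ))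
    (hS : ∀ I, ∀ α ∈ S I, ∀ i, i ∉ I.1 → α i = 0) :
    ∃ G ∉ q, ∀ z : Fin n → ℂ, (∀ f ∈ q, eval z f = 0) → eval z G ≠ 0 → ∀ b : Fin n → ℂ,
      (∀ f ∈ q, ∑ k, b k * eval z (pderiv k f) = 0) →
      ∀ α β : {I : Finset (Fin n) // I.card = k + 1} → Fin n → ℕ,
        (∀ I, α I ∈ S I ∧ β I ∈ S I ∧ α I ≠ β I) →
        (∀ I, ∑ i, ((α I i : ℂ) - β I i) * b i = 0) → b = 0 := by
  classical
  set T := ∀ I : {I : Finset (Fin n) // I.card = k + 1},
    {p : {x // x ∈ S I} × {x // x ∈ S I} // p.1 ≠ p.2} with hT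
  have key : ∀ s : T, ∃ G ∉ q, ∀ z : Fin n → ℂ, (∀ f ∈ q, eval z f = 0) → eval z G ≠ 0 →
      ∀ b : Fin n → ℂ, (∀ f ∈ q, ∑ k, b k * eval z (pderiv k f) = 0) →
      (∀ I, ∑ i, (((s I).1.1.1 i : ℂ) - (s I).1.2.1 i) * b i = 0) → b = 0 := by
    intro s
    obtain ⟨r, hr⟩ := exists_rows hdk (fun I i => ((s I).1.1.1 i : ℤ) - (s I).1.2.1 i)
      (by
        intro I h
        apply (s I).2
        apply Subtype.ext
        funext i
        have h1 := congrFun h i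
        have h2 : ((s I).1.1.1 i : ℤ) - (s I).1.2.1 i = 0 := h1
        omega)
      (by
        intro I i hi
        show ((s I).1.1.1 i : ℤ) - (s I).1.2.1 i = 0
        rw [hS I _ (s I).1.1.2 i hi, hS I _ (s I).1.2.2 i hi]
        rfl)
    obtain ⟨G, hG, h⟩ := exists_tangent_poly q hqd
      (fun j k => (((((s (r j)).1.1.1 k : ℤ) - (s (r j)).1.2.1 k : ℤ)) : ℂ)) (hgp _ hr)
    refine ⟨G, hG, fun z hz hGz b hb hab => h z hz hGz b hb fun j => ?_⟩
    have h1 := hab (r j)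
    rw [← h1]
    refine Finset.sum_congr rfl fun i _ => ?_
    push_cast
    rfl
  choose G hG hGs using key
  have : Fintype T := Fintype.ofFinite T
  refine ⟨∏ s, G s, ?_, ?_⟩
  · rw [Ideal.IsPrime.prod_mem_iff]
    rintro ⟨s, _, hs⟩
    exact hG s hs
  · intro z hz hGz b hb α β hαβ hab
    rw [map_prod, Finset.prod_ne_zero_iff] at hGz
    have hs : ∃ s : T, ∀ I, (s I).1.1.1 = α I ∧ (s I).1.2.1 = β I := by
      refine ⟨fun I => ⟨(⟨α I, (hαβ I).1⟩, ⟨β I, (hαβ I).2.1⟩), ?_⟩, fun I => ⟨rfl, rfl⟩⟩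
      intro h
      exact (hαβ I).2.2 (congrArg Subtype.val h)
    obtain ⟨s, hs⟩ := hs
    refine hGs s z hz (hGz s (Finset.mem_univ s)) b hb fun I => ?_
    rw [(hs I).1, (hs I).2]
    exact hab I

end Pool.Agent.Lib.MP_209724_lc.GP
end

section

/-!
# Exponential points on all varieties of dimension `n` over a variety in general position at infinity
-/

namespace Pool.Agent.Lib.MP_209724_lc.GP

open MvPolynomial Filter Topology Metric Set
open GC (prj cone)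
open GS (Ew)
open MV (lead)

variable {n d k : ℕ}

/-- composition with the linear forms `Z` -/
noncomputable def pull (Z : Fin d → Fin n → ℂ) (N : MvPolynomial (Fin d) ℂ) :
    MvPolynomial (Fin n) ℂ := aeval (fun j => ∑ i, C (Z j i) * X i) N

theorem eval_pull (Z : Fin d → Fin n → ℂ) (N : MvPolynomial (Fin d) ℂ) (z : Fin n → ℂ) :
    eval z (pull Z N) = eval (prj Z z) N := by
  rw [pull, ← MvPolynomial.aeval_eq_eval, ← MvPolynomial.aeval_eq_eval]
  rw [← AlgHom.comp_apply, MvPolynomial.comp_aeval]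
  congr 2
  funext j
  simp [prj]

theorem aeval_pull {L : Type} [Field L] [Algebra ℂ L] (ξ : Fin n → L) (Z : Fin d → Fin n → ℂ)
    (N : MvPolynomial (Fin d) ℂ) :
    aeval ξ (pull Z N) = aeval (fun j => ∑ i, algebraMap ℂ L (Z j i) * ξ i) N := by
  rw [pull, ← AlgHom.comp_apply, MvPolynomial.comp_aeval]
  congr 2
  funext j
  simp

theorem pull_ne_zero {L : Type} [Field L] [Algebra ℂ L] (ξ : Fin n → L) (Z : Fin d → Fin n → ℂ)
    (hZ : AlgebraicIndependent ℂ fun j => ∑ i, algebraMap ℂ L (Z j i) * ξ i)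
    {N : MvPolynomial (Fin d) ℂ} (hN : N ≠ 0) : aeval ξ (pull Z N) ≠ 0 := by
  rw [aeval_pull]
  intro h0
  exact hN ((algebraicIndependent_iff.mp hZ) N h0)

/-- growth of polynomials -/
theorem log_growth (C : ℝ) (N M : ℕ) (R : ℝ) (r : ℕ → ℝ)
    (hr : Tendsto r atTop atTop) (ε : ℝ) (hε : 0 < ε) :
    ∀ᶠ ν in atTop, Real.log (max C 1 * (1 + |R| * r ν) ^ N / (r ν ^ M)⁻¹) ≤ ε * r ν := by
  obtain ⟨K, hK⟩ : ∃ K : ℝ, K = max C 1 * (1 + |R|) ^ N := ⟨_, rfl⟩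
  have hC : (1 : ℝ) ≤ max C 1 := le_max_right _ _
  have hR : (1 : ℝ) ≤ 1 + |R| := le_add_of_nonneg_right (abs_nonneg R)
  have hK1 : 1 ≤ K := by
    rw [hK]
    exact one_le_mul_of_one_le_of_one_le hC (one_le_pow₀ hR)
  have hlog : ∀ᶠ x : ℝ in atTop, Real.log x ≤ ε / (2 * (N + M + 1)) * x := by
    have h1 := Real.isLittleO_log_id_atTop.bound (c := ε / (2 * (N + M + 1))) (by positivity)
    filter_upwards [h1, eventually_ge_atTop 1] with x hx hx1
    simp only [Real.norm_eq_abs, id_eq] at hx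
    rw [abs_of_nonneg (show (0 : ℝ) ≤ x by linarith)] at hx
    exact (le_abs_self _).trans hx
  have hK2 : ∀ᶠ ν in atTop, Real.log K ≤ ε / 2 * r ν :=
    (hr.const_mul_atTop (show 0 < ε / 2 by positivity)).eventually_ge_atTop _
  filter_upwards [hr.eventually hlog, hK2, hr.eventually_ge_atTop 1] with ν h1 h2 h3
  have h0 : 0 < r ν := by linarith
  have h4 : max C 1 * (1 + |R| * r ν) ^ N / (r ν ^ M)⁻¹ ≤ K * r ν ^ (N + M) := by
    rw [div_inv_eq_mul, hK, pow_add]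
    have h5 : 1 + |R| * r ν ≤ (1 + |R|) * r ν := by nlinarith [abs_nonneg R]
    have h6 : (1 + |R| * r ν) ^ N ≤ ((1 + |R|) * r ν) ^ N :=
      pow_le_pow_left₀ (by positivity) h5 N
    calc max C 1 * (1 + |R| * r ν) ^ N * r ν ^ M
        ≤ max C 1 * ((1 + |R|) * r ν) ^ N * r ν ^ M := by gcongr
      _ = _ := by rw [mul_pow]; ring
  have h5 : 0 < max C 1 * (1 + |R| * r ν) ^ N / (r ν ^ M)⁻¹ := by positivity
  refine (Real.log_le_log h5 h4).trans ?_
  rw [Real.log_mul (by positivity) (by positivity), Real.log_pow]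
  have h6 : ((N + M : ℕ) : ℝ) * Real.log (r ν) ≤ ε / 2 * r ν := by
    have h7 : 0 ≤ Real.log (r ν) := Real.log_nonneg h3
    calc ((N + M : ℕ) : ℝ) * Real.log (r ν) ≤ (N + M + 1) * Real.log (r ν) := by
          push_cast
          nlinarith
      _ ≤ (N + M + 1) * (ε / (2 * (N + M + 1)) * r ν) := by gcongr
      _ = _ := by field_simp
  linarith

/-- **Exponential points.** -/
theorem core (hd : 0 < d) (hdk : d + k = n) {L : Type} [Field L] [Algebra ℂ L] (ξ υ : Fin n → L)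
    (hυ : ∀ i, υ i ≠ 0)
    (hgen : ∀ z : L, IsAlgebraic (Algebra.adjoin ℂ (Set.range (Sum.elim ξ υ))) z)
    (hξd : Algebra.trdeg ℂ (IntermediateField.adjoin ℂ (Set.range ξ)) = d)
    (hL : Algebra.trdeg ℂ L = n) (p : Ideal (MvPolynomial (Fin n) ℂ))
    (hp : ∀ c, c ∈ p ↔ aeval ξ c = 0) (q : Ideal (MvPolynomial (Fin n) ℂ)) [hqp : q.IsPrime]
    (hq : Algebra.trdeg ℂ (MvPolynomial (Fin n) ℂ ⧸ q) = d)
    (hq1 : ∀ z : Fin n → ℂ, (∀ f ∈ q, eval z f = 0) → z ∈ cone p)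
    (hq2 : ∃ G ∉ q, ∀ z ∈ cone p, eval z G ≠ 0 → ∀ f ∈ q, eval z f = 0)
    (hreal : ∀ f ∉ q, ∃ η : Fin n → ℝ, (∀ h ∈ q, eval (fun i => (η i : ℂ)) h = 0) ∧
      eval (fun i => (η i : ℂ)) f ≠ 0)
    (hgp : ∀ m : Fin d → Fin n → ℤ, LinearIndependent ℤ m →
      AlgebraicIndependent ℂ fun j => Ideal.Quotient.mk q (∑ k, C (m j k : ℂ) * X k))
    (g : MvPolynomial (Fin n) ℂ) (hg : aeval ξ g ≠ 0) (M : ℝ) :
    ∃ x : Fin n → ℂ, M < ‖x‖ ∧ OnV ξ υ x (fun i => Complex.exp (x i)) ∧ eval x g ≠ 0 := by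
  classical
  have hcone2 := hq2
  obtain ⟨G₁, hG₁, hq2⟩ := hq2
  obtain ⟨L₂, _, _, ξ₂, hξ₂, htr₂⟩ := GS.exists_generic_pt q hq
  obtain ⟨Z, hZ₁, hZ₂⟩ := GS.exists_proj2 ξ ξ₂ (d := d) (by rw [hξd]) (by rw [htr₂])
  set ζ₁ : Fin d → L := fun j => ∑ i, algebraMap ℂ L (Z j i) * ξ i with hζ₁
  set ζ₂ : Fin d → L₂ := fun j => ∑ i, algebraMap ℂ L₂ (Z j i) * ξ₂ i with hζ₂
  have hmem : ∀ {L : Type} [Field L] [Algebra ℂ L] (ξ : Fin n → L) (j : Fin d),
      ∑ i, algebraMap ℂ L (Z j i) * ξ i ∈ IntermediateField.adjoin ℂ (Set.range ξ) := by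
    intro L _ _ ξ j
    refine sum_mem fun i _ => mul_mem ?_ (IntermediateField.subset_adjoin _ _ ⟨i, rfl⟩)
    exact IntermediateField.algebraMap_mem _ _
  have halg₁ : ∀ i, IsAlgebraic (Algebra.adjoin ℂ (Set.range ζ₁)) (ξ i) := fun i =>
    GS.isAlgebraic_coord ξ hξd ζ₁ (hmem ξ) hZ₁ i
  have halg₂ : ∀ i, IsAlgebraic (Algebra.adjoin ℂ (Set.range ζ₂)) (ξ₂ i) := fun i =>
    GS.isAlgebraic_coord ξ₂ htr₂ ζ₂ (hmem ξ₂) hZ₂ i
  choose F₂ D₂ hF₂ hD₂ hFD₂ using fun i => GS.exists_rel ξ₂ Z ζ₂ (fun j => rfl) hZ₂ i (halg₂ i)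
  choose F₁ D₁ hF₁ hD₁ hFD₁ using fun i => GS.exists_rel ξ Z ζ₁ (fun j => rfl) hZ₁ i (halg₁ i)
  -- coordinates on `V`
  obtain ⟨B, -, hB, hBalg⟩ := exists_B ξ υ hgen (trdeg_over ξ hξd hL hdk)
  have hind := indep_sum ξ ζ₁ (hmem ξ) hZ₁ (fun j => υ (B j)) hB
  have halgV : ∀ z : L, IsAlgebraic (Algebra.adjoin ℂ (Set.range
      (Sum.elim ζ₁ (fun j => υ (B j))))) z := fun z => alg_sum ξ ζ₁ _ halg₁ z (hBalg z)
  obtain ⟨β, hβ0, hV⟩ := exists_vchart ξ υ Z B hind fun i => halgV _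
  set Dβ : MvPolynomial (Fin n ⊕ Fin n) ℂ := aeval (Sum.elim
    (fun j => ∑ i, C (Z j i) * X (Sum.inl i)) (fun j => X (Sum.inr (B j)))) β with hDβ
  have hDβe : ∀ x y : Fin n → ℂ, eval (Sum.elim x y) Dβ =
      eval (Sum.elim (prj Z x) fun j => y (B j)) β := by
    intro x y
    rw [hDβ, ← MvPolynomial.aeval_eq_eval, ← MvPolynomial.aeval_eq_eval, ← AlgHom.comp_apply,
      MvPolynomial.comp_aeval]
    congr 2
    funext j
    rcases j with j | j
    · simp [prj]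
    · simp
  have hDβ0 : aeval (Sum.elim ξ υ) Dβ ≠ 0 := by
    have h1 : aeval (Sum.elim ξ υ) Dβ = aeval (Sum.elim ζ₁ fun j => υ (B j)) β := by
      rw [hDβ, ← AlgHom.comp_apply, MvPolynomial.comp_aeval]
      congr 2
      funext j
      rcases j with j | j
      · simp [hζ₁]
      · simp
    rw [h1]
    intro h0
    exact hβ0 ((algebraicIndependent_iff.mp hind) β h0)
  obtain ⟨gc, Cc, Nc, hgc, hcen⟩ := exists_center ξ υ hυ B hB (fun i => hBalg (υ i)) Dβ hDβ0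
  -- the relations
  choose S c hSne hc0 hSsupp hrel using fun I : {I : Finset (Fin n) // I.card = k + 1} =>
    exists_rels ξ υ (k := k) (le_of_eq (trdeg_over ξ hξd hL hdk)) I.1 I.2
  obtain ⟨G₂, hG₂, hsel⟩ := exists_sel_poly hdk q hq hgp S hSsupp
  -- the polynomial which does not vanish on the sheets
  set gt : MvPolynomial (Fin n) ℂ := g * gc * (∏ i, D₁ i) * ∏ I, ∏ α ∈ S I, c I α with hgt
  have hgt0 : aeval ξ gt ≠ 0 := by
    rw [hgt]
    simp only [map_mul, map_prod]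
    refine mul_ne_zero (mul_ne_zero (mul_ne_zero hg hgc) ?_) ?_
    · exact Finset.prod_ne_zero_iff.2 fun i _ => hD₁ i
    · exact Finset.prod_ne_zero_iff.2 fun I _ => Finset.prod_ne_zero_iff.2 fun α hα => hc0 I α hα
  obtain ⟨βf, hβf, hfam⟩ := GS.exists_family p ξ hp Z ζ₁ (fun j => rfl) hZ₁ halg₁ gt
    (fun h => hgt0 ((hp _).1 h))
  -- bounds for the coefficients
  choose Nα hNα hbα using fun (I : {I : Finset (Fin n) // I.card = k + 1}) (α : S I) =>
    coeff_bounds ξ Z hZ₁ halg₁ (c I α.1) (hc0 I α.1 α.2)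
  obtain ⟨Ng, hNg, hbg⟩ := coeff_bounds ξ Z hZ₁ halg₁ gc hgc
  -- a coordinate which is not in `q`
  obtain ⟨k₀, hk₀⟩ : ∃ k₀ : Fin n, (X k₀ : MvPolynomial (Fin n) ℂ) ∉ q := by
    by_contra hcon
    push Not at hcon
    have h1 : ∀ i, ξ₂ i = 0 := by
      intro i
      have := (hξ₂ (X i)).1 (hcon i)
      rwa [aeval_X] at this
    have h2 : ζ₂ ⟨0, hd⟩ = 0 := by
      rw [hζ₂]
      simp [h1]
    exact hZ₂.ne_zero _ h2
  -- the point
  have hpull : ∀ {N : MvPolynomial (Fin d) ℂ}, N ≠ 0 → pull Z (lead N) ∉ q := fun hN h =>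
    pull_ne_zero ξ₂ Z hZ₂ (MV.lead_ne_zero hN) ((hξ₂ _).1 h)
  have hmul : ∀ {a b : MvPolynomial (Fin n) ℂ}, a ∉ q → b ∉ q → a * b ∉ q :=
    fun ha hb h => (hqp.mem_or_mem h).elim ha hb
  set pt : MvPolynomial (Fin n) ℂ := G₁ * G₂ * (∏ i, D₂ i) * pull Z (lead βf) *
    (∏ I, ∏ α : S I, pull Z (lead (Nα I α))) * pull Z (lead Ng) * X k₀ with hpt
  have hptq : pt ∉ q := by
    refine hmul (hmul (hmul (hmul (hmul (hmul hG₁ hG₂) ?_) (hpull hβf)) ?_) (hpull hNg)) hk₀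
    · rw [Ideal.IsPrime.prod_mem_iff (hp := hqp)]
      rintro ⟨i, _, hi⟩
      exact hD₂ i ((hξ₂ _).1 hi)
    · rw [Ideal.IsPrime.prod_mem_iff (hp := hqp)]
      rintro ⟨I, _, hI⟩
      rw [Ideal.IsPrime.prod_mem_iff (hp := hqp)] at hI
      obtain ⟨α, _, hα⟩ := hI
      exact hpull (hNα I α) hα
  obtain ⟨z₀, hz₀re, hz₀q, hz₀p⟩ := exists_imag p q hq1 hcone2 hreal pt hptq
  have hz₀c : z₀ ∈ cone p := hq1 z₀ hz₀q
  rw [hpt] at hz₀p
  simp only [map_mul, map_prod, mul_ne_zero_iff, Finset.prod_ne_zero_iff, Finset.mem_univ,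
    true_imp_iff, eval_X, eval_pull] at hz₀p
  obtain ⟨⟨⟨⟨⟨⟨hG₁z, hG₂z⟩, hDz⟩, hβz⟩, hNz⟩, hNgz⟩, hkz⟩ := hz₀p
  have hz₀0 : z₀ ≠ 0 := fun h => hkz (congrFun h k₀)
  -- the chart
  have hlin : LinearIndependent ℂ Z := GS.linearIndependent_rows ξ₂ Z hZ₂
  obtain ⟨σ, hσ⟩ := GS.exists_sigma hdk Z hlin
  have hFq : ∀ i, F₂ i ∈ q := fun i => (hξ₂ _).2 (hF₂ i)
  obtain ⟨H, ρ₁, r₀, ρ, hρ, hρρ₁, hr₀, hHd, hHw, hZH, hr₀Z, huniq, hHshell⟩ :=
    GS.exists_chart2 hdk (cone p) z₀ hz₀c (fun l => G₁ * F₂ (σ l)) (by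
      intro l w' hw'
      rw [map_mul]
      by_cases h : eval w' G₁ = 0
      · rw [h, zero_mul]
      · rw [hq2 w' hw' h _ (hFq _), mul_zero]) Z (by
      intro b hb hbZ
      refine hσ b hbZ fun l => ?_
      have h1 := hb l
      have h2 : ∑ i, b i * eval z₀ (pderiv i (G₁ * F₂ (σ l))) =
          eval z₀ G₁ * ∑ i, b i * eval z₀ (pderiv i (F₂ (σ l))) := by
        rw [Finset.mul_sum]
        refine Finset.sum_congr rfl fun i _ => ?_
        rw [pderiv_mul, map_add, map_mul, map_mul, hz₀q _ (hFq _)]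
        ring
      rw [h2, hFD₂ _ _ _ hbZ] at h1
      rcases mul_eq_zero.1 h1 with h3 | h3
      · exact absurd h3 hG₁z
      · rcases mul_eq_zero.1 h3 with h4 | h4
        · exact h4
        · exact absurd h4 (hDz _))
  have hclose := GC.closeness p z₀ Z H hHd.continuousOn hr₀Z huniq
  obtain ⟨ρ', r, X', hρ', hρ'ρ, hr0, hr, hXd, hXp, hXH⟩ :=
    hfam z₀ hz₀c hβz H ρ r₀ hρ hr₀ hHshell hclose
  -- a smaller ball
  have hHdρ : DifferentiableOn ℂ H (ball (prj Z z₀) ρ₁) := hHd.differentiableOn (by simp)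
  have hHc : ContinuousAt H (prj Z z₀) :=
    hHd.continuousOn.continuousAt (isOpen_ball.mem_nhds (mem_ball_self (hρ.trans_le hρρ₁)))
  have hHc' : Tendsto H (𝓝 (prj Z z₀)) (𝓝 z₀) := by
    have := hHc.tendsto
    rwa [hHw] at this
  have hev : ∀ᶠ z in 𝓝 (prj Z z₀), (eval (H z) G₁ ≠ 0 ∧ eval (H z) G₂ ≠ 0 ∧
      ‖z₀‖ / 2 < ‖H z‖) ∧ (eval z (lead Ng) ≠ 0 ∧ ∀ I, ∀ α : S I, eval z (lead (Nα I α)) ≠ 0) := by
    refine Filter.Eventually.and ?_ ?_
    · refine ((((MvPolynomial.continuous_eval G₁).tendsto z₀).comp hHc').eventually_ne hG₁z).and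
        (((((MvPolynomial.continuous_eval G₂).tendsto z₀).comp hHc').eventually_ne hG₂z).and ?_)
      exact hHc'.norm.eventually_const_lt (half_lt_self (norm_pos_iff.2 hz₀0))
    · refine Filter.Eventually.and ?_ ?_
      · exact (MvPolynomial.continuous_eval (lead Ng)).continuousAt.eventually_ne hNgz
      · rw [Filter.eventually_all]
        intro I
        rw [Filter.eventually_all]
        intro α
        exact (MvPolynomial.continuous_eval (lead (Nα I α))).continuousAt.eventually_ne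
          (hNz I α)
  obtain ⟨ρa, hρa, hρaB⟩ := Metric.nhds_basis_closedBall.mem_iff.mp hev
  set ρ₂ : ℝ := min ρ' ρa with hρ₂
  have hρ₂0 : 0 < ρ₂ := lt_min hρ' hρa
  have hb1 : ball (prj Z z₀) ρ₂ ⊆ ball (prj Z z₀) ρ' := ball_subset_ball (min_le_left _ _)
  have hb2 : ball (prj Z z₀) ρ₂ ⊆ closedBall (prj Z z₀) ρa :=
    (ball_subset_ball (min_le_right _ _)).trans ball_subset_closedBall
  have hb3 : ball (prj Z z₀) ρ₂ ⊆ ball (prj Z z₀) ρ := hb1.trans (ball_subset_ball hρ'ρ)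
  have hb4 : ball (prj Z z₀) ρ₂ ⊆ ball (prj Z z₀) ρ₁ := hb3.trans (ball_subset_ball hρρ₁)
  have hHq : ∀ z ∈ ball (prj Z z₀) ρ₂, ∀ f ∈ q, eval (H z) f = 0 := by
    intro z hz
    refine hq2 (H z) ?_ (hρaB (hb2 hz)).1.1
    refine ⟨r, fun ν i => (r ν : ℂ) * X' ν z i, hr, fun ν => (hXp ν z (hb1 hz)).1, ?_⟩
    have h1 : (fun ν => (r ν)⁻¹ • fun i => (r ν : ℂ) * X' ν z i) = fun ν => X' ν z := by
      funext ν i
      have : (r ν : ℂ) ≠ 0 := by exact_mod_cast (hr0 ν).ne'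
      simp only [Pi.smul_apply, Complex.real_smul, Complex.ofReal_inv]
      field_simp
    rw [h1, tendsto_iff_norm_sub_tendsto_zero, Metric.tendsto_atTop]
    intro ε hε
    obtain ⟨N, hN⟩ := eventually_atTop.1 (hXH (ε / 2) (half_pos hε))
    refine ⟨N, fun ν hν => ?_⟩
    rw [Real.dist_eq, sub_zero, abs_of_nonneg (norm_nonneg _)]
    exact (hN ν hν z (hb1 hz)).trans_lt (half_lt_self hε)
  -- the Euclidean ball
  set t₀ : Ew d := WithLp.toLp 2 (prj Z z₀) with ht₀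
  have hball : ∀ t : Ew d, t ∈ ball t₀ ρ₂ → WithLp.ofLp t ∈ ball (prj Z z₀) ρ₂ := by
    intro t ht
    rw [mem_ball, dist_eq_norm] at ht ⊢
    refine lt_of_le_of_lt ?_ ht
    rw [pi_norm_le_iff_of_nonneg (norm_nonneg _)]
    intro i
    exact PiLp.norm_apply_le (t - t₀) i
  have hofLp : Differentiable ℂ (fun t : Ew d => (WithLp.ofLp t : Fin d → ℂ)) :=
    (PiLp.continuousLinearEquiv 2 ℂ (fun _ : Fin d => ℂ)).differentiable
  set X : ℕ → Ew d → Fin n → ℂ := fun ν t => X' ν (WithLp.ofLp t) with hX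
  set He : Ew d → Fin n → ℂ := fun t => H (WithLp.ofLp t) with hHe
  have hXde : ∀ ν, DifferentiableOn ℂ (X ν) (ball t₀ ρ₂) := fun ν =>
    ((hXd ν).mono hb1).comp hofLp.differentiableOn fun t ht => hball t ht
  have hHde : DifferentiableOn ℂ He (ball t₀ ρ₂) :=
    (hHdρ.mono hb4).comp hofLp.differentiableOn fun t ht => hball t ht
  have hXHe : ∀ ε : ℝ, 0 < ε → ∀ᶠ ν in atTop, ∀ t ∈ ball t₀ ρ₂, ‖X ν t - He t‖ ≤ ε :=
    fun ε hε => (hXH ε hε).mono fun ν h t ht => h _ (hb1 (hball t ht))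
  have hsmulX : ∀ ν t, (r ν : ℂ) • X ν t = fun i => (r ν : ℂ) * X' ν (WithLp.ofLp t) i :=
    fun ν t => rfl
  have hXW : ∀ ν, ∀ t ∈ ball t₀ ρ₂, OnW ξ ((r ν : ℂ) • X ν t) := by
    intro ν t ht f hf
    rw [hsmulX]
    exact (hXp ν _ (hb1 (hball t ht))).1 f ((hp f).2 hf)
  have hXZ : ∀ ν, ∀ t ∈ ball t₀ ρ₂, ∀ j, prj Z (X ν t) j = t j := by
    intro ν t ht j
    exact congrFun (hXp ν _ (hb1 (hball t ht))).2.2 j
  have hXgt : ∀ ν, ∀ t ∈ ball t₀ ρ₂, eval ((r ν : ℂ) • X ν t) g ≠ 0 ∧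
      eval ((r ν : ℂ) • X ν t) gc ≠ 0 ∧ (∀ i, eval ((r ν : ℂ) • X ν t) (D₁ i) ≠ 0) ∧
      ∀ I, ∀ α ∈ S I, eval ((r ν : ℂ) • X ν t) (c I α) ≠ 0 := by
    intro ν t ht
    have h1 := (hXp ν _ (hb1 (hball t ht))).2.1
    rw [← hsmulX, hgt] at h1
    simp only [map_mul, map_prod, mul_ne_zero_iff, Finset.prod_ne_zero_iff, Finset.mem_univ,
      true_imp_iff] at h1
    exact ⟨h1.1.1.1, h1.1.1.2, h1.1.2, h1.2⟩
  -- the size of the points
  obtain ⟨R, hR⟩ : ∃ R : ℝ, R = ‖z₀‖ + r₀ / 2 + 1 := ⟨_, rfl⟩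
  have hR0 : 0 ≤ R := by
    rw [hR]
    positivity
  have hXR : ∀ᶠ ν in atTop, ∀ t ∈ ball t₀ ρ₂, ‖(r ν : ℂ) • X ν t‖ ≤ R * r ν := by
    filter_upwards [hXHe 1 one_pos] with ν h1 t ht
    have h2 := h1 t ht
    have h3 := hHshell _ (hb3 (hball t ht))
    have h4 : ‖X ν t‖ ≤ R := by
      have h5 : X ν t = (X ν t - He t) + ((He t - z₀) + z₀) := by abel
      rw [h5]
      refine (norm_add_le _ _).trans ?_
      have h6 := norm_add_le (He t - z₀) z₀
      have h7 : ‖He t - z₀‖ < r₀ / 2 := h3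
      rw [hR]
      linarith
    rw [norm_smul, Complex.norm_real, Real.norm_eq_abs, abs_of_pos (hr0 ν), mul_comm]
    exact mul_le_mul_of_nonneg_right h4 (hr0 ν).le
  have hDc : IsCompact (closedBall (prj Z z₀) ρa) := isCompact_closedBall _ _
  choose Cα hCα using fun (I : {I : Finset (Fin n) // I.card = k + 1}) (α : S I) =>
    hbα I α (closedBall (prj Z z₀) ρa) hDc (fun t ht => (hρaB ht).2.2 I α) R
  obtain ⟨Cg, hCg⟩ := hbg (closedBall (prj Z z₀) ρa) hDc (fun t ht => (hρaB ht).2.1) R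
  obtain ⟨Ct, hCt⟩ : ∃ Ct : ℕ, Ct = ∑ I, ∑ α : S I, Cα I α := ⟨_, rfl⟩
  have hprjX : ∀ ν, ∀ t ∈ ball t₀ ρ₂, ∀ j, prj Z ((r ν : ℂ) • X ν t) j =
      (r ν : ℂ) * WithLp.ofLp t j := by
    intro ν t ht j
    rw [← hXZ ν t ht j]
    simp only [prj, Finset.mul_sum, Pi.smul_apply, smul_eq_mul]
    refine Finset.sum_congr rfl fun i _ => ?_
    ring
  have hcb : ∀ I, ∀ α ∈ S I, ∀ᶠ ν in atTop, ∀ t ∈ ball t₀ ρ₂,
      (r ν ^ Ct)⁻¹ ≤ ‖eval ((r ν : ℂ) • X ν t) (c I α)‖ ∧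
        ‖eval ((r ν : ℂ) • X ν t) (c I α)‖ ≤ r ν ^ Ct := by
    intro I α hα
    filter_upwards [hr.eventually (hCα I ⟨α, hα⟩), hXR, hr.eventually_ge_atTop 1]
      with ν h1 h2 h3 t ht
    have h4 := h1 _ (hXW ν t ht) (h2 t ht) (WithLp.ofLp t) (hb2 (hball t ht)) (hprjX ν t ht)
    have h5 : Cα I ⟨α, hα⟩ ≤ Ct := by
      rw [hCt]
      refine le_trans ?_ (Finset.single_le_sum (f := fun I => ∑ α : S I, Cα I α)
        (fun _ _ => Nat.zero_le _) (Finset.mem_univ I))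
      exact Finset.single_le_sum (f := fun α : S I => Cα I α) (fun _ _ => Nat.zero_le _)
        (Finset.mem_univ _)
    have h6 : r ν ^ Cα I ⟨α, hα⟩ ≤ r ν ^ Ct := pow_le_pow_right₀ h3 h5
    refine ⟨le_trans ?_ h4.1, h4.2.trans h6⟩
    exact inv_anti₀ (pow_pos (hr0 ν) _) h6
  -- the centers
  have ht₀b : t₀ ∈ ball t₀ ρ₂ := mem_ball_self hρ₂0
  obtain ⟨A, hAd⟩ : ∃ A : ℕ → ℝ, A = fun ν =>
      Cc * (1 + ‖(r ν : ℂ) • X ν t₀‖) ^ Nc / ‖eval ((r ν : ℂ) • X ν t₀) gc‖ := ⟨_, rfl⟩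
  have hcenν : ∀ ν, ∃ y : Fin n → ℂ, OnV ξ υ ((r ν : ℂ) • X ν t₀) y ∧
      eval (Sum.elim (prj Z ((r ν : ℂ) • X ν t₀)) fun j => y (B j)) β ≠ 0 ∧ (∀ i, y i ≠ 0) ∧
      ∀ i, ‖y i‖ ≤ A ν ∧ ‖(y i)⁻¹‖ ≤ A ν := by
    intro ν
    obtain ⟨y, h1, h2, h3, h4⟩ := hcen _ (hXW ν t₀ ht₀b) (hXgt ν t₀ ht₀b).2.1
    refine ⟨y, h1, ?_, h3, fun i => ?_⟩
    · rw [← hDβe]
      exact h2
    · rw [hAd]
      exact h4 i
  have hn : 0 < n := by omega
  have hA : ∀ ε : ℝ, 0 < ε → ∀ᶠ ν in atTop, Real.log (A ν) ≤ ε * r ν := by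
    intro ε hε
    filter_upwards [log_growth Cc Nc Cg R r hr ε hε, hXR, hr.eventually hCg] with ν h1 h2 h3
    refine le_trans ?_ h1
    obtain ⟨y, -, -, hy0, hyA⟩ := hcenν ν
    have hApos : 0 < A ν := lt_of_lt_of_le (norm_pos_iff.2 (hy0 ⟨0, hn⟩)) (hyA ⟨0, hn⟩).1
    refine Real.log_le_log hApos ?_
    have h4 := (h3 _ (hXW ν t₀ ht₀b) (h2 t₀ ht₀b) (WithLp.ofLp t₀) (hb2 (hball t₀ ht₀b))
      (hprjX ν t₀ ht₀b)).1
    have h5 := h2 t₀ ht₀b
    rw [hAd]
    have hinv : 0 < (r ν ^ Cg)⁻¹ := inv_pos.2 (pow_pos (hr0 ν) _)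
    have hrν := hr0 ν
    have hRabs : |R| = R := abs_of_nonneg hR0
    have h6 : (1 + ‖(r ν : ℂ) • X ν t₀‖) ^ Nc ≤ (1 + |R| * r ν) ^ Nc := by
      refine pow_le_pow_left₀ (by positivity) ?_ _
      rw [hRabs]
      linarith
    have h7 : Cc * (1 + ‖(r ν : ℂ) • X ν t₀‖) ^ Nc ≤ max Cc 1 * (1 + |R| * r ν) ^ Nc :=
      mul_le_mul (le_max_left _ _) h6 (by positivity) (le_trans zero_le_one (le_max_right _ _))
    exact div_le_div₀ (by positivity) h7 hinv h4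
  -- the selections
  have hselt : ∀ t, ‖t - t₀‖ ≤ ρ₂ / 2 → ∀ b : Ew d,
      ∀ α β : {I : Finset (Fin n) // I.card = k + 1} → Fin n → ℕ,
      (∀ j, α j ∈ S j ∧ β j ∈ S j ∧ α j ≠ β j) →
      (∀ j, ∑ i, ((α j i : ℂ) - β j i) * fderiv ℂ He t b i = 0) → b = 0 := by
    intro t ht b α β' hαβ hb
    have htb : t ∈ ball t₀ ρ₂ := by
      rw [mem_ball, dist_eq_norm]
      linarith
    have htb' := hball t htb
    have hdiff : DifferentiableAt ℂ H (WithLp.ofLp t) :=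
      hHdρ.differentiableAt (isOpen_ball.mem_nhds (hb4 htb'))
    have hfd : ∀ b : Ew d, fderiv ℂ He t b = fderiv ℂ H (WithLp.ofLp t) (WithLp.ofLp b) := by
      intro b
      have h1 : HasFDerivAt He ((fderiv ℂ H (WithLp.ofLp t)).comp
          (PiLp.continuousLinearEquiv 2 ℂ (fun _ : Fin d => ℂ) : Ew d →L[ℂ] (Fin d → ℂ))) t :=
        HasFDerivAt.comp t (g := H) hdiff.hasFDerivAt
          (PiLp.continuousLinearEquiv 2 ℂ (fun _ : Fin d => ℂ)).hasFDerivAt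
      rw [h1.fderiv]
      rfl
    have h1 : fderiv ℂ H (WithLp.ofLp t) (WithLp.ofLp b) = 0 := by
      refine hsel (H (WithLp.ofLp t)) (hHq _ htb') (hρaB (hb2 htb')).1.2.1 _ ?_ α β' hαβ ?_
      · intro f hf
        exact GS.chart_tangent q H (hHdρ.mono hb4) hHq htb' (WithLp.ofLp b) hf
      · intro I
        have h2 := hb I
        rw [hfd b] at h2
        exact h2
    have h3 := GS.chart_injective Z H (hHdρ.mono hb4) (fun z hz => hZH z (hb4 hz)) htb'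
      (WithLp.ofLp b) h1
    have h4 : b = WithLp.toLp 2 (WithLp.ofLp b) := rfl
    rw [h4, h3]
    rfl
  have hloc := local_points ξ υ Z B (finSumFinEquiv.trans (finCongr hdk)) β hV t₀
    (δ := ρ₂ / 2) (half_pos hρ₂0) (half_lt_self hρ₂0) r hr0 hr X hXde He hHde hXHe hXW hXZ F₁ D₁ hF₁
    hFD₁ (fun ν t ht => (hXgt ν t ht).2.2.1) S hSne c hrel Ct hcb
    (fun ν I α hα t ht => (hXgt ν t ht).2.2.2 I α hα) hselt A hA hcenν (by
      intro i
      have h1 : He t₀ = z₀ := hHw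
      rw [h1]
      exact hz₀re i)
  -- large points
  have hlarge : ∀ᶠ ν in atTop, ∀ t ∈ ball t₀ ρ₂, M < ‖(r ν : ℂ) • X ν t‖ := by
    have hz₀n : 0 < ‖z₀‖ := norm_pos_iff.2 hz₀0
    filter_upwards [hXHe (‖z₀‖ / 4) (by positivity), hr.eventually_gt_atTop (4 * M / ‖z₀‖)]
      with ν h1 h2 t ht
    have h3 := h1 t ht
    have h4 : ‖z₀‖ / 2 < ‖He t‖ := (hρaB (hb2 (hball t ht))).1.2.2
    have h5 : ‖z₀‖ / 4 < ‖X ν t‖ := by
      have h6 : ‖He t‖ ≤ ‖X ν t - He t‖ + ‖X ν t‖ := by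
        have h7 : He t = -(X ν t - He t) + X ν t := by abel
        calc ‖He t‖ = ‖-(X ν t - He t) + X ν t‖ := by rw [← h7]
          _ ≤ _ := by
            refine (norm_add_le _ _).trans ?_
            rw [norm_neg]
      linarith
    rw [norm_smul, Complex.norm_real, Real.norm_eq_abs, abs_of_pos (hr0 ν)]
    rw [div_lt_iff₀ hz₀n] at h2
    have h7 := hr0 ν
    nlinarith
  obtain ⟨ν, ⟨t, ht, hx⟩, hM⟩ := (hloc.and hlarge).exists
  have htb : t ∈ ball t₀ ρ₂ := by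
    rw [mem_ball, dist_eq_norm]
    linarith
  exact ⟨(r ν : ℂ) • X ν t, hM t htb, hx, (hXgt ν t htb).1⟩

end Pool.Agent.Lib.MP_209724_lc.GP
end
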