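import Mathlib
import Pool.Agent.Lib.MP_209724_lc.GS.CurveB
import Pool.Agent.Lib.MP_209724_lc.GC.Good
import Pool.Agent.Lib.MP_209724_lc.GP.Low

section

namespace Pool.Agent.Lib.MP_209724_lc.GP

open MvPolynomial
open GC (evM evM_C evM_X map_evM evM_eq_sum)

variable {n d k : ℕ}

/-- The evaluation as a homomorphism of algebras. -/
private noncomputable def spMA {σ τ S : Type*} [CommRing S] [Algebra ℂ S] (x : τ → S)
    (t : σ → S) : MvPolynomial σ (MvPolynomial τ ℂ) →ₐ[ℂ] S :=
  { evM x t with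
    commutes' := fun r => by
      have h : algebraMap ℂ (MvPolynomial σ (MvPolynomial τ ℂ)) r = C (C r) := rfl
      rw [h]
      change evM x t (C (C r)) = _
      rw [evM_C, ← algebraMap_eq, AlgHom.commutes] }

private theorem sp_coeff {n k : ℕ} {L : Type} [Field L] [Algebra ℂ L] (ξ : Fin n → L)
    (t : Fin k → L) (ht : AlgebraicIndependent (IntermediateField.adjoin ℂ (Set.range ξ)) t)
    (q : MvPolynomial (Fin k) (MvPolynomial (Fin n) ℂ)) (hq : evM ξ t q = 0) (ν : Fin k →₀ ℕ) :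
    aeval ξ (q.coeff ν) = 0 := by
  set K := IntermediateField.adjoin ℂ (Set.range ξ)
  let ρ : MvPolynomial (Fin n) ℂ →ₐ[ℂ] K :=
    aeval fun i => ⟨ξ i, IntermediateField.subset_adjoin _ _ ⟨i, rfl⟩⟩
  have hρ : ∀ c, algebraMap K L (ρ c) = aeval ξ c := by
    intro c
    have : (IsScalarTower.toAlgHom ℂ K L).comp ρ = aeval ξ := by
      ext i
      simp [ρ]
    exact congrArg (fun f => f c) this
  have h1 : aeval t (map (ρ : MvPolynomial (Fin n) ℂ →+* K) q) = evM ξ t q := by
    rw [aeval_def, eval₂_map]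
    unfold evM
    rw [coe_eval₂Hom]
    congr 1
    ext c
    · simp
    · simp [hρ]
  rw [hq] at h1
  have h2 := ht.eq_zero_of_aeval_eq_zero _ h1
  have h3 := congrArg (fun p => algebraMap K L (coeff ν p)) h2
  simp only [coeff_map, coeff_zero, map_zero] at h3
  rw [← hρ]
  exact h3

private theorem sp_main {L : Type} [Field L] [Algebra ℂ L] (ξ : Fin n → L) {e : ℕ}
    (t : Fin (k + e) → L)
    (ht : AlgebraicIndependent (IntermediateField.adjoin ℂ (Set.range ξ)) t)
    (B : Subalgebra ℂ L) (hB : B = Algebra.adjoin ℂ (Set.range ξ ∪ Set.range t))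
    (hξB : ∀ i, ξ i ∈ B) (htB : ∀ j, t j ∈ B) (b₀ : B) (hb₀ : b₀ ≠ 0) :
    ∃ (c : Fin e → ℂ) (φ : B →ₐ[ℂ] L), φ b₀ ≠ 0 ∧
      (∀ i, φ ⟨ξ i, hξB i⟩ = ξ i) ∧
      (∀ j : Fin k, φ ⟨t (Fin.castAdd e j), htB _⟩ = t (Fin.castAdd e j)) ∧
      ∀ l : Fin e, φ ⟨t (Fin.natAdd k l), htB _⟩ = algebraMap ℂ L (c l) := by
  let f : MvPolynomial (Fin (k + e)) (MvPolynomial (Fin n) ℂ) →ₐ[ℂ] B :=
    spMA (fun i => ⟨ξ i, hξB i⟩) (fun j => ⟨t j, htB j⟩)
  have hval : ∀ q, B.val (f q) = evM ξ t q := by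
    intro q
    exact map_evM B.val _ _ q
  have hf : Function.Surjective f := by
    intro y
    have h1 : B ≤ (spMA ξ t).range := by
      rw [hB]
      apply Algebra.adjoin_le
      rintro _ (⟨i, rfl⟩ | ⟨j, rfl⟩)
      · exact ⟨C (X i), by
          change evM ξ t (C (X i)) = ξ i
          rw [evM_C, aeval_X]⟩
      · exact ⟨X j, by
          change evM ξ t (X j) = t j
          rw [evM_X]⟩
    obtain ⟨q, hq⟩ := h1 y.2
    refine ⟨q, Subtype.ext ?_⟩
    rw [← hq]
    exact hval q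
  obtain ⟨P, hP⟩ := hf b₀
  -- the polynomial in the last `e` variables
  set G : MvPolynomial (Fin e) L := evM (fun i => (C (ξ i) : MvPolynomial (Fin e) L))
    (Fin.append (fun j : Fin k => C (t (Fin.castAdd e j))) X) P with hG
  have hGev : ∀ v : Fin e → L, eval v G =
      evM ξ (Fin.append (fun j : Fin k => t (Fin.castAdd e j)) v) P := by
    intro v
    have h1 := map_evM ((aeval v : MvPolynomial (Fin e) L →ₐ[L] L).restrictScalars ℂ)
      (fun i => (C (ξ i) : MvPolynomial (Fin e) L))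
      (Fin.append (fun j : Fin k => C (t (Fin.castAdd e j))) X) P
    rw [← hG] at h1
    have h2 : ((aeval v : MvPolynomial (Fin e) L →ₐ[L] L).restrictScalars ℂ) G = eval v G := by
      change aeval v G = eval v G
      rw [aeval_eq_eval]
    rw [← h2, h1]
    congr 1
    · congr 1
      · funext i
        change aeval v (C (ξ i)) = ξ i
        rw [aeval_eq_eval, eval_C]
      · funext j
        refine Fin.addCases (fun j' => ?_) (fun l => ?_) j
        · rw [Fin.append_left, Fin.append_left]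
          change aeval v (C _) = _
          rw [aeval_eq_eval, eval_C]
        · rw [Fin.append_right, Fin.append_right]
          change aeval v (X l) = _
          rw [aeval_eq_eval, eval_X]
  have hG0 : G ≠ 0 := by
    intro h0
    apply hb₀
    have h1 := hGev (fun l => t (Fin.natAdd k l))
    rw [h0, map_zero] at h1
    have h2 : Fin.append (fun j : Fin k => t (Fin.castAdd e j)) (fun l => t (Fin.natAdd k l)) = t := by
      funext j
      refine Fin.addCases (fun j' => ?_) (fun l => ?_) j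
      · rw [Fin.append_left]
      · rw [Fin.append_right]
    rw [h2, ← hval, hP] at h1
    exact Subtype.ext h1.symm
  have hinj : Function.Injective (algebraMap ℂ L) := (algebraMap ℂ L).injective
  obtain ⟨v, hv, hv0⟩ : ∃ v : Fin e → L, v ∈ Set.pi .univ (fun _ : Fin e =>
      Set.range (algebraMap ℂ L)) ∧ eval v G ≠ 0 := by
    by_contra hcon
    push Not at hcon
    apply hG0
    refine funext_set (fun _ : Fin e => Set.range (algebraMap ℂ L)) (fun _ =>
      Set.infinite_range_of_injective hinj) fun x hx => ?_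
    rw [hcon x hx, map_zero]
  have hv' : ∀ l, ∃ c : ℂ, algebraMap ℂ L c = v l := fun l => hv l (Set.mem_univ l)
  choose c hc using hv'
  let f₀ : MvPolynomial (Fin (k + e)) (MvPolynomial (Fin n) ℂ) →ₐ[ℂ] L :=
    spMA ξ (Fin.append (fun j : Fin k => t (Fin.castAdd e j)) v)
  have hker : RingHom.ker f.toRingHom ≤ RingHom.ker f₀.toRingHom := by
    intro q hq
    rw [RingHom.mem_ker] at hq ⊢
    have h1 : evM ξ t q = 0 := by
      rw [← hval q]
      have : f q = 0 := hq
      rw [this, map_zero]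
    change evM ξ _ q = 0
    rw [evM_eq_sum]
    apply Finset.sum_eq_zero
    intro ν _
    rw [sp_coeff ξ t ht q h1 ν, zero_mul]
  refine ⟨c, AlgHom.liftOfSurjective f hf f₀ hker, ?_, fun i => ?_, fun j => ?_, fun l => ?_⟩
  · rw [← hP, AlgHom.liftOfSurjective_apply]
    change evM ξ _ P ≠ 0
    rw [← hGev]
    exact hv0
  · have h1 : f (C (X i)) = ⟨ξ i, hξB i⟩ := by
      change evM _ _ (C (X i)) = _
      rw [evM_C, aeval_X]
    rw [← h1, AlgHom.liftOfSurjective_apply]
    change evM _ _ (C (X i)) = _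
    rw [evM_C, aeval_X]
  · have h1 : f (X (Fin.castAdd e j)) = ⟨t (Fin.castAdd e j), htB _⟩ := by
      change evM _ _ (X _) = _
      rw [evM_X]
    rw [← h1, AlgHom.liftOfSurjective_apply]
    change evM _ _ (X _) = _
    rw [evM_X, Fin.append_left]
  · have h1 : f (X (Fin.natAdd k l)) = ⟨t (Fin.natAdd k l), htB _⟩ := by
      change evM _ _ (X _) = _
      rw [evM_X]
    rw [← h1, AlgHom.liftOfSurjective_apply]
    change evM _ _ (X _) = _
    rw [evM_X, Fin.append_right, hc]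


/-- **Specialization of the last `e` of the independent elements `t_j` to complex numbers.**

Proof. `B₀` is the polynomial ring over `Algebra.adjoin ℂ (range ξ)` in the `t j` (see the private
`gc_good_coeff`, `gc_good_hom` of `GC/Good.lean`, with `L` instead of `ℂ` as the target), so for every
`c : Fin e → ℂ` there is `φ_c : B₀ →ₐ[ℂ] L` with `ξ ↦ ξ`, `t_j ↦ t_j` for `j = Fin.castAdd e j'` and
`t_j ↦ c l` for `j = Fin.natAdd k l`. Write `b₀ = P(t)`, `P` a nonzero polynomial over `K = ℂ(ξ)`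
(coefficients in `ℂ[ξ]`); `P(t_1..t_k, Y_1..Y_e)` is a nonzero polynomial in `Y` over `L` (its
coefficients are polynomials in the independent `t_1..t_k`, not all zero), so it does not vanish
identically on the infinite grid `ℂ^e` (the image of `algebraMap ℂ L` is infinite; e.g.
`MvPolynomial.funext_set`, or induction on `e`). -/
theorem exists_spec {L : Type} [Field L] [Algebra ℂ L] (ξ : Fin n → L) {e : ℕ}
    (t : Fin (k + e) → L)
    (ht : AlgebraicIndependent (IntermediateField.adjoin ℂ (Set.range ξ)) t)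
    (b₀ : Algebra.adjoin ℂ (Set.range ξ ∪ Set.range t)) (hb₀ : b₀ ≠ 0) :
    ∃ (c : Fin e → ℂ) (φ : Algebra.adjoin ℂ (Set.range ξ ∪ Set.range t) →ₐ[ℂ] L), φ b₀ ≠ 0 ∧
      (∀ i, φ ⟨ξ i, Algebra.subset_adjoin (Or.inl ⟨i, rfl⟩)⟩ = ξ i) ∧
      (∀ j : Fin k, φ ⟨t (Fin.castAdd e j), Algebra.subset_adjoin (Or.inr ⟨_, rfl⟩)⟩ =
        t (Fin.castAdd e j)) ∧
      ∀ l : Fin e, φ ⟨t (Fin.natAdd k l), Algebra.subset_adjoin (Or.inr ⟨_, rfl⟩)⟩ =
        algebraMap ℂ L (c l) := by
  exact sp_main ξ t ht _ rfl (fun i => Algebra.subset_adjoin (Or.inl ⟨i, rfl⟩))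
    (fun j => Algebra.subset_adjoin (Or.inr ⟨j, rfl⟩)) b₀ hb₀

end Pool.Agent.Lib.MP_209724_lc.GP
end

section

namespace Pool.Agent.Lib.MP_209724_lc.GP

open MvPolynomial

variable {n d k : ℕ}

/-- Algebraicity over an adjoin and injective homomorphisms. -/
private theorem sl_alg {E Ω : Type} [Field E] [Field Ω] [Algebra ℂ E] [Algebra ℂ Ω]
    (g : E →ₐ[ℂ] Ω) (S : Set E) (z : E) :
    IsAlgebraic (Algebra.adjoin ℂ (g '' S)) (g z) ↔ IsAlgebraic (Algebra.adjoin ℂ S) z := by
  have hinj : Function.Injective g := RingHom.injective (g : E →+* Ω)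
  rw [← AlgHom.map_adjoin]
  let f := (Algebra.adjoin ℂ S).equivMapOfInjective g hinj
  constructor
  · intro h
    exact h.of_ringHom_of_comp_eq (f : _ →+* _) (g : E →+* Ω) f.surjective hinj (by ext; rfl)
  · intro h
    exact h.ringHom_of_comp_eq (f : _ →+* _) (g : E →+* Ω) f.injective (by ext; rfl)

/-- Elements of the field generated by `S` are algebraic over a subalgebra over which the elements
of `S` are. -/
private theorem sl_field {Ω : Type} [Field Ω] [Algebra ℂ Ω] (R : Subalgebra ℂ Ω) (S : Set Ω)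
    (hS : ∀ s ∈ S, IsAlgebraic R s) {z : Ω} (hz : z ∈ IntermediateField.adjoin ℂ S) :
    IsAlgebraic R z := by
  induction hz using IntermediateField.adjoin_induction with
  | mem x hx => exact hS x hx
  | algebraMap x =>
    exact isAlgebraic_algebraMap (⟨algebraMap ℂ Ω x, Subalgebra.algebraMap_mem _ x⟩ : R)
  | add x y _ _ hx hy => exact hx.add hy
  | inv x _ hx => exact hx.inv
  | mul x y _ _ hx hy => exact hx.mul hy

/-- The transcendence degree of a generated field. -/
private theorem sl_trdeg {Ω : Type} [Field Ω] [Algebra ℂ Ω] {ι : Type} (w : ι → Ω) (S : Set Ω)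
    (hw : AlgebraicIndependent ℂ w) (hwS : ∀ i, w i ∈ IntermediateField.adjoin ℂ S)
    (hS : ∀ s ∈ S, IsAlgebraic (Algebra.adjoin ℂ (Set.range w)) s) :
    Algebra.trdeg ℂ (IntermediateField.adjoin ℂ S) = Cardinal.mk ι := by
  set E := IntermediateField.adjoin ℂ S with hE
  let w' : ι → E := fun i => ⟨w i, hwS i⟩
  have hw' : AlgebraicIndependent ℂ w' := AlgebraicIndependent.of_comp E.val hw
  have hr : E.val '' (Set.range w') = Set.range w := by
    rw [← Set.range_comp]
    rfl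
  have halg : Algebra.IsAlgebraic (Algebra.adjoin ℂ (Set.range w')) E := ⟨fun z => by
    rw [← sl_alg E.val, hr]
    exact sl_field _ S hS z.2⟩
  have hb := hw'.isTranscendenceBasis_iff_isAlgebraic.2 halg
  exact hb.cardinalMk_eq_trdeg.symm

/-- Homomorphisms and values of polynomials. -/
private theorem map_aeval_sl {σ : Type} {E F : Type} [CommRing E] [CommRing F] [Algebra ℂ E]
    [Algebra ℂ F] (g : E →ₐ[ℂ] F) (x : σ → E) (f : MvPolynomial σ ℂ) :
    g (aeval x f) = aeval (fun i => g (x i)) f := by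
  have h : g.comp (aeval x) = aeval fun i => g (x i) := by
    ext i
    simp
  exact congrArg (fun u => u f) h

/-- **Slices.** A variety `V` of dimension `n + e` over `W` contains a variety of dimension `n` over the
same `W`.

Proof. By `trdeg_over` and `exists_B` (with `k + e` instead of `k`) there is a transcendence basis
`t = υ ∘ B`, `B : Fin (k + e) → Fin n`, of `L` over `K = IntermediateField.adjoin ℂ (range ξ)`. Let
`A = Algebra.adjoin ℂ (range ξ ∪ range υ ∪ range υ⁻¹)`,
`B₀ = Algebra.adjoin ℂ (range ξ ∪ range t)`, `b₀ ∈ B₀` from `exists_ext_field`, `Ω` the algebraic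
closure of `L`, and `φ : B₀ →ₐ[ℂ] L` with `φ b₀ ≠ 0` from `exists_spec`. Extend `φ` (composed with
`L → Ω`) to `ψ : A →ₐ[ℂ] Ω`; let `L'` be the subfield of `Ω` generated over `ℂ` by the `ψ (ξ i)` and
`ψ (υ i)` (`IntermediateField.adjoin`), `ξ' = ψ ∘ ξ`, `υ' = ψ ∘ υ` as families in `L'`. Then `υ' i ≠ 0`
(units of `A`), `ξ'` is the image of `ξ` (so the same relations and the same transcendence degree),
every polynomial relation between `ξ, υ` holds for `ξ', υ'`, the elements of `L'` are fractions of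
elements of `adjoin (ξ', υ')`. The transcendence degree of `L'` is `n = d + k`: by the last claim of
`exists_ext_field` the `υ' i` are algebraic over the range of `φ`, which is generated by the `ξ i`,
the `t_j` with `j < k`, and complex numbers; and `L'` contains the image of
`ℂ(ξ, t_1, …, t_k)`, of transcendence degree `d + k` (`trdeg_over`-like additivity, or
`indep_sum` with a transcendence basis `ζ` of `ℂ(ξ)`). -/
theorem exists_slice {L : Type} [Field L] [Algebra ℂ L] (ξ υ : Fin n → L) (hυ : ∀ i, υ i ≠ 0)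
    (hgen : ∀ z : L, IsAlgebraic (Algebra.adjoin ℂ (Set.range (Sum.elim ξ υ))) z) (hdk : d + k = n)
    (hξ : Algebra.trdeg ℂ (IntermediateField.adjoin ℂ (Set.range ξ)) = d) {e : ℕ}
    (hL : Algebra.trdeg ℂ L = (n + e : ℕ)) :
    ∃ (L' : Type) (_ : Field L') (_ : Algebra ℂ L') (ξ' υ' : Fin n → L'),
      (∀ f : MvPolynomial (Fin n ⊕ Fin n) ℂ, aeval (Sum.elim ξ υ) f = 0 →
        aeval (Sum.elim ξ' υ') f = 0) ∧
      (∀ f : MvPolynomial (Fin n) ℂ, aeval ξ f = 0 ↔ aeval ξ' f = 0) ∧ (∀ i, υ' i ≠ 0) ∧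
      (∀ z : L', IsAlgebraic (Algebra.adjoin ℂ (Set.range (Sum.elim ξ' υ'))) z) ∧
      Algebra.trdeg ℂ (IntermediateField.adjoin ℂ (Set.range ξ')) = d ∧ Algebra.trdeg ℂ L' = n := by
  classical
  -- transcendence basis
  have htr := trdeg_over (k := k + e) ξ hξ hL (by omega)
  obtain ⟨B, hBinj, ht, hBalg⟩ := exists_B ξ υ hgen htr
  set K := IntermediateField.adjoin ℂ (Set.range ξ) with hK
  set t : Fin (k + e) → L := fun j => υ (B j) with htdef
  set B₀ := Algebra.adjoin ℂ (Set.range ξ ∪ Set.range t) with hB₀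
  set A := Algebra.adjoin ℂ (Set.range ξ ∪ Set.range υ ∪ Set.range fun i => (υ i)⁻¹) with hA
  have hξA : ∀ i, ξ i ∈ A := fun i => Algebra.subset_adjoin (Or.inl (Or.inl ⟨i, rfl⟩))
  have hυA : ∀ i, υ i ∈ A := fun i => Algebra.subset_adjoin (Or.inl (Or.inr ⟨i, rfl⟩))
  have hυA' : ∀ i, (υ i)⁻¹ ∈ A := fun i => Algebra.subset_adjoin (Or.inr ⟨i, rfl⟩)
  have hξB : ∀ i, ξ i ∈ B₀ := fun i => Algebra.subset_adjoin (Or.inl ⟨i, rfl⟩)
  have htB : ∀ j, t j ∈ B₀ := fun j => Algebra.subset_adjoin (Or.inr ⟨j, rfl⟩)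
  have hBA : B₀ ≤ A := by
    apply Algebra.adjoin_le
    rintro _ (⟨i, rfl⟩ | ⟨j, rfl⟩)
    · exact hξA i
    · exact hυA (B j)
  have hAfg : A.FG := by
    refine ⟨(((Set.finite_range ξ).union (Set.finite_range υ)).union
      (Set.finite_range fun i => (υ i)⁻¹)).toFinset, ?_⟩
    rw [Set.Finite.coe_toFinset]
  obtain ⟨b₀, hb₀, hext⟩ := exists_ext_field B₀ A hBA hAfg fun x _ => hBalg x
  obtain ⟨c, φ, hφb, hφξ, hφt, hφc⟩ := exists_spec ξ t ht b₀ hb₀
  let Ω := AlgebraicClosure L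
  let ι : L →ₐ[ℂ] Ω := IsScalarTower.toAlgHom ℂ L Ω
  have hιinj : Function.Injective ι := RingHom.injective (ι : L →+* Ω)
  obtain ⟨ψ, hψ, hψalg⟩ := hext Ω (ι.comp φ) (by
    intro h0
    apply hφb
    apply hιinj
    rw [map_zero]
    exact h0)
  have hψξ : ∀ i, ψ ⟨ξ i, hξA i⟩ = ι (ξ i) := by
    intro i
    have h1 := hψ ⟨ξ i, hξB i⟩
    rw [AlgHom.comp_apply, hφξ i] at h1
    exact h1
  have hψt : ∀ j : Fin k, ψ ⟨υ (B (Fin.castAdd e j)), hυA _⟩ = ι (t (Fin.castAdd e j)) := by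
    intro j
    have h1 := hψ ⟨t (Fin.castAdd e j), htB _⟩
    rw [AlgHom.comp_apply, hφt j] at h1
    exact h1
  -- the basis of `K`
  obtain ⟨s, hs⟩ := exists_isTranscendenceBasis ℂ K
  have hcard : Cardinal.mk s = d := by rw [hs.cardinalMk_eq_trdeg, hξ]
  obtain ⟨es⟩ : Nonempty (Fin d ≃ s) := by
    rw [← Cardinal.eq, hcard, Cardinal.mk_fin]
  let ζ : Fin d → L := fun j => ((es j : s) : K)
  have hζK : ∀ j, ζ j ∈ K := fun j => ((es j : s) : K).2
  have hζK' : AlgebraicIndependent ℂ fun j => ((es j : s) : K) := hs.1.comp es es.injective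
  have hζ : AlgebraicIndependent ℂ ζ := hζK'.map' (f := K.val) Subtype.val_injective
  have hξζ : ∀ i, IsAlgebraic (Algebra.adjoin ℂ (Set.range ζ)) (ξ i) := by
    intro i
    have h1 := hs.isAlgebraic.1 (⟨ξ i, IntermediateField.subset_adjoin _ _ ⟨i, rfl⟩⟩ : K)
    rw [← sl_alg K.val] at h1
    have h2 : K.val '' (Set.range ((↑) : s → K)) = Set.range ζ := by
      have h3 : Set.range ((↑) : s → K) = Set.range fun j => ((es j : s) : K) := by
        exact (es.surjective.range_comp ((↑) : s → K)).symm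
      rw [h3, ← Set.range_comp]
      rfl
    rw [h2] at h1
    exact h1
  -- the independent elements of `Ω`
  have hind : AlgebraicIndependent ℂ (Sum.elim ζ fun j : Fin k => t (Fin.castAdd e j)) :=
    indep_sum ξ ζ hζK hζ _ (ht.comp (Fin.castAdd e) (Fin.castAdd_injective k e))
  set w : Fin d ⊕ Fin k → Ω := Sum.elim (fun j => ι (ζ j)) fun j => ι (t (Fin.castAdd e j)) with hw
  have hwι : w = ι ∘ Sum.elim ζ fun j : Fin k => t (Fin.castAdd e j) := by
    funext i
    rcases i with i | i <;> rfl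
  have hwind : AlgebraicIndependent ℂ w := by
    rw [hwι]
    exact hind.map' (f := ι) hιinj
  have hξζ' : ∀ i, IsAlgebraic (Algebra.adjoin ℂ (Set.range fun j => ι (ζ j))) (ι (ξ i)) := by
    intro i
    have h1 := (sl_alg ι (Set.range ζ) (ξ i)).2 (hξζ i)
    rw [← Set.range_comp] at h1
    exact h1
  have hrange : ∀ y ∈ (ι.comp φ).range, y ∈ Algebra.adjoin ℂ
      (Set.range (fun i => ι (ξ i)) ∪ Set.range fun j : Fin k => ι (t (Fin.castAdd e j))) := by
    rintro _ ⟨⟨x, hx⟩, rfl⟩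
    change ι (φ ⟨x, hx⟩) ∈ _
    induction hx using Algebra.adjoin_induction with
    | mem x hx =>
      rcases hx with ⟨i, rfl⟩ | ⟨j, rfl⟩
      · have h1 := hφξ i
        rw [h1]
        exact Algebra.subset_adjoin (Or.inl ⟨i, rfl⟩)
      · refine Fin.addCases (fun j' => ?_) (fun l => ?_) j
        · have h1 := hφt j'
          rw [h1]
          exact Algebra.subset_adjoin (Or.inr ⟨j', rfl⟩)
        · have h1 := hφc l
          rw [h1, AlgHom.commutes]
          exact Subalgebra.algebraMap_mem _ _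
    | algebraMap r =>
      have h1 : (⟨algebraMap ℂ L r, Subalgebra.algebraMap_mem _ r⟩ : B₀) = algebraMap ℂ B₀ r := rfl
      have h2 : ι (φ (⟨algebraMap ℂ L r, Subalgebra.algebraMap_mem _ r⟩ : B₀)) =
          algebraMap ℂ Ω r := by
        rw [h1, AlgHom.commutes, AlgHom.commutes]
      rw [h2]
      exact Subalgebra.algebraMap_mem _ _
    | add x y hx' hy' hx hy =>
      have h1 : (⟨x + y, add_mem hx' hy'⟩ : B₀) = ⟨x, hx'⟩ + ⟨y, hy'⟩ := rfl
      have h2 : ι (φ (⟨x + y, add_mem hx' hy'⟩ : B₀)) = ι (φ ⟨x, hx'⟩) + ι (φ ⟨y, hy'⟩) := by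
        rw [h1, map_add, map_add]
      rw [h2]
      exact add_mem hx hy
    | mul x y hx' hy' hx hy =>
      have h1 : (⟨x * y, mul_mem hx' hy'⟩ : B₀) = ⟨x, hx'⟩ * ⟨y, hy'⟩ := rfl
      have h2 : ι (φ (⟨x * y, mul_mem hx' hy'⟩ : B₀)) = ι (φ ⟨x, hx'⟩) * ι (φ ⟨y, hy'⟩) := by
        rw [h1, map_mul, map_mul]
      rw [h2]
      exact mul_mem hx hy
  have hυζ : ∀ i, IsAlgebraic (Algebra.adjoin ℂ (Set.range w)) (ψ ⟨υ i, hυA i⟩) := by
    intro i
    refine alg_sum (fun i => ι (ξ i)) (fun j => ι (ζ j)) _ hξζ' _ ?_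
    refine (hψalg ⟨υ i, hυA i⟩).ringHom_of_comp_eq
      (Subalgebra.inclusion (show (ι.comp φ).range ≤ _ from hrange) : _ →+* _) (RingHom.id Ω)
      (Subalgebra.inclusion_injective hrange) ?_
    ext
    rfl
  have hξw : ∀ i, IsAlgebraic (Algebra.adjoin ℂ (Set.range w)) (ι (ξ i)) := by
    intro i
    refine alg_sum (fun i => ι (ξ i)) (fun j => ι (ζ j)) _ hξζ' _ ?_
    exact isAlgebraic_algebraMap (⟨ι (ξ i), Algebra.subset_adjoin (Or.inl ⟨i, rfl⟩)⟩ :
      Algebra.adjoin ℂ
      (Set.range (fun i => ι (ξ i)) ∪ Set.range fun j : Fin k => ι (t (Fin.castAdd e j))))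
  -- the field
  set S : Set Ω := Set.range (fun i => ψ ⟨ξ i, hξA i⟩) ∪ Set.range fun i => ψ ⟨υ i, hυA i⟩ with hS
  let L' := IntermediateField.adjoin ℂ S
  let ξ' : Fin n → L' := fun i => ⟨ψ ⟨ξ i, hξA i⟩,
    IntermediateField.subset_adjoin _ _ (Or.inl ⟨i, rfl⟩)⟩
  let υ' : Fin n → L' := fun i => ⟨ψ ⟨υ i, hυA i⟩,
    IntermediateField.subset_adjoin _ _ (Or.inr ⟨i, rfl⟩)⟩
  have hξ'v : ∀ i, L'.val (ξ' i) = ι (ξ i) := hψξ
  have hL'inj : Function.Injective L'.val := Subtype.val_injective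
  have hKmap : ∀ x ∈ K, ι x ∈ IntermediateField.adjoin ℂ (Set.range fun i => ι (ξ i)) := by
    intro x hx
    have h1 : ι x ∈ K.map ι := ⟨x, hx, rfl⟩
    rw [hK, IntermediateField.adjoin_map, ← Set.range_comp] at h1
    exact h1
  have hSle : IntermediateField.adjoin ℂ (Set.range fun i => ι (ξ i)) ≤
      IntermediateField.adjoin ℂ S := by
    apply IntermediateField.adjoin.mono
    rintro _ ⟨i, rfl⟩
    exact Or.inl ⟨i, hψξ i⟩
  refine ⟨L', inferInstance, inferInstance, ξ', υ', ?_, ?_, ?_, ?_, ?_, ?_⟩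
  · intro f hf
    apply hL'inj
    rw [map_zero]
    have h1 : L'.val (aeval (Sum.elim ξ' υ') f) =
        aeval (fun i => L'.val (Sum.elim ξ' υ' i)) f := (map_aeval_sl L'.val _ f)
    rw [h1]
    have h2 : (fun i => L'.val (Sum.elim ξ' υ' i)) =
        fun i => ψ (Sum.elim (fun i => (⟨ξ i, hξA i⟩ : A)) (fun i => ⟨υ i, hυA i⟩) i) := by
      funext i
      rcases i with i | i <;> rfl
    rw [h2, ← map_aeval_sl]
    have h3 : aeval (Sum.elim (fun i => (⟨ξ i, hξA i⟩ : A)) (fun i => ⟨υ i, hυA i⟩)) f = 0 := by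
      apply Subtype.val_injective
      change A.val _ = A.val 0
      rw [map_zero, map_aeval_sl]
      have h4 : (fun i => A.val (Sum.elim (fun i => (⟨ξ i, hξA i⟩ : A)) (fun i => ⟨υ i, hυA i⟩) i)) =
          Sum.elim ξ υ := by
        funext i
        rcases i with i | i <;> rfl
      rw [h4]
      exact hf
    rw [h3, map_zero]
  · intro f
    have h1 : L'.val (aeval ξ' f) = ι (aeval ξ f) := by
      rw [map_aeval_sl, map_aeval_sl]
      congr 1
      congr 1
      funext i
      exact hξ'v i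
    rw [← map_eq_zero_iff ι hιinj, ← h1, map_eq_zero_iff L'.val hL'inj]
  · intro i h0
    have h1 : ψ ⟨υ i, hυA i⟩ = 0 := congrArg Subtype.val h0
    have h2 : (⟨υ i, hυA i⟩ : A) * ⟨(υ i)⁻¹, hυA' i⟩ = 1 := by
      apply Subtype.val_injective
      exact mul_inv_cancel₀ (hυ i)
    have h3 := congrArg ψ h2
    rw [map_mul, h1, zero_mul, map_one] at h3
    exact zero_ne_one h3
  · intro z
    rw [← sl_alg L'.val]
    have h1 : L'.val '' (Set.range (Sum.elim ξ' υ')) = S := by
      rw [← Set.range_comp, hS, ← Set.Sum.elim_range]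
      congr 1
      funext i
      rcases i with i | i <;> rfl
    rw [h1]
    refine sl_field _ S (fun s hs => ?_) z.2
    exact isAlgebraic_algebraMap (⟨s, Algebra.subset_adjoin hs⟩ : Algebra.adjoin ℂ S)
  · have h1 : (IntermediateField.adjoin ℂ (Set.range ξ')).map L'.val = K.map ι := by
      rw [IntermediateField.adjoin_map, hK, IntermediateField.adjoin_map]
      congr 1
      rw [← Set.range_comp, ← Set.range_comp]
      congr 1
      funext i
      exact hξ'v i
    rw [((IntermediateField.adjoin ℂ (Set.range ξ')).equivMap L'.val).trdeg_eq, h1,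
      ← (K.equivMap ι).trdeg_eq, hξ]
  · have h1 := sl_trdeg w S hwind (fun i => ?_) (fun s hs => ?_)
    · change Algebra.trdeg ℂ (IntermediateField.adjoin ℂ S) = n
      rw [h1, Cardinal.mk_fintype, Fintype.card_sum, Fintype.card_fin, Fintype.card_fin, hdk]
    · rcases i with j | j
      · exact hSle (hKmap _ (hζK j))
      · refine IntermediateField.subset_adjoin _ _ (Or.inr ⟨B (Fin.castAdd e j), hψt j⟩)
    · rcases hs with ⟨i, rfl⟩ | ⟨i, rfl⟩
      · have h2 := hξw i
        rw [← hψξ i] at h2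
        exact h2
      · exact hυζ i

end Pool.Agent.Lib.MP_209724_lc.GP
end
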