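import Mathlib
import Pool.Agent.Lib.MP_209724_lc.GP.Core
import Pool.Agent.Lib.MP_209724_lc.GP.Slice
import Pool.Agent.Lib.MP_209724_lc.GC.Final

/-!
# Exponential points on all varieties over a variety in general position at infinity
-/

namespace Pool.Agent.Lib.MP_209724_lc.GP

open MvPolynomial Filter Topology Metric Set
open GC (prj cone)

variable {n d : ℕ}

theorem final (hd : 0 < d) (Q : Ideal (MvPolynomial (Fin n ⊕ Fin n) ℂ)) [Q.IsPrime]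
    (hy : ∀ i, (X (Sum.inr i) : MvPolynomial (Fin n ⊕ Fin n) ℂ) ∉ Q)
    (hdim : (n : Cardinal) ≤ Algebra.trdeg ℂ (MvPolynomial (Fin n ⊕ Fin n) ℂ ⧸ Q))
    (p : Ideal (MvPolynomial (Fin n) ℂ)) (hpQ : ∀ c, c ∈ p ↔ rename Sum.inl c ∈ Q)
    (hpd : Algebra.trdeg ℂ (MvPolynomial (Fin n) ℂ ⧸ p) = d)
    (q : Ideal (MvPolynomial (Fin n) ℂ)) [q.IsPrime]
    (hq : Algebra.trdeg ℂ (MvPolynomial (Fin n) ℂ ⧸ q) = d)
    (hq1 : ∀ z : Fin n → ℂ, (∀ f ∈ q, eval z f = 0) → z ∈ cone p)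
    (hq2 : ∃ G ∉ q, ∀ z ∈ cone p, eval z G ≠ 0 → ∀ f ∈ q, eval z f = 0)
    (hreal : ∀ f ∉ q, ∃ η : Fin n → ℝ, (∀ h ∈ q, eval (fun i => (η i : ℂ)) h = 0) ∧
      eval (fun i => (η i : ℂ)) f ≠ 0)
    (hgp : ∀ m : Fin d → Fin n → ℤ, LinearIndependent ℤ m →
      AlgebraicIndependent ℂ fun j => Ideal.Quotient.mk q (∑ k, C (m j k : ℂ) * X k))
    (g : MvPolynomial (Fin n) ℂ) (hg : g ∉ p) (M : ℝ) :
    ∃ x : Fin n → ℂ, M < ‖x‖ ∧
      (∀ f ∈ Q, eval (Sum.elim x fun i => Complex.exp (x i)) f = 0) ∧ eval x g ≠ 0 := by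
  classical
  set L := FractionRing (MvPolynomial (Fin n ⊕ Fin n) ℂ ⧸ Q) with hLdef
  have hinj : Function.Injective (algebraMap (MvPolynomial (Fin n ⊕ Fin n) ℂ ⧸ Q) L) :=
    IsFractionRing.injective _ _
  set w : Fin n ⊕ Fin n → L := fun i =>
    algebraMap (MvPolynomial (Fin n ⊕ Fin n) ℂ ⧸ Q) L (Ideal.Quotient.mk Q (X i)) with hw
  have haev : ∀ f : MvPolynomial (Fin n ⊕ Fin n) ℂ, aeval w f =
      algebraMap (MvPolynomial (Fin n ⊕ Fin n) ℂ ⧸ Q) L (Ideal.Quotient.mk Q f) := by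
    intro f
    induction f using MvPolynomial.induction_on with
    | C a =>
      rw [aeval_C]
      rfl
    | add p q hp hq => rw [map_add, hp, hq, map_add, map_add]
    | mul_X p i hp => rw [map_mul, hp, aeval_X, map_mul, map_mul]
  have haev0 : ∀ f, aeval w f = 0 ↔ f ∈ Q := fun f => by
    rw [haev, map_eq_zero_iff _ hinj, Ideal.Quotient.eq_zero_iff_mem]
  set ξ : Fin n → L := fun i => w (Sum.inl i) with hξ
  set υ : Fin n → L := fun i => w (Sum.inr i) with hυ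
  have hwe : Sum.elim ξ υ = w := by
    funext i
    rcases i with i | i <;> rfl
  have hp : ∀ c, c ∈ p ↔ aeval ξ c = 0 := by
    intro c
    rw [hpQ, ← haev0, aeval_rename]
    rfl
  have hυ0 : ∀ i, υ i ≠ 0 := by
    intro i h0
    apply hy i
    rw [← haev0, aeval_X]
    exact h0
  have hgen : ∀ z : L, IsAlgebraic (Algebra.adjoin ℂ (Set.range (Sum.elim ξ υ))) z := by
    intro z
    rw [hwe]
    obtain ⟨u, v, hv, rfl⟩ := IsFractionRing.div_surjective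
      (A := MvPolynomial (Fin n ⊕ Fin n) ℂ ⧸ Q) z
    obtain ⟨f, rfl⟩ := Ideal.Quotient.mk_surjective u
    obtain ⟨g, rfl⟩ := Ideal.Quotient.mk_surjective v
    have key : ∀ f : MvPolynomial (Fin n ⊕ Fin n) ℂ, IsAlgebraic (Algebra.adjoin ℂ (Set.range w))
        (algebraMap (MvPolynomial (Fin n ⊕ Fin n) ℂ ⧸ Q) L (Ideal.Quotient.mk Q f)) := by
      intro f
      have h1 : algebraMap (MvPolynomial (Fin n ⊕ Fin n) ℂ ⧸ Q) L (Ideal.Quotient.mk Q f) ∈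
          Algebra.adjoin ℂ (Set.range w) := by
        rw [← haev, Algebra.adjoin_range_eq_range_aeval]
        exact ⟨f, rfl⟩
      exact isAlgebraic_algebraMap (⟨_, h1⟩ : Algebra.adjoin ℂ (Set.range w))
    exact (key f).mul (key g).inv
  have hξd : Algebra.trdeg ℂ (IntermediateField.adjoin ℂ (Set.range ξ)) = d := by
    rw [GC.trdeg_adjoin ξ p hp, hpd]
  have hLQ : Algebra.trdeg ℂ L = Algebra.trdeg ℂ (MvPolynomial (Fin n ⊕ Fin n) ℂ ⧸ Q) :=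
    Elim.trdeg_fractionRing (A := MvPolynomial (Fin n ⊕ Fin n) ℂ ⧸ Q)
  have hfin : Algebra.trdeg ℂ (MvPolynomial (Fin n ⊕ Fin n) ℂ ⧸ Q) < Cardinal.aleph0 :=
    trdeg_lt_aleph0_of_finiteType
  obtain ⟨m, hm⟩ := Cardinal.lt_aleph0.1 hfin
  have hnm : n ≤ m := by
    rw [hm] at hdim
    exact_mod_cast hdim
  obtain ⟨e, rfl⟩ := Nat.exists_eq_add_of_le hnm
  have hdn : d ≤ n := by
    have h1 : Algebra.trdeg ℂ (MvPolynomial (Fin n) ℂ ⧸ p) ≤
        Algebra.trdeg ℂ (MvPolynomial (Fin n) ℂ) :=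
      trdeg_le_of_surjective (Ideal.Quotient.mkₐ ℂ p) (Ideal.Quotient.mkₐ_surjective ℂ p)
    rw [hpd, MvPolynomial.trdeg_of_isDomain] at h1
    simpa using h1
  have hdk : d + (n - d) = n := Nat.add_sub_cancel' hdn
  obtain ⟨L', _, _, ξ', υ', h1, h2, h3, h4, h5, h6⟩ := exists_slice ξ υ hυ0 hgen hdk hξd
    (e := e) (by rw [hLQ, hm])
  obtain ⟨x, hx1, hx2, hx3⟩ := core hd hdk ξ' υ' h3 h4 h5 h6 p (fun c => by rw [hp, h2]) q hq hq1
    hq2 hreal hgp g (fun h => hg ((hp g).2 ((h2 g).2 h))) M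
  refine ⟨x, hx1, fun f hf => hx2 f (h1 f ?_), hx3⟩
  rw [hwe]
  exact (haev0 f).2 hf

end Pool.Agent.Lib.MP_209724_lc.GP
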